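import Pool.Agent.Hhelper49.Srr.Cpx

/-!
# Module Back: `TypeFP`, `TypeFF` and the classes `FP`, `FF`

`typeFP_of_fp`: as `typeFF_of_ff` in `Srr/Cpx.lean` (the analogue of `res_of_ffl` for projective modules).
`ff_of_typeFF`: `freeRes_of_typeFF`, `freeRes_iff` with `m = 1`, and `LinearEquiv.funUnique`.
-/

namespace Pool.Agent.Hhelper49.Srf

open Pool.Agent.Hhelper49.Srr

section
variable {R : Type} [Ring R]

/-- data of a finite projective resolution of length `n` -/
def ResP (R : Type) [Ring R] (n : ℕ) (M : Type) [AddCommGroup M] [Module R M] : Prop :=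
  ∃ (P : ℕ → Type) (_ : ∀ i, AddCommGroup (P i)) (_ : ∀ i, Module R (P i))
    (d : ∀ i, P (i + 1) →ₗ[R] P i) (f : P 0 →ₗ[R] M),
    (∀ i, Module.Finite R (P i)) ∧ (∀ i, Module.Projective R (P i)) ∧
    (∀ i, n < i → Subsingleton (P i)) ∧ Function.Surjective f ∧
    LinearMap.range (d 0) = LinearMap.ker f ∧
    (∀ i, LinearMap.range (d (i + 1)) = LinearMap.ker (d i))

theorem res_of_fpl (n : ℕ) : ∀ (M : Type) [AddCommGroup M] [Module R M], FPl R n M →
    ResP R n M := by
  induction n with
  | zero =>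
    intro M _ _ h
    obtain ⟨h1, h2⟩ := h
    refine ⟨consT M (fun _ => PUnit), consA M (fun _ => PUnit), consM R M (fun _ => PUnit),
      consD M (fun _ => PUnit) (fun _ => 0) 0, (LinearMap.id : M →ₗ[R] M), ?_, ?_, ?_, ?_, ?_, ?_⟩
    · rintro (_ | i)
      · exact h1
      · exact (inferInstance : Module.Finite R PUnit)
    · rintro (_ | i)
      · exact h2
      · exact (inferInstance : Module.Projective R PUnit)
    · rintro (_ | i) hi
      · exact absurd hi (lt_irrefl _)
      · exact (inferInstance : Subsingleton PUnit)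
    · exact fun x => ⟨x, rfl⟩
    · change LinearMap.range (0 : PUnit →ₗ[R] M) = LinearMap.ker (LinearMap.id : M →ₗ[R] M)
      rw [LinearMap.range_zero, LinearMap.ker_id]
    · rintro (_ | i)
      · change LinearMap.range (0 : PUnit →ₗ[R] PUnit) = LinearMap.ker (0 : PUnit →ₗ[R] M)
        exact Subsingleton.elim _ _
      · change LinearMap.range (0 : PUnit →ₗ[R] PUnit) = LinearMap.ker (0 : PUnit →ₗ[R] PUnit)
        exact Subsingleton.elim _ _
  | succ n ih =>
    intro M _ _ h
    obtain ⟨k, f, hf, hK⟩ := h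
    obtain ⟨P, i1, i2, d, g, h1, h2, h3, h4, h5, h6⟩ := ih _ hK
    refine ⟨consT (Fin k → R) P, consA (Fin k → R) P, consM R (Fin k → R) P,
      consD (Fin k → R) P d ((LinearMap.ker f).subtype ∘ₗ g), f, ?_, ?_, ?_, ?_, ?_, ?_⟩
    · rintro (_ | i)
      · exact (inferInstance : Module.Finite R (Fin k → R))
      · exact h1 i
    · rintro (_ | i)
      · exact (inferInstance : Module.Projective R (Fin k → R))
      · exact h2 i
    · rintro (_ | i) hi
      · exact absurd hi (Nat.not_lt_zero _)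
      · exact h3 i (by omega)
    · exact hf
    · change LinearMap.range ((LinearMap.ker f).subtype ∘ₗ g) = LinearMap.ker f
      rw [LinearMap.range_comp_of_range_eq_top _ (LinearMap.range_eq_top.2 h4),
        Submodule.range_subtype]
    · rintro (_ | i)
      · change LinearMap.range (d 0) = LinearMap.ker ((LinearMap.ker f).subtype ∘ₗ g)
        rw [h5, LinearMap.ker_comp_of_ker_eq_bot _ (Submodule.ker_subtype _)]
      · exact h6 i

end

theorem typeFP_of_fp (G : Type) [Group G] (h : FP (MonoidAlgebra ℤ G) (Triv G)) : TypeFP G := by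
  obtain ⟨n, hn⟩ := h
  obtain ⟨P, i1, i2, d, f, h1, h2, h3, h4, h5, h6⟩ := res_of_fpl n _ hn
  let ε : P 0 →+ ℤ := (f.toAddMonoidHom : P 0 →+ Triv G)
  refine ⟨P, i1, i2, d, ε, n, h1, h2, h3, ?_, h4, ?_, h6⟩
  · intro g x
    have h7 := lin_act f g x
    rw [act_triv] at h7
    exact h7
  · intro x
    rw [h5]
    have h8 : x ∈ LinearMap.ker f ↔ f x = 0 := LinearMap.mem_ker
    exact h8.symm

theorem ff_of_typeFF (G : Type) [Group G] (h : TypeFF G) : FF (MonoidAlgebra ℤ G) (Triv G) := by
  have h1 := (freeRes_iff 1 G).1 (freeRes_of_typeFF G h)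
  exact ff_iso (LinearEquiv.funUnique (Fin 1) (MonoidAlgebra ℤ G) (Triv G)) h1

end Pool.Agent.Hhelper49.Srf
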