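import Pool.Agent.Hhelper49.Srr.Cpx

/-!
# Module Free: the free resolution of a free group (Fox calculus)

`F = FreeGroup (Fin n)` with generators `x_j`, `f v = ∑_j v_j (x_j - 1)` (right multiplication, a linear map of left
modules), `g` the augmentation `x ↦ ε(x)`.
Fox derivative: there is a map `D : F → M = ℤ[F]^n` with `D (a b) = D a + a D b` and `D x_j = e_j`: lift `x_j ↦ (e_j, x_j)` to a
homomorphism from `F` to the semidirect product `Multiplicative M ⋊ F`; its second component is the identity
(compare on generators), `D` is the first component.  `D 1 = 0`.  Extend to an additive map `D : ℤ[F] → M`.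
* `D (a y) = ε(y) D a + a D y` for `a ∈ F`, `y ∈ ℤ[F]` (additive in `y`).  So `D` is `ℤ[F]`-linear on `ker ε`.
* `D (f e_j) = D (x_j - 1) = e_j`, `f v ∈ ker ε`, so `D (f v) = v`: `f` is injective.
* `f (D y) = y - ε(y)`: additive in `y`; for `y = a ∈ F` by induction on `a` (`FreeGroup.induction_on`): both sides are
  crossed homomorphisms `d` (`d (a b) = d a + a d b`) that agree on the generators, hence on their inverses and products.
  So `ker g ≤ range f`; the other inclusion is clear.
-/

namespace Pool.Agent.Hhelper49.Srf

open Pool.Agent.Hhelper49.Srr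

section
variable {X : Type} {M : Type} [AddCommGroup M] [Module (MonoidAlgebra ℤ (FreeGroup X)) M]

/-- the affine permutation `v ↦ e x + x v` -/
noncomputable def foxPerm (e : X → M) (x : X) : Equiv.Perm M where
  toFun v := e x + act (FreeGroup.of x) v
  invFun w := act (FreeGroup.of x)⁻¹ (w - e x)
  left_inv v := by
    change act (FreeGroup.of x)⁻¹ (e x + act (FreeGroup.of x) v - e x) = v
    rw [add_sub_cancel_left, act_inv_act]
  right_inv w := by
    change e x + act (FreeGroup.of x) (act (FreeGroup.of x)⁻¹ (w - e x)) = w
    rw [act_act_inv, add_sub_cancel]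

/-- the action of the free group by affine permutations -/
noncomputable def foxHom (e : X → M) : FreeGroup X →* Equiv.Perm M := FreeGroup.lift (foxPerm e)

theorem foxHom_apply (e : X → M) (a : FreeGroup X) :
    ∀ v : M, foxHom e a v = foxHom e a 0 + act a v := by
  have hz : ∀ g : FreeGroup X, act g (0 : M) = 0 := fun g => smul_zero _
  induction a using FreeGroup.induction_on with
  | C1 =>
    intro v
    rw [map_one, Equiv.Perm.one_apply, Equiv.Perm.one_apply, act_one, zero_add]
  | of x =>
    intro v
    have h1 : ∀ w, foxHom e (FreeGroup.of x) w = e x + act (FreeGroup.of x) w := by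
      intro w
      rw [foxHom, FreeGroup.lift_apply_of]
      rfl
    change foxHom e (FreeGroup.of x) v = foxHom e (FreeGroup.of x) 0 + act (FreeGroup.of x) v
    rw [h1, h1, hz, add_zero]
  | inv_of x hx =>
    intro v
    rw [map_inv, Equiv.Perm.inv_def, Equiv.symm_apply_eq]
    rw [hx]
    have h2 : foxHom e (FreeGroup.of x) ((Equiv.symm (foxHom e (FreeGroup.of x))) 0) = 0 :=
      Equiv.apply_symm_apply _ _
    rw [hx] at h2
    have h3 : ∀ w w' : M, act (FreeGroup.of x) (w + w') =
      act (FreeGroup.of x) w + act (FreeGroup.of x) w' := fun w w' => smul_add _ _ _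
    rw [h3, ← add_assoc, h2, act_act_inv, zero_add]
  | mul a b ha hb =>
    intro v
    rw [map_mul, Equiv.Perm.mul_apply, Equiv.Perm.mul_apply, ha (foxHom e b v),
      ha (foxHom e b 0), hb v, act_mul]
    have h3 : act a (foxHom e b 0 + act b v) = act a (foxHom e b 0) + act a (act b v) :=
      smul_add _ _ _
    rw [h3, add_assoc]

/-- the Fox derivative -/
noncomputable def fox (e : X → M) (a : FreeGroup X) : M := foxHom e a 0

theorem fox_one (e : X → M) : fox e 1 = 0 := by
  rw [fox, map_one, Equiv.Perm.one_apply]

theorem fox_mul (e : X → M) (a b : FreeGroup X) : fox e (a * b) = fox e a + act a (fox e b) := by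
  rw [fox, map_mul, Equiv.Perm.mul_apply, foxHom_apply]
  rfl

theorem fox_of (e : X → M) (x : X) : fox e (FreeGroup.of x) = e x := by
  rw [fox, foxHom, FreeGroup.lift_apply_of]
  change e x + act (FreeGroup.of x) 0 = e x
  rw [act, smul_zero, add_zero]

theorem fox_inv (e : X → M) (a : FreeGroup X) : fox e a⁻¹ = -act a⁻¹ (fox e a) := by
  have h := fox_mul e a⁻¹ a
  rw [inv_mul_cancel, fox_one] at h
  exact eq_neg_of_add_eq_zero_left h.symm

end

/-- additive extension of a function on the group -/
noncomputable def extA {G A : Type} [Group G] [AddCommGroup A] (D : G → A) :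
    MonoidAlgebra ℤ G →+ A :=
  (Finsupp.liftAddHom (fun a : G => (zmultiplesHom A) (D a))).comp
    (MonoidAlgebra.coeffAddEquiv (R := ℤ) (M := G)).toAddMonoidHom

theorem extA_single {G A : Type} [Group G] [AddCommGroup A] (D : G → A) (a : G) (r : ℤ) :
    extA D (MonoidAlgebra.single a r) = r • D a := by
  rw [extA, AddMonoidHom.comp_apply]
  change (Finsupp.liftAddHom (fun a : G => (zmultiplesHom A) (D a))) (Finsupp.single a r) = _
  rw [Finsupp.liftAddHom_apply_single, zmultiplesHom_apply]

theorem extA_of {G A : Type} [Group G] [AddCommGroup A] (D : G → A) (a : G) :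
    extA D (MonoidAlgebra.of ℤ G a) = D a := by
  rw [MonoidAlgebra.of_apply, extA_single, one_smul]

theorem extA_one {G A : Type} [Group G] [AddCommGroup A] (D : G → A) :
    extA D (1 : MonoidAlgebra ℤ G) = D 1 := by
  rw [MonoidAlgebra.one_def, extA_single, one_smul]

section
variable {X : Type} {M : Type} [AddCommGroup M] [Module (MonoidAlgebra ℤ (FreeGroup X)) M]

/-- the augmentation as an additive map -/
noncomputable def augA (G : Type) [Group G] : MonoidAlgebra ℤ G →+ ℤ := extA fun _ => (1 : ℤ)

theorem augA_single {G : Type} [Group G] (a : G) (r : ℤ) :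
    augA G (MonoidAlgebra.single a r) = r := by
  rw [augA, extA_single, smul_eq_mul, mul_one]

theorem augA_act {G : Type} [Group G] (g : G) (y : MonoidAlgebra ℤ G) :
    augA G (act g y) = augA G y := by
  induction y using MonoidAlgebra.induction_linear with
  | zero => rw [act, smul_zero]
  | add x y hx hy => rw [act, smul_add, map_add, map_add]; exact congrArg₂ _ hx hy
  | single a r =>
    rw [act, MonoidAlgebra.of_apply, smul_eq_mul, MonoidAlgebra.single_mul_single, one_mul,
      augA_single, augA_single]

theorem extA_act (e : X → M) (a : FreeGroup X) (y : MonoidAlgebra ℤ (FreeGroup X)) :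
    extA (fox e) (act a y) = augA _ y • fox e a + act a (extA (fox e) y) := by
  induction y using MonoidAlgebra.induction_linear with
  | zero => rw [act, smul_zero, map_zero, map_zero, zero_smul, act, smul_zero, add_zero]
  | add x y hx hy =>
    have h1 : act a (x + y) = act a x + act a y := smul_add _ _ _
    have h2 : act a (extA (fox e) x + extA (fox e) y) =
      act a (extA (fox e) x) + act a (extA (fox e) y) := smul_add _ _ _
    rw [h1, map_add, hx, hy, map_add, map_add, h2, add_smul]
    abel
  | single b r =>
    have h1 : act a (MonoidAlgebra.single b r) = MonoidAlgebra.single (a * b) r := by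
      rw [act, MonoidAlgebra.of_apply, smul_eq_mul, MonoidAlgebra.single_mul_single, one_mul]
    have h2 : act a (r • fox e b) = r • act a (fox e b) := smul_comm _ _ _
    rw [h1, extA_single, extA_single, augA_single, fox_mul, smul_add, h2]

theorem extA_mul (e : X → M) (c y : MonoidAlgebra ℤ (FreeGroup X)) (hy : augA _ y = 0) :
    extA (fox e) (c * y) = c • extA (fox e) y := by
  induction c using MonoidAlgebra.induction_linear with
  | zero => rw [zero_mul, map_zero, zero_smul]
  | add x z hx hz => rw [add_mul, map_add, hx, hz, add_smul]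
  | single a r =>
    have h1 : MonoidAlgebra.single a r * y = r • act a y := single_smul a r y
    rw [h1, map_zsmul, extA_act, hy, zero_smul, zero_add, single_smul]

end

theorem free_exact (n : ℕ) :
    ∃ (f : (Fin n → MonoidAlgebra ℤ (FreeGroup (Fin n))) →ₗ[MonoidAlgebra ℤ (FreeGroup (Fin n))]
        MonoidAlgebra ℤ (FreeGroup (Fin n)))
      (g : MonoidAlgebra ℤ (FreeGroup (Fin n)) →ₗ[MonoidAlgebra ℤ (FreeGroup (Fin n))]
        Triv (FreeGroup (Fin n))),
      Function.Injective f ∧ Function.Surjective g ∧ LinearMap.range f = LinearMap.ker g := by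
  classical
  let F := FreeGroup (Fin n)
  let R := MonoidAlgebra ℤ F
  let e : Fin n → (Fin n → R) := fun j => Pi.single (M := fun _ : Fin n => R) j 1
  let δ : Fin n → R := fun j => MonoidAlgebra.of ℤ F (FreeGroup.of j) - 1
  have hδ : ∀ j, augA F (δ j) = 0 := by
    intro j
    change augA F (MonoidAlgebra.of ℤ F (FreeGroup.of j) - 1) = 0
    rw [map_sub, MonoidAlgebra.of_apply, augA_single, MonoidAlgebra.one_def, augA_single, sub_self]
  obtain ⟨f, hf⟩ : ∃ f : (Fin n → R) →ₗ[R] R, ∀ v, f v = ∑ j, v j * δ j := by
    refine ⟨∑ j, (LinearMap.toSpanSingleton R R (δ j)).comp (LinearMap.proj j), ?_⟩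
    intro v
    rw [LinearMap.sum_apply]
    rfl
  let ε : R →+ Triv F := augA F
  let g : R →ₗ[R] Triv F := mkLin ε (by
    intro a y
    rw [act_triv]
    exact augA_act a y)
  have hg : ∀ y, g y = 0 ↔ augA F y = 0 := fun y => Iff.rfl
  have hDf : ∀ v, extA (fox e) (f v) = v := by
    intro v
    rw [hf, map_sum]
    have h1 : ∀ j, extA (fox e) (v j * δ j) = v j • e j := by
      intro j
      rw [extA_mul e _ _ (hδ j)]
      congr 1
      change extA (fox e) (MonoidAlgebra.of ℤ F (FreeGroup.of j) - 1) = e j
      rw [map_sub, extA_of, extA_one, fox_one, sub_zero, fox_of]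
    rw [Finset.sum_congr rfl fun j _ => h1 j]
    funext i
    rw [Finset.sum_apply, Finset.sum_eq_single i]
    · change v i • (Pi.single (M := fun _ : Fin n => R) i 1) i = v i
      rw [Pi.single_eq_same, smul_eq_mul, mul_one]
    · intro j _ hj
      change v j • (Pi.single (M := fun _ : Fin n => R) j 1) i = 0
      rw [Pi.single_eq_of_ne (Ne.symm hj), smul_zero]
    · intro h
      exact absurd (Finset.mem_univ i) h
  have hfe : ∀ j, f (e j) = δ j := by
    intro j
    rw [hf, Finset.sum_eq_single j]
    · change (Pi.single (M := fun _ : Fin n => R) j 1) j * δ j = δ j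
      rw [Pi.single_eq_same, one_mul]
    · intro i _ hi
      change (Pi.single (M := fun _ : Fin n => R) j 1) i * δ i = 0
      rw [Pi.single_eq_of_ne hi, zero_mul]
    · intro h
      exact absurd (Finset.mem_univ j) h
  have hfD : ∀ a : F, f (fox e a) = MonoidAlgebra.of ℤ F a - 1 := by
    intro a
    have hof : ∀ x : Fin n, f (fox e (FreeGroup.of x)) = MonoidAlgebra.of ℤ F (FreeGroup.of x) - 1 := by
      intro x
      rw [fox_of, hfe]
    induction a using FreeGroup.induction_on with
    | C1 => rw [fox_one, map_zero, map_one, sub_self]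
    | of x => exact hof x
    | inv_of x _ =>
      change f (fox e (FreeGroup.of x)⁻¹) = MonoidAlgebra.of ℤ F (FreeGroup.of x)⁻¹ - 1
      rw [fox_inv, map_neg, lin_act, hof, act, smul_eq_mul, mul_sub, mul_one, ← map_mul,
        inv_mul_cancel, map_one, neg_sub]
    | mul a b ha hb =>
      rw [fox_mul, map_add, lin_act, ha, hb, act, smul_eq_mul, mul_sub, mul_one, ← map_mul]
      abel
  have hfD' : ∀ y : R, f (extA (fox e) y) = y - augA F y • (1 : R) := by
    intro y
    induction y using MonoidAlgebra.induction_linear with
    | zero => rw [map_zero, map_zero, map_zero, zero_smul, sub_zero]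
    | add x y hx hy =>
      rw [map_add, map_add, hx, hy, map_add, add_smul]
      abel
    | single a r =>
      rw [extA_single, map_zsmul, hfD, augA_single, smul_sub, MonoidAlgebra.of_apply,
        MonoidAlgebra.smul_single, smul_eq_mul, mul_one]
  refine ⟨f, g, Function.LeftInverse.injective hDf, ?_, ?_⟩
  · intro m
    refine ⟨MonoidAlgebra.single 1 (m : ℤ), ?_⟩
    exact augA_single (1 : F) (m : ℤ)
  · apply le_antisymm
    · rintro _ ⟨v, rfl⟩
      rw [LinearMap.mem_ker, hg, hf, map_sum]
      apply Finset.sum_eq_zero
      intro j _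
      generalize v j = c
      induction c using MonoidAlgebra.induction_linear with
      | zero => rw [zero_mul, map_zero]
      | add x y hx hy => rw [add_mul, map_add, hx, hy, add_zero]
      | single a r =>
        have h1 : MonoidAlgebra.single a r * δ j = r • act a (δ j) := single_smul a r (δ j)
        rw [h1, map_zsmul, augA_act, hδ, smul_zero]
    · intro y hy
      rw [LinearMap.mem_ker, hg] at hy
      refine ⟨extA (fox e) y, ?_⟩
      rw [hfD', hy, zero_smul, sub_zero]

end Pool.Agent.Hhelper49.Srf
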