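import Pool.Agent.Hhelper49.Srf.Ret
import Pool.Agent.Hhelper49.Srf.Free
import Pool.Agent.Hhelper49.Srf.Back

/-!
# Module Prod: products with free groups

`F = FreeGroup (Fin n)`, `Γ = G × F`, `κ = MonoidHom.inl G F`, `r = MonoidHom.fst G F`.
`N = Pull (MonoidHom.snd G F) (MonoidAlgebra ℤ F)`, a `ℤ[Γ]`-module on which `(g, x)` acts by multiplication by `x`.
(1) `N` is induced from `Triv G`: `i m = m • 1`, `π` = coefficient at `1` (`(g, x) ∈ κ.range` iff `x = 1`).
(2) `free_exact`, restricted along `snd`, gives an exact sequence `0 → (Fin n → N) → N → Triv Γ → 0` over `ℤ[Γ]` (a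
`ℤ[F]`-linear map is also linear over `ℤ[Γ]` for `Pull`; `Pull snd (Triv F) ≃ Triv Γ`).
(3) `prod_fp`: `N` is (FP) by `ind_fp`, so `Triv Γ` is (FP) by `fp_coker`.
(4) `prod_freeRes`, `n = k + 1`: let `T = Fin m → Triv Γ`, and write `N^j` for `Fin j → N`.  The sequence in (2) to the power
`m` and `Sim_ext` give `Sim (N^m) (N^(m (k+1)) × T)`: there is `C` with `N^m × C` (FF) and `N^(m (k+1)) × T × C` (FF).  The
latter is `(N^m × C) × (N^(m k) × T)`, so `N^(m k) × T` is (FF) by `ff_right`.  So `T` is (FF) iff `N^(m k)` is (FF)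
(`ff_left`, `ff_right`).  And `N^(m k)` is (FF) iff `Fin (m k) → Triv G` is (FF) over `ℤ[G]`: `←` by `ind_ff`, `ind_pi`; `→` by
`ind_reduce` with `desc_ret` (`Fin (m k) → Triv G` is (FP) by `fp_pi`).  Use `freeRes_iff` on both sides.
-/

namespace Pool.Agent.Hhelper49.Srf

open Pool.Agent.Hhelper49.Srr

section
variable (G F : Type) [Group G] [Group F]

/-- the `ℤ[G × F]`-module `ℤ[F]` -/
abbrev PN : Type := Pull (MonoidHom.snd G F) (MonoidAlgebra ℤ F)

/-- coefficient at `1` -/
noncomputable def coeffOne (F : Type) [Group F] : MonoidAlgebra ℤ F →+ ℤ :=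
  (Finsupp.applyAddHom (1 : F)).comp (MonoidAlgebra.coeffAddEquiv (R := ℤ) (M := F)).toAddMonoidHom

theorem coeffOne_single (a : F) (r : ℤ) [Decidable (a = 1)] :
    coeffOne F (MonoidAlgebra.single a r) = if a = 1 then r else 0 := by
  change (Finsupp.single a r : F →₀ ℤ) 1 = _
  rw [Finsupp.single_apply]

theorem PN_act_single (g : G × F) (a : F) (r : ℤ) :
    act g (Pull.mk (MonoidHom.snd G F) (MonoidAlgebra.single a r) : PN G F) =
      Pull.mk (MonoidHom.snd G F) (MonoidAlgebra.single (g.2 * a) r) := by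
  have h := Pull.act_apply (κ := MonoidHom.snd G F) g
    (Pull.mk (MonoidHom.snd G F) (MonoidAlgebra.single a r) : PN G F)
  have h2 : act ((MonoidHom.snd G F) g) (MonoidAlgebra.single a r : MonoidAlgebra ℤ F) =
      MonoidAlgebra.single (g.2 * a) r := by
    rw [act, MonoidAlgebra.of_apply, smul_eq_mul, MonoidAlgebra.single_mul_single, one_mul]
    rfl
  exact h.trans h2

theorem PN_ind : Induced (MonoidHom.inl G F) (Triv G) (PN G F) := by
  classical
  let i : Triv G →+ PN G F := (MonoidAlgebra.singleAddHom (R := ℤ) (1 : F) : ℤ →+ MonoidAlgebra ℤ F)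
  let π : PN G F →+ Triv G := (coeffOne F : MonoidAlgebra ℤ F →+ ℤ)
  have hi : ∀ m : ℤ, i m = Pull.mk (MonoidHom.snd G F) (MonoidAlgebra.single (1 : F) m) :=
    fun m => rfl
  have hact : ∀ (g : G × F) (m : ℤ), act g (i m) =
      Pull.mk (MonoidHom.snd G F) (MonoidAlgebra.single g.2 m) := by
    intro g m
    rw [hi, PN_act_single, mul_one]
  have hπ : ∀ (a : F) (m : ℤ), π (Pull.mk (MonoidHom.snd G F) (MonoidAlgebra.single a m)) =
      (if a = 1 then m else 0 : ℤ) := fun a m => coeffOne_single F a m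
  refine ⟨i, π, ?_, ?_, ?_, ?_⟩
  · intro h m
    rw [act_triv, hact]
    exact hi m
  · intro x
    induction x using MonoidAlgebra.induction_linear with
    | zero => exact AddSubgroup.zero_mem _
    | add a b ha hb => exact AddSubgroup.add_mem _ ha hb
    | single a r =>
      apply AddSubgroup.subset_closure
      exact ⟨(1, a), r, (hact (1, a) r).symm⟩
  · intro h m
    rw [act_triv, hact, hπ]
    exact if_pos rfl
  · intro g m hg
    rw [hact, hπ]
    apply if_neg
    intro h1
    apply hg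
    exact ⟨g.1, Prod.ext rfl h1.symm⟩

end

theorem PN_exact (G : Type) [Group G] (n : ℕ) :
    ∃ (f : (Fin n → PN G (FreeGroup (Fin n))) →ₗ[MonoidAlgebra ℤ (G × FreeGroup (Fin n))]
        PN G (FreeGroup (Fin n)))
      (g : PN G (FreeGroup (Fin n)) →ₗ[MonoidAlgebra ℤ (G × FreeGroup (Fin n))]
        Triv (G × FreeGroup (Fin n))),
      Function.Injective f ∧ Function.Surjective g ∧ LinearMap.range f = LinearMap.ker g := by
  obtain ⟨f, g, hf, hg, hfg⟩ := free_exact n
  let F := FreeGroup (Fin n)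
  let fa : (Fin n → PN G F) →+ PN G F := (f.toAddMonoidHom :
    (Fin n → MonoidAlgebra ℤ F) →+ MonoidAlgebra ℤ F)
  let ga : PN G F →+ Triv (G × F) := (g.toAddMonoidHom : MonoidAlgebra ℤ F →+ Triv F)
  have hfa : ∀ (x : G × F) (v : Fin n → PN G F), fa (act x v) = act x (fa v) := by
    intro x v
    have h1 : (act x v : Fin n → PN G F) =
        (act x.2 (v : Fin n → MonoidAlgebra ℤ F) : Fin n → MonoidAlgebra ℤ F) := by
      funext j
      exact Pull.act_apply (κ := MonoidHom.snd G F) x (v j)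
    have h2 : (act x (fa v) : PN G F) =
        (act x.2 (f (v : Fin n → MonoidAlgebra ℤ F)) : MonoidAlgebra ℤ F) :=
      Pull.act_apply (κ := MonoidHom.snd G F) x (fa v)
    rw [h1, h2]
    exact lin_act f x.2 v
  have hga : ∀ (x : G × F) (v : PN G F), ga (act x v) = act x (ga v) := by
    intro x v
    have h2 : (act x v : PN G F) = (act x.2 (v : MonoidAlgebra ℤ F) : MonoidAlgebra ℤ F) :=
      Pull.act_apply (κ := MonoidHom.snd G F) x v
    rw [act_triv, h2]
    have h3 := lin_act g x.2 (v : MonoidAlgebra ℤ F)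
    rw [act_triv] at h3
    exact h3
  refine ⟨mkLin fa hfa, mkLin ga hga, hf, hg, ?_⟩
  ext x
  have h3 : (x : MonoidAlgebra ℤ F) ∈ LinearMap.range f ↔ (x : MonoidAlgebra ℤ F) ∈ LinearMap.ker g := by
    rw [hfg]
  exact h3

theorem prod_fp (G : Type) [Group G] (hG : TypeFP G) (n : ℕ) :
    TypeFP (G × FreeGroup (Fin n)) := by
  obtain ⟨f, g, hf, hg, hfg⟩ := PN_exact G n
  have hinj : Function.Injective (MonoidHom.inl G (FreeGroup (Fin n))) := by
    intro x y h
    exact congrArg Prod.fst h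
  have hN := ind_fp hinj _ _ (PN_ind G (FreeGroup (Fin n))) (fp_of_typeFP G hG)
  exact typeFP_of_fp _ (fp_coker f g hf hg hfg
    (fp_pi (fun _ : Fin n => PN G (FreeGroup (Fin n))) fun _ => hN) hN)

theorem prod_freeRes (G : Type) [Group G] (hG : TypeFP G) (k m : ℕ) :
    FreeRes m (G × FreeGroup (Fin (k + 1))) ↔ FreeRes (m * k) G := by
  obtain ⟨f, g, hf, hg, hfg⟩ := PN_exact G (k + 1)
  have hinj : Function.Injective (MonoidHom.inl G (FreeGroup (Fin (k + 1)))) := by
    intro x y h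
    exact congrArg Prod.fst h
  let R := MonoidAlgebra ℤ (G × FreeGroup (Fin (k + 1)))
  let N := PN G (FreeGroup (Fin (k + 1)))
  let T := Fin m → Triv (G × FreeGroup (Fin (k + 1)))
  have hN : FP R N := ind_fp hinj _ _ (PN_ind G (FreeGroup (Fin (k + 1)))) (fp_of_typeFP G hG)
  have hNk : FP R (Fin (k + 1) → N) := fp_pi (fun _ : Fin (k + 1) => N) fun _ => hN
  have hTr : FP R (Triv (G × FreeGroup (Fin (k + 1)))) := fp_coker f g hf hg hfg hNk hN
  have hsim : Sim R (Fin m → N) ((Fin m → Fin (k + 1) → N) × T) :=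
    Sim_ext (f.compLeft (Fin m)) (g.compLeft (Fin m)) (compLeft_inj m f hf)
      (compLeft_surj m g hg) (compLeft_exact m f g hfg)
      (fp_pi (fun _ : Fin m => Fin (k + 1) → N) fun _ => hNk)
      (fp_pi (fun _ : Fin m => Triv (G × FreeGroup (Fin (k + 1)))) fun _ => hTr)
  let e0 : Fin m ⊕ Fin (m * k) ≃ Fin m × Fin (k + 1) := Fintype.equivOfCardEq (by
    rw [Fintype.card_sum, Fintype.card_prod, Fintype.card_fin, Fintype.card_fin, Fintype.card_fin,
      mul_add, mul_one, add_comm])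
  let e1 : (Fin m → Fin (k + 1) → N) ≃ₗ[R] (Fin m → N) × (Fin (m * k) → N) :=
    ((LinearEquiv.curry R N (Fin m) (Fin (k + 1))).symm.trans
      (LinearEquiv.funCongrLeft R N e0)).trans
        (LinearEquiv.sumArrowLequivProdArrow (Fin m) (Fin (m * k)) R N)
  obtain ⟨C, i1, i2, h1, h2, h3⟩ := hsim
  let e2 : ((((Fin m → N) × (Fin (m * k) → N)) × T) × C) ≃ₗ[R]
      (((Fin m → N) × C) × ((Fin (m * k) → N) × T)) :=
    { toFun := fun p => ((p.1.1.1, p.2), (p.1.1.2, p.1.2))
      map_add' := fun _ _ => rfl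
      map_smul' := fun _ _ => rfl
      invFun := fun p => (((p.1.1, p.2.1), p.2.2), p.1.2)
      left_inv := fun _ => rfl
      right_inv := fun _ => rfl }
  let e3 : (((Fin m → Fin (k + 1) → N) × T) × C) ≃ₗ[R]
      ((((Fin m → N) × (Fin (m * k) → N)) × T) × C) :=
    LinearEquiv.prodCongr (LinearEquiv.prodCongr e1 (LinearEquiv.refl R T)) (LinearEquiv.refl R C)
  have h4 : FF R (((Fin m → N) × C) × ((Fin (m * k) → N) × T)) := ff_iso (e3.trans e2) h3
  have h5 : FF R ((Fin (m * k) → N) × T) := ff_right h4 h2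
  have hi : Induced (MonoidHom.inl G (FreeGroup (Fin (k + 1)))) (Fin (m * k) → Triv G)
      (Fin (m * k) → N) := ind_pi _ _ (m * k) (PN_ind G (FreeGroup (Fin (k + 1))))
  rw [freeRes_iff, freeRes_iff]
  constructor
  · intro h6
    have h7 : FF R (Fin (m * k) → N) := ff_left h5 h6
    exact ind_reduce hinj _ _ (desc_ret (MonoidHom.inl G (FreeGroup (Fin (k + 1))))
      (MonoidHom.fst G (FreeGroup (Fin (k + 1)))) fun _ => rfl)
      (fp_pi (fun _ : Fin (m * k) => Triv G) fun _ => fp_of_typeFP G hG) hi h7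
  · intro h6
    have h7 : FF R (Fin (m * k) → N) := ind_ff hinj _ _ hi h6
    exact ff_right h5 h7

end Pool.Agent.Hhelper49.Srf
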