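import Pool.Agent.Hhelper49.Srf.IndA

/-!
# Module IndB: induction preserves (FF), (FP), projective; reduction to projective modules

(1) `ind_ff`: induction on the length `n` of `FFl n M`.
`n = 0`: `M ≃ ℤ[H]^k`; lift (`isInd_lift`) the isomorphism `f : ℤ[H]^k → M` to `F : ℤ[Γ]^k → N`; `F` is bijective by
`isInd_inj`, `isInd_surj` (with `isInd_free`), so `N` is finitely generated and free.
`n + 1`: `f : ℤ[H]^k → M` surjective with kernel of length `n`; the lift `F : ℤ[Γ]^k → N` is surjective and `ker F` is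
induced from `ker f` (`isInd_ker`); use the induction hypothesis.
(2) `ind_proj`: `M` finitely generated projective; there is `f : ℤ[H]^k → M` onto with a section `s : M → ℤ[H]^k`.
Lift `f` to `F` and `e = s ∘ f` to `E : ℤ[Γ]^k → ℤ[Γ]^k` (as `freeI` is the `i` of `isInd_free`).  `E` is idempotent:
`E ∘ E - E` vanishes on `freeI x` for all `x`, hence on the basis.  `ker E` and `ker F` have the same elements: by
`isInd_map`, for `y ∈ ℤ[Γ]^k`: `F y = 0` iff `f (π (act g y)) = 0` for all `g` (`isInd_sep`) iff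
`e (π (act g y)) = 0` for all `g` (`s` injective) iff `E y = 0`.
So `N ≃ ℤ[Γ]^k / ker F = ℤ[Γ]^k / ker E ≃ range E`, a direct summand of `ℤ[Γ]^k`.
(3) `ind_fp`: as (1), with (2) for `n = 0`.
(4) `ind_reduce`: induction on the length `n` of `FPl n M`.  `n = 0`: this is `hd`.  `n + 1`: with `f`, `F` as in (1),
`ker F` is (FF) because `ℤ[Γ]^k` and `N` are (`ff_ker`), so `ker f` is (FF) by induction hypothesis, and `M` is (FF)
by `ff_coker`.
-/

namespace Pool.Agent.Hhelper49.Srf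

open Pool.Agent.Hhelper49.Srr

section
variable {H Γ : Type} [Group H] [Group Γ] {κ : H →* Γ}
variable {M N N' : Type} [AddCommGroup M] [Module (MonoidAlgebra ℤ H) M] [AddCommGroup N]
  [Module (MonoidAlgebra ℤ Γ) N] [AddCommGroup N'] [Module (MonoidAlgebra ℤ Γ) N']

theorem indB_ext {i : M →+ N} {π : N →+ M} (h : IsInd κ i π) (A B : N →ₗ[MonoidAlgebra ℤ Γ] N')
    (hAB : ∀ m, A (i m) = B (i m)) (n : N) : A n = B n := by
  have h1 := h.span n
  induction h1 using AddSubgroup.closure_induction with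
  | mem x hx =>
    obtain ⟨g, m, rfl⟩ := hx
    rw [lin_act, lin_act, hAB]
  | zero => rw [map_zero, map_zero]
  | add x y _ _ hx hy => rw [map_add, map_add, hx, hy]
  | neg x _ hx => rw [map_neg, map_neg, hx]

/-- lift of a presentation -/
theorem indB_lift (hκ : Function.Injective κ) {i : M →+ N} {π : N →+ M} (h : IsInd κ i π) (k : ℕ)
    (f : (Fin k → MonoidAlgebra ℤ H) →ₗ[MonoidAlgebra ℤ H] M) (hf : Function.Surjective f) :
    ∃ F : (Fin k → MonoidAlgebra ℤ Γ) →ₗ[MonoidAlgebra ℤ Γ] N, Function.Surjective F ∧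
      (Function.Injective f → Function.Injective F) ∧
      Induced κ (LinearMap.ker f) (LinearMap.ker F) := by
  obtain ⟨πf, hπ⟩ := isInd_free κ hκ k
  obtain ⟨F, hF⟩ := isInd_lift h k f
  exact ⟨F, isInd_surj hπ h f F hF hf, isInd_inj hπ h f F hF, isInd_ker hπ h f F hF⟩

end

section
variable {H Γ : Type} [Group H] [Group Γ] {κ : H →* Γ} (hκ : Function.Injective κ)
variable (M N : Type) [AddCommGroup M] [Module (MonoidAlgebra ℤ H) M] [AddCommGroup N]
  [Module (MonoidAlgebra ℤ Γ) N]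

include hκ

theorem ind_ff (h : Induced κ M N) (hM : FF (MonoidAlgebra ℤ H) M) : FF (MonoidAlgebra ℤ Γ) N := by
  obtain ⟨n, hn⟩ := hM
  refine ⟨n, ?_⟩
  induction n generalizing M N with
  | zero =>
    obtain ⟨h1, h2⟩ := hn
    set b := (Module.Free.chooseBasis (MonoidAlgebra ℤ H) M).reindex (Fintype.equivFin _) with hb
    obtain ⟨i, π, h⟩ := h
    obtain ⟨F, hF1, hF2, -⟩ := indB_lift hκ h _ (b.equivFun.symm).toLinearMap
      b.equivFun.symm.surjective
    have e := LinearEquiv.ofBijective F ⟨hF2 b.equivFun.symm.injective, hF1⟩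
    exact ⟨Module.Finite.equiv e, Module.Free.of_equiv e⟩
  | succ n ih =>
    obtain ⟨k, f, hf, hk⟩ := hn
    obtain ⟨i, π, h⟩ := h
    obtain ⟨F, hF1, -, hF3⟩ := indB_lift hκ h k f hf
    exact ⟨k, F, hF1, ih _ _ hF3 hk⟩

theorem ind_proj (h : Induced κ M N) (h1 : Module.Finite (MonoidAlgebra ℤ H) M)
    (h2 : Module.Projective (MonoidAlgebra ℤ H) M) :
    Module.Finite (MonoidAlgebra ℤ Γ) N ∧ Module.Projective (MonoidAlgebra ℤ Γ) N := by
  obtain ⟨k, f, hf⟩ := Module.Finite.exists_fin' (MonoidAlgebra ℤ H) M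
  obtain ⟨s, hs⟩ := Module.projective_lifting_property f LinearMap.id hf
  have hs' : ∀ m, f (s m) = m := fun m => LinearMap.congr_fun hs m
  obtain ⟨i, π, h⟩ := h
  obtain ⟨πf, hπ⟩ := isInd_free κ hκ k
  obtain ⟨F, hF⟩ := isInd_lift h k f
  have hFs := isInd_surj hπ h f F hF hf
  obtain ⟨E, hE⟩ := isInd_lift hπ k (s ∘ₗ f)
  -- `F ∘ E = F`
  have hFE : ∀ y, F (E y) = F y := by
    intro y
    refine indB_ext hπ (F ∘ₗ E) F ?_ y
    intro x
    rw [LinearMap.comp_apply, hE, hF, hF, LinearMap.comp_apply, hs']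
  -- `ker F ≤ ker E`
  have hker : LinearMap.ker F ≤ LinearMap.ker E := by
    intro y hy
    rw [LinearMap.mem_ker] at hy ⊢
    refine isInd_sep hπ _ ?_
    intro g
    have h1 : f (πf (act g y)) = 0 := by
      rw [← isInd_map hπ h f F hF, lin_act, hy, act, smul_zero, map_zero]
    rw [← lin_act, isInd_map hπ hπ (s ∘ₗ f) E hE, LinearMap.comp_apply, h1, map_zero]
  set S : N →ₗ[MonoidAlgebra ℤ Γ] (Fin k → MonoidAlgebra ℤ Γ) :=
    ((LinearMap.ker F).liftQ E hker) ∘ₗ (F.quotKerEquivOfSurjective hFs).symm.toLinearMap with hS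
  have hSF : ∀ y, S (F y) = E y := by
    intro y
    have h1 : (F.quotKerEquivOfSurjective hFs).symm (F y) = (LinearMap.ker F).mkQ y := by
      rw [LinearEquiv.symm_apply_eq]
      rfl
    rw [hS, LinearMap.comp_apply]
    change (LinearMap.ker F).liftQ E hker ((F.quotKerEquivOfSurjective hFs).symm (F y)) = E y
    rw [h1]
    rfl
  have hFS : F ∘ₗ S = LinearMap.id := by
    apply LinearMap.ext
    intro n
    obtain ⟨y, rfl⟩ := hFs n
    rw [LinearMap.comp_apply, hSF, hFE]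
    rfl
  exact ⟨Module.Finite.of_surjective F hFs, Module.Projective.of_split S F hFS⟩

theorem ind_fp (h : Induced κ M N) (hM : FP (MonoidAlgebra ℤ H) M) : FP (MonoidAlgebra ℤ Γ) N := by
  obtain ⟨n, hn⟩ := hM
  refine ⟨n, ?_⟩
  induction n generalizing M N with
  | zero =>
    obtain ⟨h1, h2⟩ := hn
    exact ind_proj hκ M N h h1 h2
  | succ n ih =>
    obtain ⟨k, f, hf, hk⟩ := hn
    obtain ⟨i, π, h⟩ := h
    obtain ⟨F, hF1, -, hF3⟩ := indB_lift hκ h k f hf
    exact ⟨k, F, hF1, ih _ _ hF3 hk⟩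

theorem ind_reduce (hd : DescProj κ) (hM : FP (MonoidAlgebra ℤ H) M) (h : Induced κ M N)
    (hN : FF (MonoidAlgebra ℤ Γ) N) : FF (MonoidAlgebra ℤ H) M := by
  obtain ⟨n, hn⟩ := hM
  induction n generalizing M N with
  | zero =>
    obtain ⟨h1, h2⟩ := hn
    exact hd M N h1 h2 h hN
  | succ n ih =>
    obtain ⟨k, f, hf, hk⟩ := hn
    obtain ⟨i, π, h⟩ := h
    obtain ⟨F, hF1, -, hF3⟩ := indB_lift hκ h k f hf
    have h1 : FF (MonoidAlgebra ℤ Γ) (LinearMap.ker F) :=
      ff_ker (LinearMap.ker F).subtype F (Submodule.subtype_injective _) hF1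
        (Submodule.range_subtype _) ⟨0, inferInstance, inferInstance⟩ hN
    obtain ⟨m, hm⟩ := ih _ _ hF3 h1 hk
    exact ⟨m + 1, k, f, hf, hm⟩

end

end Pool.Agent.Hhelper49.Srf
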