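import Pool.Agent.Hhelper49.Srf.Base

/-!
# Module IndC: examples of induced modules

(1) `ind_perm`: `i n = n δ_c`, `c` the coset of `1`, `π` = coefficient at `c`.  `act g (i n) = n δ_(g c)`, and `g c = c` iff
`g ∈ κ.range`.
(2) `ind_prod`, `ind_pi`: componentwise; for `span` use that `n = (n_j)` is the sum of the `single j n_j`, and that the
additive map `single j` maps `act g (i m)` to `act g (i (single j m))`.
(3) `ind_iso`: transport along linear equivalences.
-/

namespace Pool.Agent.Hhelper49.Srf

open Pool.Agent.Hhelper49.Srr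

section
variable {H Γ : Type} [Group H] [Group Γ] (κ : H →* Γ)

/-- the additive map `n ↦ n δ_x` -/
noncomputable def permSingle (Γ : Type) [Group Γ] (X : Type) (x : X) : ℤ →+ PermF Γ X :=
  Finsupp.singleAddHom x

theorem permSingle_apply (Γ : Type) [Group Γ] (X : Type) (x : X) (n : ℤ) :
    permSingle Γ X x n = PermF.single Γ X x n := rfl

theorem smul_one_coset (g : Γ) :
    g • ((1 : Γ) : Γ ⧸ κ.range) = ((1 : Γ) : Γ ⧸ κ.range) ↔ g ∈ κ.range := by
  change ((g * 1 : Γ) : Γ ⧸ κ.range) = ((1 : Γ) : Γ ⧸ κ.range) ↔ _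
  rw [mul_one, QuotientGroup.eq, mul_one, inv_mem_iff]

theorem ind_perm : Induced κ (Triv H) (PermF Γ (Γ ⧸ κ.range)) := by
  classical
  refine ⟨(permSingle Γ (Γ ⧸ κ.range) ((1 : Γ) : Γ ⧸ κ.range) : ℤ →+ _),
    (PermF.coeff ((1 : Γ) : Γ ⧸ κ.range) : _ →+ ℤ), ?_, ?_, ?_, ?_⟩
  · intro h m
    rw [act_triv]
    change PermF.single Γ (Γ ⧸ κ.range) _ m = act (κ h) (PermF.single Γ (Γ ⧸ κ.range) _ m)
    rw [PermF.act_single, (smul_one_coset κ (κ h)).2 ⟨h, rfl⟩]
  · intro n
    induction n using PermF.induction with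
    | h0 => exact AddSubgroup.zero_mem _
    | hadd a b ha hb => exact AddSubgroup.add_mem _ ha hb
    | hs x n =>
      obtain ⟨g, rfl⟩ := QuotientGroup.mk_surjective x
      apply AddSubgroup.subset_closure
      refine ⟨g, (n : ℤ), ?_⟩
      change _ = act g (PermF.single Γ (Γ ⧸ κ.range) _ n)
      rw [PermF.act_single]
      have : g • ((1 : Γ) : Γ ⧸ κ.range) = (g : Γ ⧸ κ.range) := by
        change ((g * 1 : Γ) : Γ ⧸ κ.range) = _
        rw [mul_one]
      rw [this]
  · intro h m
    rw [act_triv]
    change PermF.coeff _ (act (κ h) (PermF.single Γ (Γ ⧸ κ.range) _ m)) = m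
    rw [PermF.act_single, (smul_one_coset κ (κ h)).2 ⟨h, rfl⟩, PermF.coeff_single, if_pos rfl]
  · intro g m hg
    change PermF.coeff _ (act g (PermF.single Γ (Γ ⧸ κ.range) _ m)) = (0 : ℤ)
    rw [PermF.act_single, PermF.coeff_single, if_neg]
    intro h0
    exact hg ((smul_one_coset κ g).1 h0)

variable {κ}
variable (M N M' N' : Type) [AddCommGroup M] [Module (MonoidAlgebra ℤ H) M] [AddCommGroup N]
  [Module (MonoidAlgebra ℤ Γ) N] [AddCommGroup M'] [Module (MonoidAlgebra ℤ H) M']
  [AddCommGroup N'] [Module (MonoidAlgebra ℤ Γ) N']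

theorem act_zero' {G A : Type} [Group G] [AddCommGroup A] [Module (MonoidAlgebra ℤ G) A] (g : G) :
    act g (0 : A) = 0 := smul_zero _

theorem ind_prod (h : Induced κ M N) (h' : Induced κ M' N') : Induced κ (M × M') (N × N') := by
  obtain ⟨i, π, h1, h2, h3, h4⟩ := h
  obtain ⟨i', π', h1', h2', h3', h4'⟩ := h'
  refine ⟨i.prodMap i', π.prodMap π', ?_, ?_, ?_, ?_⟩
  · rintro g ⟨m, m'⟩
    exact Prod.ext (h1 g m) (h1' g m')
  · rintro ⟨n, n'⟩
    have hl : ∀ n : N, ((n, 0) : N × N') ∈ AddSubgroup.closure
        {x : N × N' | ∃ (g : Γ) (m : M × M'), x = act g ((i.prodMap i') m)} := by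
      intro n
      have := h2 n
      induction this using AddSubgroup.closure_induction with
      | mem x hx =>
        obtain ⟨g, m, rfl⟩ := hx
        apply AddSubgroup.subset_closure
        refine ⟨g, (m, 0), ?_⟩
        refine Prod.ext rfl ?_
        change (0 : N') = act g (i' 0)
        rw [map_zero, act_zero']
      | zero => exact AddSubgroup.zero_mem _
      | add x y _ _ hx hy =>
        have := AddSubgroup.add_mem _ hx hy
        rwa [Prod.mk_add_mk, add_zero] at this
      | neg x _ hx =>
        have := AddSubgroup.neg_mem _ hx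
        rwa [Prod.neg_mk, neg_zero] at this
    have hr : ∀ n' : N', ((0, n') : N × N') ∈ AddSubgroup.closure
        {x : N × N' | ∃ (g : Γ) (m : M × M'), x = act g ((i.prodMap i') m)} := by
      intro n'
      have := h2' n'
      induction this using AddSubgroup.closure_induction with
      | mem x hx =>
        obtain ⟨g, m, rfl⟩ := hx
        apply AddSubgroup.subset_closure
        refine ⟨g, (0, m), ?_⟩
        refine Prod.ext ?_ rfl
        change (0 : N) = act g (i 0)
        rw [map_zero, act_zero']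
      | zero => exact AddSubgroup.zero_mem _
      | add x y _ _ hx hy =>
        have := AddSubgroup.add_mem _ hx hy
        rwa [Prod.mk_add_mk, add_zero] at this
      | neg x _ hx =>
        have := AddSubgroup.neg_mem _ hx
        rwa [Prod.neg_mk, neg_zero] at this
    have := AddSubgroup.add_mem _ (hl n) (hr n')
    rwa [Prod.mk_add_mk, add_zero, zero_add] at this
  · rintro g ⟨m, m'⟩
    exact Prod.ext (h3 g m) (h3' g m')
  · rintro g ⟨m, m'⟩ hg
    exact Prod.ext (h4 g m hg) (h4' g m' hg)

theorem ind_pi (m : ℕ) (h : Induced κ M N) : Induced κ (Fin m → M) (Fin m → N) := by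
  classical
  obtain ⟨i, π, h1, h2, h3, h4⟩ := h
  refine ⟨i.compLeft (Fin m), π.compLeft (Fin m), ?_, ?_, ?_, ?_⟩
  · intro g v
    funext j
    exact h1 g (v j)
  · intro v
    have hs : ∀ (j : Fin m) (n : N), (Pi.single j n : Fin m → N) ∈ AddSubgroup.closure
        {x : Fin m → N | ∃ (g : Γ) (v : Fin m → M), x = act g ((i.compLeft (Fin m)) v)} := by
      intro j n
      have := h2 n
      induction this using AddSubgroup.closure_induction with
      | mem x hx =>
        obtain ⟨g, m', rfl⟩ := hx
        apply AddSubgroup.subset_closure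
        refine ⟨g, Pi.single j m', ?_⟩
        funext k
        change (Pi.single j (act g (i m')) : Fin m → N) k =
          act g (i ((Pi.single j m' : Fin m → M) k))
        by_cases hk : k = j
        · subst hk
          rw [Pi.single_eq_same, Pi.single_eq_same]
        · rw [Pi.single_eq_of_ne hk, Pi.single_eq_of_ne hk, map_zero, act_zero']
      | zero =>
        rw [Pi.single_zero]
        exact AddSubgroup.zero_mem _
      | add x y _ _ hx hy =>
        rw [Pi.single_add]
        exact AddSubgroup.add_mem _ hx hy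
      | neg x _ hx =>
        rw [Pi.single_neg]
        exact AddSubgroup.neg_mem _ hx
    rw [← Finset.univ_sum_single v]
    exact AddSubgroup.sum_mem _ fun j _ => hs j (v j)
  · intro g v
    funext j
    exact h3 g (v j)
  · intro g v hg
    funext j
    exact h4 g (v j) hg

theorem ind_iso (h : Induced κ M N) (e : M ≃ₗ[MonoidAlgebra ℤ H] M')
    (e' : N ≃ₗ[MonoidAlgebra ℤ Γ] N') : Induced κ M' N' := by
  obtain ⟨i, π, h1, h2, h3, h4⟩ := h
  refine ⟨(e'.toLinearMap.toAddMonoidHom.comp i).comp e.symm.toLinearMap.toAddMonoidHom,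
    (e.toLinearMap.toAddMonoidHom.comp π).comp e'.symm.toLinearMap.toAddMonoidHom, ?_, ?_, ?_, ?_⟩
  · intro g m
    change e' (i (e.symm (act g m))) = act (κ g) (e' (i (e.symm m)))
    have : e.symm (act g m) = act g (e.symm m) :=
      lin_act (e.symm : M' →ₗ[MonoidAlgebra ℤ H] M) g m
    rw [this, h1]
    exact lin_act (e' : N →ₗ[MonoidAlgebra ℤ Γ] N') (κ g) (i (e.symm m))
  · intro n
    have key : ∀ x : N, e' x ∈ AddSubgroup.closure {x : N' | ∃ (g : Γ) (m : M'),
        x = act g (((e'.toLinearMap.toAddMonoidHom.comp i).comp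
          e.symm.toLinearMap.toAddMonoidHom) m)} := by
      intro x
      have := h2 x
      induction this using AddSubgroup.closure_induction with
      | mem x hx =>
        obtain ⟨g, m, rfl⟩ := hx
        apply AddSubgroup.subset_closure
        refine ⟨g, e m, ?_⟩
        change e' (act g (i m)) = act g (e' (i (e.symm (e m))))
        rw [LinearEquiv.symm_apply_apply]
        exact lin_act (e' : N →ₗ[MonoidAlgebra ℤ Γ] N') g (i m)
      | zero =>
        rw [map_zero]
        exact AddSubgroup.zero_mem _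
      | add x y _ _ hx hy =>
        rw [map_add]
        exact AddSubgroup.add_mem _ hx hy
      | neg x _ hx =>
        rw [map_neg]
        exact AddSubgroup.neg_mem _ hx
    have := key (e'.symm n)
    rwa [LinearEquiv.apply_symm_apply] at this
  · intro g m
    change e (π (e'.symm (act (κ g) (e' (i (e.symm m)))))) = act g m
    have h5 : e'.symm (act (κ g) (e' (i (e.symm m)))) = act (κ g) (i (e.symm m)) := by
      rw [LinearEquiv.symm_apply_eq]
      exact (lin_act (e' : N →ₗ[MonoidAlgebra ℤ Γ] N') (κ g) (i (e.symm m))).symm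
    rw [h5, h3]
    have h6 : e (act g (e.symm m)) = act g (e (e.symm m)) :=
      lin_act (e : M →ₗ[MonoidAlgebra ℤ H] M') g (e.symm m)
    rw [h6, LinearEquiv.apply_symm_apply]
  · intro g m hg
    change e (π (e'.symm (act g (e' (i (e.symm m)))))) = 0
    have h5 : e'.symm (act g (e' (i (e.symm m)))) = act g (i (e.symm m)) := by
      rw [LinearEquiv.symm_apply_eq]
      exact (lin_act (e' : N →ₗ[MonoidAlgebra ℤ Γ] N') g (i (e.symm m))).symm
    rw [h5, h4 g _ hg, map_zero]

end

end Pool.Agent.Hhelper49.Srf
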