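import Pool.Agent.Hhelper49.Srf.IndA

/-!
# Module InjQ: parts of an induced module

`IsInd α i π`, `Q` induced from `P`, `α : A →* Γ`.  For `x : Q` and `g : Γ` the component of `x` at the coset `g α(A)` is
`π (act g⁻¹ x)`.  For a set `X ⊆ Γ` with `X α(A) = X`, `part X` is the set of `x` with vanishing components at all
`g ∉ X`.
(a) `act g (i m) ∈ part X` for `g ∈ X`: the component at `g'` vanishes unless `g'⁻¹ g ∈ α(A)`, and then
`g' = g (g'⁻¹ g)⁻¹ ∈ X`.
(b) `x ∈ part X ⇒ act γ x ∈ part (γ X)`.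
(c) by `isInd_expand`, `x = ∑_{c ∈ T} act (out c) (i (π (act (out c)⁻¹ x)))`; if `x ∈ part X` only the terms with
`out c ∈ X` are different from `0`.
(d) decomposition: split the sum in (c) according to `out c ∈ X` or not.
(e) `part X ∩ part X' = 0` if `X`, `X'` are disjoint (`isInd_sep`).
-/

set_option linter.unusedSectionVars false

namespace Pool.Agent.Hhelper49.Srf

open Pool.Agent.Hhelper49.Srr

section
variable {A Γ : Type} [Group A] [Group Γ] {α : A →* Γ}
variable {P Q : Type} [AddCommGroup P] [Module (MonoidAlgebra ℤ A) P] [AddCommGroup Q]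
  [Module (MonoidAlgebra ℤ Γ) Q]

/-- the elements with components in `X` only -/
noncomputable def part (π : Q →+ P) (X : Set Γ) : AddSubgroup Q where
  carrier := {x | ∀ g : Γ, g ∉ X → π (act g⁻¹ x) = 0}
  zero_mem' := by
    intro g _
    rw [act, smul_zero, map_zero]
  add_mem' := by
    intro x y hx hy g hg
    have h1 := hx g hg
    have h2 := hy g hg
    rw [act, smul_add, map_add]
    change π (act g⁻¹ x) + π (act g⁻¹ y) = 0
    rw [h1, h2, add_zero]
  neg_mem' := by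
    intro x hx g hg
    have h1 := hx g hg
    rw [act, smul_neg, map_neg]
    change - π (act g⁻¹ x) = 0
    rw [h1, neg_zero]

variable {i : P →+ Q} {π : Q →+ P}

theorem mem_part (X : Set Γ) (x : Q) :
    x ∈ part π X ↔ ∀ g : Γ, g ∉ X → π (act g⁻¹ x) = 0 := Iff.rfl

theorem part_mono {X X' : Set Γ} (h : X ⊆ X') : part π X ≤ part π X' :=
  fun _ hx g hg => hx g fun h1 => hg (h h1)

theorem act_mem_part (γ : Γ) (X X' : Set Γ) (hX : ∀ g ∈ X, γ * g ∈ X') (x : Q)
    (hx : x ∈ part π X) : act γ x ∈ part π X' := by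
  intro g hg
  have h1 : γ⁻¹ * g ∉ X := by
    intro h2
    apply hg
    have h3 := hX _ h2
    rwa [mul_inv_cancel_left] at h3
  have h2 := hx (γ⁻¹ * g) h1
  rw [mul_inv_rev, inv_inv] at h2
  rw [← act_mul]
  exact h2

theorem gen_mem_part (h : IsInd α i π) (X : Set Γ) (hX : ∀ g ∈ X, ∀ a : A, g * α a ∈ X) (g : Γ)
    (hg : g ∈ X) (m : P) : act g (i m) ∈ part π X := by
  intro g' hg'
  rw [← act_mul]
  apply h.projz
  rintro ⟨a, ha⟩
  apply hg'
  have h1 : g' = g * α a⁻¹ := by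
    rw [map_inv, ha]
    group
  rw [h1]
  exact hX g hg a⁻¹

theorem part_span (h : IsInd α i π) (X : Set Γ) (hX : ∀ g ∈ X, ∀ a : A, g * α a ∈ X) (x : Q)
    (hx : x ∈ part π X) : x ∈ AddSubgroup.closure {y : Q | ∃ g ∈ X, ∃ m : P, y = act g (i m)} := by
  obtain ⟨T, _, hT⟩ := isInd_expand h x
  rw [hT]
  apply AddSubgroup.sum_mem
  intro c _
  by_cases hc : (Quotient.out c : Γ) ∈ X
  · exact AddSubgroup.subset_closure ⟨_, hc, _, rfl⟩
  · rw [hx _ hc, map_zero, act, smul_zero]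
    exact AddSubgroup.zero_mem _

theorem part_disj (h : IsInd α i π) (X X' : Set Γ) (hXX : ∀ g ∈ X, g ∉ X') (x : Q)
    (h1 : x ∈ part π X) (h2 : x ∈ part π X') : x = 0 := by
  apply isInd_sep h
  intro g
  by_cases hg : g⁻¹ ∈ X
  · have h3 := h2 g⁻¹ (hXX _ hg)
    rwa [inv_inv] at h3
  · have h3 := h1 g⁻¹ hg
    rwa [inv_inv] at h3

theorem part_decomp (h : IsInd α i π) (X : Set Γ) (hX : ∀ g ∈ X, ∀ a : A, g * α a ∈ X) (x : Q) :
    ∃ y : Q, y ∈ part π X ∧ x - y ∈ part π Xᶜ := by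
  classical
  have hXc : ∀ g ∈ Xᶜ, ∀ a : A, g * α a ∈ Xᶜ := by
    intro g hg a h1
    apply hg
    have h2 := hX _ h1 a⁻¹
    rwa [map_inv, mul_inv_cancel_right] at h2
  obtain ⟨T, _, hT⟩ := isInd_expand h x
  refine ⟨∑ c ∈ T.filter fun c => (Quotient.out c : Γ) ∈ X,
    act (Quotient.out c) (i (π (act (Quotient.out c)⁻¹ x))), ?_, ?_⟩
  · apply AddSubgroup.sum_mem
    intro c hc
    exact gen_mem_part h X hX _ (Finset.mem_filter.1 hc).2 _
  · have h1 := Finset.sum_filter_add_sum_filter_not T (fun c => (Quotient.out c : Γ) ∈ X)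
      (fun c => act (Quotient.out c) (i (π (act (Quotient.out c)⁻¹ x))))
    rw [← hT] at h1
    have h2 : x - ∑ c ∈ T.filter fun c => (Quotient.out c : Γ) ∈ X,
        act (Quotient.out c) (i (π (act (Quotient.out c)⁻¹ x))) =
        ∑ c ∈ T.filter fun c => ¬ (Quotient.out c : Γ) ∈ X,
          act (Quotient.out c) (i (π (act (Quotient.out c)⁻¹ x))) := by
      rw [sub_eq_iff_eq_add, add_comm]
      exact h1.symm
    rw [h2]
    apply AddSubgroup.sum_mem
    intro c hc
    exact gen_mem_part h Xᶜ hXc _ (Finset.mem_filter.1 hc).2 _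

theorem part_uniq (h : IsInd α i π) (X : Set Γ) (x y z : Q) (hy : y ∈ part π X)
    (hy' : x - y ∈ part π Xᶜ) (hz : z ∈ part π X) (hz' : x - z ∈ part π Xᶜ) : y = z := by
  rw [← sub_eq_zero]
  refine part_disj h X Xᶜ (fun g hg h1 => h1 hg) _ (AddSubgroup.sub_mem _ hy hz) ?_
  have e : y - z = (x - z) - (x - y) := by abel
  rw [e]
  exact AddSubgroup.sub_mem _ hz' hy'

/-- the projection to the part over `X` -/
theorem exists_proj (h : IsInd α i π) (X : Set Γ) (hX : ∀ g ∈ X, ∀ a : A, g * α a ∈ X) :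
    ∃ p : Q →+ Q, (∀ x, p x ∈ part π X) ∧ (∀ x, x - p x ∈ part π Xᶜ) ∧
      (∀ x ∈ part π X, p x = x) ∧ (∀ x ∈ part π Xᶜ, p x = 0) := by
  choose f hf1 hf2 using part_decomp h X hX
  have hu : ∀ x y : Q, y ∈ part π X → x - y ∈ part π Xᶜ → f x = y := fun x y h1 h2 =>
    part_uniq h X x (f x) y (hf1 x) (hf2 x) h1 h2
  refine ⟨{ toFun := f, map_zero' := ?_, map_add' := ?_ }, hf1, hf2, ?_, ?_⟩
  · apply hu
    · exact AddSubgroup.zero_mem _
    · rw [sub_zero]
      exact AddSubgroup.zero_mem _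
  · intro x y
    apply hu
    · exact AddSubgroup.add_mem _ (hf1 x) (hf1 y)
    · rw [add_sub_add_comm]
      exact AddSubgroup.add_mem _ (hf2 x) (hf2 y)
  · intro x hx
    apply hu x x hx
    rw [sub_self]
    exact AddSubgroup.zero_mem _
  · intro x hx
    apply hu x 0 (AddSubgroup.zero_mem _)
    rw [sub_zero]
    exact hx

end

end Pool.Agent.Hhelper49.Srf
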