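import Pool.Agent.Hhelper49.Srr.Calc

/-!
# Module Stab: projective modules with finite free resolutions are stably free

Induction on the length `n` of `FFl R n Q`, `Q` projective.  `n = 0`: `Q` is finitely generated and free, so
`Q ≃ R^b`.  `n + 1`: `f : R^k → Q` surjective with kernel `K` of length `n`; `Q` is projective, so `R^k ≃ K × Q`
and `K` is projective; by induction `K × R^a ≃ R^b`, so `Q × R^b ≃ Q × K × R^a ≃ R^k × R^a ≃ R^(k+a)`.
-/

namespace Pool.Agent.Hhelper49.Srf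

open Pool.Agent.Hhelper49.Srr

theorem stab_aux {R : Type} [Ring R] (n : ℕ) : ∀ (Q : Type) [AddCommGroup Q] [Module R Q],
    Module.Projective R Q → FFl R n Q →
    ∃ a b : ℕ, Nonempty ((Q × (Fin a → R)) ≃ₗ[R] (Fin b → R)) := by
  induction n with
  | zero =>
    intro Q _ _ _ h
    obtain ⟨h1, h2⟩ := h
    obtain ⟨b, ⟨e⟩⟩ : ∃ b : ℕ, Nonempty (Q ≃ₗ[R] (Fin b → R)) :=
      ⟨_, ⟨((Module.Free.chooseBasis R Q).reindex (Fintype.equivFin _)).equivFun⟩⟩
    exact ⟨0, b, ⟨(LinearEquiv.prodUnique (R := R) (M := Q) (M₂ := Fin 0 → R)).trans e⟩⟩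
  | succ n ih =>
    intro Q _ _ hQ h
    obtain ⟨k, f, hf, hK⟩ := h
    obtain ⟨e⟩ := ff_exists_split (LinearMap.ker f).subtype f (Submodule.subtype_injective _) hf
      (Submodule.range_subtype _) hQ
    have hKp : Module.Projective R (LinearMap.ker f) := by
      refine Module.Projective.of_split
        (e.symm.toLinearMap.comp (LinearMap.inl R (LinearMap.ker f) Q))
        ((LinearMap.fst R (LinearMap.ker f) Q).comp e.toLinearMap) ?_
      apply LinearMap.ext
      intro x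
      simp
    obtain ⟨a, b, ⟨e1⟩⟩ := ih (LinearMap.ker f) hKp hK
    let e2 : (Fin (k + a) → R) ≃ₗ[R] ((Fin k → R) × (Fin a → R)) :=
      (LinearEquiv.funCongrLeft R R finSumFinEquiv).trans
        (LinearEquiv.sumArrowLequivProdArrow (Fin k) (Fin a) R R)
    let e3 : (Q × (Fin b → R)) ≃ₗ[R] (Q × (LinearMap.ker f × (Fin a → R))) :=
      LinearEquiv.prodCongr (LinearEquiv.refl R Q) e1.symm
    let e4 : (Q × (LinearMap.ker f × (Fin a → R))) ≃ₗ[R] ((Q × LinearMap.ker f) × (Fin a → R)) :=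
      (LinearEquiv.prodAssoc R Q (LinearMap.ker f) (Fin a → R)).symm
    let e5 : ((Q × LinearMap.ker f) × (Fin a → R)) ≃ₗ[R] ((Fin k → R) × (Fin a → R)) :=
      LinearEquiv.prodCongr ((LinearEquiv.prodComm R Q (LinearMap.ker f)).trans e.symm)
        (LinearEquiv.refl R (Fin a → R))
    exact ⟨b, k + a, ⟨((e3.trans e4).trans e5).trans e2.symm⟩⟩

theorem stablyFree_of_ff {R : Type} [Ring R] (Q : Type) [AddCommGroup Q] [Module R Q]
    (hQ : Module.Projective R Q) (h : FF R Q) :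
    ∃ a b : ℕ, Nonempty ((Q × (Fin a → R)) ≃ₗ[R] (Fin b → R)) := by
  obtain ⟨n, hn⟩ := h
  exact stab_aux n Q hQ hn

end Pool.Agent.Hhelper49.Srf
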