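import Pool.Agent.Hhelper49.Srf.InjF
import Pool.Agent.Hhelper49.Srf.InjQ
import Pool.Agent.Hhelper49.Srf.Stab
import Pool.Agent.Hhelper49.Srf.IndB
import Pool.Agent.Hhelper49.Srf.IndC

/-!
# Module Inj: descent of freeness from an amalgam to a factor

`inj_core`: `HalfSpace α κ S`, `α : A →* Γ`, `κ : C →* A`, all finitely generated projective `ℤ[C]`-modules are (FF), `P` is
a finitely generated `ℤ[A]`-module, `Q` is induced from `P` (`IsInd α i π`) and `φ : Q ≃ F = ℤ[Γ]^b` over `ℤ[Γ]`.  Then `P` is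
(FF).  Write `F_Y` for the elements of `F` supported in `Y ⊆ Γ` and `Q_X = part π X`.

Let `e_j` be the standard basis of `F`, `p_l` finitely many generators of `P`.  Choose a finite set `K ⊆ Γ`, `1 ∈ K`, such that
(K1) `φ⁻¹ e_j ∈ Q_(K α(A))` for all `j` (`isInd_expand`), (K2) `φ (i p_l) ∈ F_K` for all `l`.
`Y = {g : g K ⊆ S}`; `Y ⊆ S`, `C Y = Y` (`smulC`).
(1) `D = φ⁻¹(F_Y) ⊆ Q_S`: `F_Y` is additively generated by the `act g e_j`, `g ∈ Y`, and
`φ⁻¹ (act g e_j) = act g (φ⁻¹ e_j) ∈ Q_(g K α(A)) ⊆ Q_S` (`act_mem_part`, `mulA`).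
(2) `A Y = {α a * y}`; `W = φ⁻¹(F_(AY))` is a `ℤ[A]`-submodule of `Pull α Q`.  `Γ ∖ AY` is contained in a finite union of sets
`α(A) x`: by `cover` and `S ∖ Y = ⋃_{k ∈ K} {g ∈ S : g k ∉ S} ⊆ ⋃_k C X_k` (`ai`).  So `Q / W ≃ F / F_(AY)` is (FF) over `ℤ[A]`
(`supp_quot_ff`).
(3) `AS = {α a * s}` is the complement of `α(A)` (`cover`; `α a s ∈ α(A)` is impossible by `notA`).  `Q = Q_(α A) ⊕ Q_(AS)` as
`ℤ[A]`-modules, `Q_(α A) ≃ P` (by `i` and `π`), and `W ⊆ Q_(AS)` (`W` is additively generated by the `act (α a) x`, `x ∈ D`,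
by splitting the support).  So `Q / W ≃ P × V`, `V = Q_(AS) / W`.  It remains to show that `V` is (FF) (`ff_left`).
(4) `U = Q_S / D`, a `ℤ[C]`-module (inside `Pull (α.comp κ) Q`).  `V` is induced from `U` (`Induced κ U V`): `i` is given by
the inclusions `Q_S ⊆ Q_(AS)`, `D ⊆ W`; `π` by the projection `p` to `Q_S` (`exists_proj`), which maps `W` to `D`:
on `act (α a) x`, `x ∈ D ⊆ Q_S`: if `a = κ c` this is in `D`; if `a ∉ κ.range` then `act (α a) x ∈ Q_(aS)` and `aS ∩ S = ∅`
(`pp`), so `p` is zero on it.  `span`: `Q_(AS)` is generated by `act (α a * s) (i m) = act (α a) (act s (i m))`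
(`part_span`, `gen_mem_part`).  `projz`: as before.
(5) `U` is projective: `Q_S / D` is a direct summand of `Q / D ≃ F / F_Y` over `ℤ[C]` (projection `p`, which is
`C`-equivariant since `C S = S`), which is projective (`supp_quot_proj`).
(6) `U` is finitely generated: `Q_S` is additively generated by `act s (i m)`, `s ∈ S`, so by the `act s (i p_l)`, `s ∈ S`
(`act s (i (act a p_l)) = act (s * α a) (i p_l)`, `mulA`).  If `s K ⊆ Y` then `φ (act s (i p_l)) ∈ F_(s K) ⊆ F_Y`, so the class is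
zero.  The other `s ∈ S`: `s k ∉ Y`, `s k k' ∉ S` for some `k, k' ∈ K`; by `ai` they are in finitely many sets `C x`
(replace `x` by elements of `S` of the form `c x`), so finitely many `act s (i p_l)` generate `U` over `ℤ[C]`.
(7) `U` is (FF) by `ProjFF C`, `V` is (FF) by `ind_ff`, `P` is (FF) by `ff_left` (from `Q / W ≃ P × V`).

`desc_half`: `P` finitely generated projective, `Q` induced from `P` and (FF).  `Q` is projective (`ind_proj`), so
`Q × ℤ[Γ]^a ≃ ℤ[Γ]^b` (`stablyFree_of_ff`); this is induced from `P × ℤ[A]^a` (`ind_prod`, `isInd_free`), so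
`P × ℤ[A]^a` is (FF) by `inj_core` and `P` by `ff_left`.
-/

set_option linter.unusedSectionVars false

namespace Pool.Agent.Hhelper49.Srf

open Pool.Agent.Hhelper49.Srr

section
variable {H Γ T T' : Type} [Group H] [Group Γ] [AddCommGroup T] [Module (MonoidAlgebra ℤ Γ) T]
  [AddCommGroup T'] [Module (MonoidAlgebra ℤ Γ) T']

/-- a linear map over `ℤ[Γ]` is linear over `ℤ[H]` -/
noncomputable def pullLin (κ : H →* Γ) (f : T →ₗ[MonoidAlgebra ℤ Γ] T') :
    Pull κ T →ₗ[MonoidAlgebra ℤ H] Pull κ T' :=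
  mkLin
    { toFun := fun t => Pull.mk κ (f t.un)
      map_zero' := map_zero f
      map_add' := fun s t => map_add f s.un t.un }
    (by
      intro h t
      change f (act h t).un = (act h (Pull.mk κ (f t.un))).un
      rw [Pull.act_apply, Pull.act_apply, lin_act]
      rfl)

/-- additive maps on a quotient module -/
noncomputable def qlift {R M N : Type} [Ring R] [AddCommGroup M] [Module R M] [AddCommGroup N]
    (D : Submodule R M) (f : M →+ N) (h : ∀ x ∈ D, f x = 0) : (M ⧸ D) →+ N where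
  toFun := Quotient.lift (fun x => f x) (by
    intro a b hab
    have h1 : -a + b ∈ D := QuotientAddGroup.leftRel_apply.1 hab
    have h2 := h _ h1
    rw [map_add, map_neg] at h2
    change f a = f b
    rw [eq_comm, ← sub_eq_zero, sub_eq_add_neg, add_comm]
    exact h2)
  map_zero' := map_zero f
  map_add' := by
    rintro ⟨x⟩ ⟨y⟩
    exact map_add f x y

theorem qlift_mk {R M N : Type} [Ring R] [AddCommGroup M] [Module R M] [AddCommGroup N]
    (D : Submodule R M) (f : M →+ N) (h : ∀ x ∈ D, f x = 0) (x : M) :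
    qlift D f h (D.mkQ x) = f x := rfl

end

section
variable {A C Γ : Type} [Group A] [Group C] [Group Γ] {α : A →* Γ} {κ : C →* A} {S : Set Γ}

/-- the formal part of the argument -/
theorem core_ff (hs : HalfSpace α κ S) (hC : ProjFF C) (P Q : Type) [AddCommGroup P]
    [Module (MonoidAlgebra ℤ A) P] [AddCommGroup Q] [Module (MonoidAlgebra ℤ Γ) Q]
    {i : P →+ Q} {π : Q →+ P} (hI : IsInd α i π)
    (D : Submodule (MonoidAlgebra ℤ C) (Pull (α.comp κ) Q))
    (W : Submodule (MonoidAlgebra ℤ A) (Pull α Q))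
    (hDW : ∀ x : Q, Pull.mk (α.comp κ) x ∈ D → Pull.mk α x ∈ W)
    (hDS : ∀ x : Q, Pull.mk (α.comp κ) x ∈ D → x ∈ part π S)
    (hWD : ∀ x : Q, Pull.mk α x ∈ W → x ∈ AddSubgroup.closure
      {y : Q | ∃ (a : A) (d : Q), Pull.mk (α.comp κ) d ∈ D ∧ y = act (α a) d})
    (hproj : Module.Projective (MonoidAlgebra ℤ C) (Pull (α.comp κ) Q ⧸ D))
    (hff : FF (MonoidAlgebra ℤ A) (Pull α Q ⧸ W))
    (G : Set (Pull (α.comp κ) Q ⧸ D)) (hG : G.Finite)
    (hGS : ∀ x ∈ part π S, D.mkQ (Pull.mk (α.comp κ) x) ∈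
      Submodule.span (MonoidAlgebra ℤ C) G) : FF (MonoidAlgebra ℤ A) P := by
  obtain ⟨p, hp1, hp2, hp3, hp4⟩ := exists_proj hI S hs.mulA
  have h1S : (1 : Γ) ∉ S := by
    have h1 := hs.notA 1
    rwa [map_one] at h1
  -- `p` is equivariant over `C`
  have hpC : ∀ (c : C) (x : Q), p (act (α (κ c)) x) = act (α (κ c)) (p x) := by
    intro c x
    have e1 : act (α (κ c)) x = act (α (κ c)) (p x) + act (α (κ c)) (x - p x) := by
      rw [act, act, act, ← smul_add, add_sub_cancel]
    have h1 : act (α (κ c)) (p x) ∈ part π S := act_mem_part _ S S (hs.smulC c) _ (hp1 x)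
    have h2 : act (α (κ c)) (x - p x) ∈ part π Sᶜ := by
      refine act_mem_part _ Sᶜ Sᶜ ?_ _ (hp2 x)
      intro g hg h3
      apply hg
      have h4 := hs.smulC c⁻¹ _ h3
      rwa [map_inv, map_inv, inv_mul_cancel_left] at h4
    rw [e1, map_add, hp3 _ h1, hp4 _ h2, add_zero]
  let pC : Pull (α.comp κ) Q →ₗ[MonoidAlgebra ℤ C] Pull (α.comp κ) Q :=
    mkLin
      { toFun := fun x => Pull.mk (α.comp κ) (p x.un)
        map_zero' := map_zero p
        map_add' := fun x y => map_add p x.un y.un }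
      (by
        intro c x
        change p (act c x).un = (act c (Pull.mk (α.comp κ) (p x.un))).un
        rw [Pull.act_apply, Pull.act_apply]
        exact hpC c x.un)
  have hpCun : ∀ x : Pull (α.comp κ) Q, pC x = Pull.mk (α.comp κ) (p x.un) := fun x => rfl
  have hpD : D ≤ D.comap pC := by
    intro x hx
    rw [Submodule.mem_comap, hpCun, hp3 _ (hDS x.un hx)]
    exact hx
  let pb : (Pull (α.comp κ) Q ⧸ D) →ₗ[MonoidAlgebra ℤ C] (Pull (α.comp κ) Q ⧸ D) :=
    D.mapQ D pC hpD
  have hpb : ∀ x : Pull (α.comp κ) Q, pb (D.mkQ x) = D.mkQ (Pull.mk (α.comp κ) (p x.un)) :=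
    fun x => rfl
  have hidem : ∀ m, pb (pb m) = pb m := by
    intro m
    obtain ⟨x, rfl⟩ := D.mkQ_surjective m
    rw [hpb, hpb, Pull.un_mk, hp3 _ (hp1 _)]
  -- representatives of the elements of the range
  have hrep : ∀ u : LinearMap.range pb, ∃ y : Q, y ∈ part π S ∧
      (u : Pull (α.comp κ) Q ⧸ D) = D.mkQ (Pull.mk (α.comp κ) y) := by
    rintro ⟨u, m, rfl⟩
    obtain ⟨x, rfl⟩ := D.mkQ_surjective m
    exact ⟨p x.un, hp1 _, rfl⟩
  have hmem : ∀ y ∈ part π S, D.mkQ (Pull.mk (α.comp κ) y) ∈ LinearMap.range pb := by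
    intro y hy
    refine ⟨D.mkQ (Pull.mk (α.comp κ) y), ?_⟩
    rw [hpb, Pull.un_mk, hp3 _ hy]
  -- `U` is projective
  have hUproj : Module.Projective (MonoidAlgebra ℤ C) (LinearMap.range pb) := by
    refine Module.Projective.of_split (LinearMap.range pb).subtype pb.rangeRestrict ?_
    apply LinearMap.ext
    rintro ⟨u, m, rfl⟩
    exact Subtype.ext (hidem m)
  -- `U` is finitely generated
  have hUfin : Module.Finite (MonoidAlgebra ℤ C) (LinearMap.range pb) := by
    rw [Module.Finite.iff_fg]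
    have e : LinearMap.range pb = (Submodule.span (MonoidAlgebra ℤ C) G).map pb := by
      apply le_antisymm
      · intro u hu
        obtain ⟨y, hy, hy2⟩ := hrep ⟨u, hu⟩
        obtain ⟨m, rfl⟩ := hu
        refine ⟨pb m, ?_, hidem m⟩
        have hy3 : pb m = D.mkQ (Pull.mk (α.comp κ) y) := hy2
        rw [SetLike.mem_coe, hy3]
        exact hGS y hy
      · rintro _ ⟨m, _, rfl⟩
        exact ⟨m, rfl⟩
    rw [e]
    exact (Submodule.fg_span hG).map pb
  have hUff : FF (MonoidAlgebra ℤ C) (LinearMap.range pb) := hC _ hUfin hUproj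
  -- the projection to `P`
  let πA : Pull α Q →ₗ[MonoidAlgebra ℤ A] P :=
    mkLin
      { toFun := fun x => π x.un
        map_zero' := map_zero π
        map_add' := fun x y => map_add π x.un y.un }
      (by
        intro a x
        change π (act a x).un = act a (π x.un)
        rw [Pull.act_apply, isInd_equi hI])
  have hSπ : ∀ x ∈ part π S, π x = 0 := by
    intro x hx
    have h1 := hx 1 h1S
    rwa [inv_one, act_one] at h1
  have hWπ : W ≤ LinearMap.ker πA := by
    intro x hx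
    change π x.un = 0
    have key : ∀ y : Q, y ∈ AddSubgroup.closure
        {y : Q | ∃ (a : A) (d : Q), Pull.mk (α.comp κ) d ∈ D ∧ y = act (α a) d} → π y = 0 := by
      intro y h1
      induction h1 using AddSubgroup.closure_induction with
      | mem y hy =>
        obtain ⟨a, d, hd, rfl⟩ := hy
        rw [isInd_equi hI, hSπ d (hDS d hd), act, smul_zero]
      | zero => exact map_zero π
      | add y z _ _ hy hz => rw [map_add, hy, hz, add_zero]
      | neg y _ hy => rw [map_neg, hy, neg_zero]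
    exact key x.un (hWD x.un hx)
  have hWp : ∀ x : Q, Pull.mk α x ∈ W → Pull.mk (α.comp κ) (p x) ∈ D := by
    intro x hx
    have key : ∀ y : Q, y ∈ AddSubgroup.closure
        {y : Q | ∃ (a : A) (d : Q), Pull.mk (α.comp κ) d ∈ D ∧ y = act (α a) d} →
        Pull.mk (α.comp κ) (p y) ∈ D := by
      intro y h1
      induction h1 using AddSubgroup.closure_induction with
      | mem y hy =>
        obtain ⟨a, d, hd, rfl⟩ := hy
        by_cases ha : a ∈ κ.range
        · obtain ⟨c, rfl⟩ := ha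
          rw [hpC, hp3 d (hDS d hd)]
          have h2 : act c (Pull.mk (α.comp κ) d) ∈ D := D.smul_mem _ hd
          have h3 : act c (Pull.mk (α.comp κ) d) = Pull.mk (α.comp κ) (act (α (κ c)) d) :=
            Pull.act_apply c (Pull.mk (α.comp κ) d)
          rwa [h3] at h2
        · have h2 : act (α a) d ∈ part π Sᶜ := act_mem_part _ S Sᶜ (hs.pp a ha) _ (hDS d hd)
          rw [hp4 _ h2]
          exact D.zero_mem
      | zero =>
        rw [map_zero]
        exact D.zero_mem
      | add y z _ _ hy hz =>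
        rw [map_add]
        exact D.add_mem hy hz
      | neg y _ hy =>
        rw [map_neg]
        exact D.neg_mem hy
    exact key x (hWD x hx)
  let ρ : (Pull α Q ⧸ W) →ₗ[MonoidAlgebra ℤ A] P := W.liftQ πA hWπ
  have hρ : ∀ x : Pull α Q, ρ (W.mkQ x) = π x.un := fun x => rfl
  -- the two additive maps
  let J : (Pull (α.comp κ) Q ⧸ D) →+ (Pull α Q ⧸ W) :=
    qlift D
      { toFun := fun x => W.mkQ (Pull.mk α x.un)
        map_zero' := map_zero W.mkQ
        map_add' := fun x y => map_add W.mkQ (Pull.mk α x.un) (Pull.mk α y.un) }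
      (fun x hx => (Submodule.Quotient.mk_eq_zero W).2 (hDW x.un hx))
  have hJ : ∀ y : Q, J (D.mkQ (Pull.mk (α.comp κ) y)) = W.mkQ (Pull.mk α y) := fun y => rfl
  let E : (Pull α Q ⧸ W) →+ (Pull (α.comp κ) Q ⧸ D) :=
    qlift W
      { toFun := fun x => D.mkQ (Pull.mk (α.comp κ) (p x.un))
        map_zero' := by
          change D.mkQ (Pull.mk (α.comp κ) (p 0)) = 0
          rw [map_zero]
          exact map_zero D.mkQ
        map_add' := fun x y => by
          change D.mkQ (Pull.mk (α.comp κ) (p (x.un + y.un))) = _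
          rw [map_add]
          exact map_add D.mkQ (Pull.mk (α.comp κ) (p x.un)) (Pull.mk (α.comp κ) (p y.un)) }
      (fun x hx => (Submodule.Quotient.mk_eq_zero D).2 (hWp x.un hx))
  have hE : ∀ y : Q, E (W.mkQ (Pull.mk α y)) = D.mkQ (Pull.mk (α.comp κ) (p y)) := fun y => rfl
  have hactW : ∀ (a : A) (y : Q), act a (W.mkQ (Pull.mk α y)) = W.mkQ (Pull.mk α (act (α a) y)) := by
    intro a y
    rw [← lin_act]
    exact congrArg W.mkQ (Pull.act_apply a (Pull.mk α y))
  have hactD : ∀ (c : C) (y : Q), act c (D.mkQ (Pull.mk (α.comp κ) y)) =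
      D.mkQ (Pull.mk (α.comp κ) (act (α (κ c)) y)) := by
    intro c y
    rw [← lin_act]
    exact congrArg D.mkQ (Pull.act_apply c (Pull.mk (α.comp κ) y))
  have hJV : ∀ u : LinearMap.range pb, J (u : Pull (α.comp κ) Q ⧸ D) ∈ LinearMap.ker ρ := by
    intro u
    obtain ⟨y, hy, hu⟩ := hrep u
    rw [hu, hJ, LinearMap.mem_ker, hρ]
    exact hSπ y hy
  have hEU : ∀ v : LinearMap.ker ρ, E (v : Pull α Q ⧸ W) ∈ LinearMap.range pb := by
    rintro ⟨v, hv⟩
    obtain ⟨x, rfl⟩ := W.mkQ_surjective v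
    exact hmem (p x.un) (hp1 _)
  let i' : LinearMap.range pb →+ LinearMap.ker ρ :=
    { toFun := fun u => ⟨J (u : Pull (α.comp κ) Q ⧸ D), hJV u⟩
      map_zero' := Subtype.ext (map_zero J)
      map_add' := fun u u' => Subtype.ext (map_add J (u : Pull (α.comp κ) Q ⧸ D) u') }
  let π' : LinearMap.ker ρ →+ LinearMap.range pb :=
    { toFun := fun v => ⟨E (v : Pull α Q ⧸ W), hEU v⟩
      map_zero' := Subtype.ext (map_zero E)
      map_add' := fun v v' => Subtype.ext (map_add E (v : Pull α Q ⧸ W) v') }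
  have hind : IsInd κ i' π' := by
    refine ⟨?_, ?_, ?_, ?_⟩
    · intro c u
      apply Subtype.ext
      change J (act c (u : Pull (α.comp κ) Q ⧸ D)) = act (κ c) (J (u : Pull (α.comp κ) Q ⧸ D))
      obtain ⟨y, _, hu⟩ := hrep u
      rw [hu, hactD, hJ, hJ, hactW]
    · rintro ⟨v, hv⟩
      obtain ⟨x, rfl⟩ := W.mkQ_surjective v
      have hx : π x.un = 0 := hv
      have hx2 : x.un ∈ part π ((α.range : Set Γ)ᶜ) := by
        intro g hg
        rw [Set.mem_compl_iff, not_not] at hg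
        obtain ⟨a, rfl⟩ := hg
        rw [← map_inv, isInd_equi hI, hx, act, smul_zero]
      have hx3 := part_span hI ((α.range : Set Γ)ᶜ) (by
        intro g hg a h1
        apply hg
        have h2 : g = g * α a * (α a)⁻¹ := by rw [mul_inv_cancel_right]
        rw [h2]
        exact α.range.mul_mem h1 (α.range.inv_mem ⟨a, rfl⟩)) _ hx2
      have key : ∀ y : Q, y ∈ AddSubgroup.closure
          {z : Q | ∃ g ∈ ((α.range : Set Γ)ᶜ), ∃ m : P, z = act g (i m)} →
          ∃ v : LinearMap.ker ρ, (v : Pull α Q ⧸ W) = W.mkQ (Pull.mk α y) ∧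
            v ∈ AddSubgroup.closure
              {z : LinearMap.ker ρ | ∃ (a : A) (u : LinearMap.range pb), z = act a (i' u)} := by
        intro y hy
        induction hy using AddSubgroup.closure_induction with
        | mem z hz =>
          obtain ⟨g, hg, m, rfl⟩ := hz
          rcases hs.cover g with h1 | ⟨a, s, hs1, rfl⟩
          · exact absurd h1 hg
          · have h2 : act s (i m) ∈ part π S := gen_mem_part hI S hs.mulA s hs1 m
            refine ⟨act a (i' ⟨_, hmem _ h2⟩), ?_, AddSubgroup.subset_closure ⟨a, _, rfl⟩⟩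
            change act a (J (D.mkQ (Pull.mk (α.comp κ) (act s (i m))))) = _
            rw [hJ, hactW, ← act_mul]
        | zero => exact ⟨0, (map_zero W.mkQ).symm, AddSubgroup.zero_mem _⟩
        | add z z' _ _ hz hz' =>
          obtain ⟨v, hv1, hv2⟩ := hz
          obtain ⟨v', hv1', hv2'⟩ := hz'
          refine ⟨v + v', ?_, AddSubgroup.add_mem _ hv2 hv2'⟩
          change (v : Pull α Q ⧸ W) + (v' : Pull α Q ⧸ W) = _
          rw [hv1, hv1']
          exact (map_add W.mkQ (Pull.mk α z) (Pull.mk α z')).symm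
        | neg z _ hz =>
          obtain ⟨v, hv1, hv2⟩ := hz
          refine ⟨-v, ?_, AddSubgroup.neg_mem _ hv2⟩
          change -(v : Pull α Q ⧸ W) = _
          rw [hv1]
          exact (map_neg W.mkQ (Pull.mk α z)).symm
      obtain ⟨v, hv1, hv2⟩ := key x.un hx3
      have hv3 : v = ⟨W.mkQ x, hv⟩ := Subtype.ext hv1
      rwa [hv3] at hv2
    · intro c u
      apply Subtype.ext
      change E (act (κ c) (J (u : Pull (α.comp κ) Q ⧸ D))) = act c (u : Pull (α.comp κ) Q ⧸ D)
      obtain ⟨y, hy, hu⟩ := hrep u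
      rw [hu, hactD, hJ, hactW, hE, hpC, hp3 y hy]
    · intro a u ha
      apply Subtype.ext
      change E (act a (J (u : Pull (α.comp κ) Q ⧸ D))) = 0
      obtain ⟨y, hy, hu⟩ := hrep u
      have h2 : act (α a) y ∈ part π Sᶜ := act_mem_part _ S Sᶜ (hs.pp a ha) _ hy
      rw [hu, hJ, hactW, hE, hp4 _ h2]
      exact map_zero D.mkQ
  have hVff : FF (MonoidAlgebra ℤ A) (LinearMap.ker ρ) :=
    ind_ff hs.injC _ _ ⟨i', π', hind⟩ hUff
  refine ff_coker (LinearMap.ker ρ).subtype ρ (Submodule.subtype_injective _) ?_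
    (Submodule.range_subtype _) hVff hff
  intro m
  refine ⟨W.mkQ (Pull.mk α (i m)), ?_⟩
  rw [hρ, Pull.un_mk]
  have h1 := hI.proj 1 m
  rwa [map_one, act_one, act_one] at h1

theorem fin_supp {P Q : Type} [AddCommGroup P] [Module (MonoidAlgebra ℤ A) P] [AddCommGroup Q]
    [Module (MonoidAlgebra ℤ Γ) Q] {i : P →+ Q} {π : Q →+ P} (hI : IsInd α i π) (x : Q) :
    ∃ K : Finset Γ, x ∈ part π {g | ∃ k ∈ K, ∃ a : A, g = k * α a} := by
  classical
  obtain ⟨T, hT, _⟩ := isInd_expand hI x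
  refine ⟨T.image Quotient.out, ?_⟩
  intro g hg
  obtain ⟨⟨_, ⟨a, rfl⟩⟩, ha⟩ := QuotientGroup.mk_out_eq_mul α.range g
  have ha' : Quotient.out (g : Γ ⧸ α.range) = g * α a := ha
  have h1 : (g : Γ ⧸ α.range) ∉ T := by
    intro h2
    apply hg
    refine ⟨_, Finset.mem_image_of_mem _ h2, a⁻¹, ?_⟩
    rw [ha', map_inv, mul_inv_cancel_right]
  have h2 := hT _ h1
  rw [ha', mul_inv_rev, act_mul, ← map_inv, isInd_equi hI] at h2
  have h3 := act_act_inv a (π (act g⁻¹ x))
  rw [h2, act, smul_zero] at h3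
  exact h3.symm

theorem symm_single {Q : Type} [AddCommGroup Q] [Module (MonoidAlgebra ℤ Γ) Q] {b : ℕ}
    (φ : Q ≃ₗ[MonoidAlgebra ℤ Γ] (Fin b → MonoidAlgebra ℤ Γ)) (j : Fin b) (g y : Γ) (n : ℤ) :
    φ.symm (Pi.single j (MonoidAlgebra.single (g * y) n)) =
      act g (φ.symm (Pi.single j (MonoidAlgebra.single y n))) := by
  have h1 : (Pi.single j (MonoidAlgebra.single (g * y) n) : Fin b → MonoidAlgebra ℤ Γ) =
      act g (Pi.single j (MonoidAlgebra.single y n)) := by
    rw [act, ← Pi.single_smul]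
    congr 1
    rw [smul_eq_mul, MonoidAlgebra.of_apply, MonoidAlgebra.single_mul_single, one_mul]
  rw [h1]
  exact lin_act φ.symm.toLinearMap g _

theorem supp_gen {Q : Type} [AddCommGroup Q] [Module (MonoidAlgebra ℤ Γ) Q] {b : ℕ}
    (φ : Q ≃ₗ[MonoidAlgebra ℤ Γ] (Fin b → MonoidAlgebra ℤ Γ)) (Y : Set Γ) (G : AddSubgroup Q)
    (hG : ∀ g ∈ Y, ∀ (j : Fin b) (n : ℤ), φ.symm (Pi.single j (MonoidAlgebra.single g n)) ∈ G)
    (x : Q) (hx : ∀ (j : Fin b) (g : Γ), g ∉ Y → (φ x j).coeff g = 0) : x ∈ G := by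
  classical
  have h1 : x = φ.symm (∑ j, Pi.single j (φ x j)) := by
    rw [Finset.univ_sum_single, LinearEquiv.symm_apply_apply]
  rw [h1, map_sum]
  refine AddSubgroup.sum_mem _ fun j _ => ?_
  have h2 : φ x j = ∑ g ∈ (φ x j).coeff.support, MonoidAlgebra.single g ((φ x j).coeff g) :=
    (MonoidAlgebra.sum_coeff_single (φ x j)).symm
  let L : MonoidAlgebra ℤ Γ →+ Q :=
    { toFun := fun z => φ.symm (Pi.single j z)
      map_zero' := by rw [Pi.single_zero, map_zero]
      map_add' := fun z z' => by rw [Pi.single_add, map_add] }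
  have h3 : φ.symm (Pi.single j (φ x j)) = L (φ x j) := rfl
  rw [h3, h2, map_sum]
  refine AddSubgroup.sum_mem _ fun g hg => ?_
  by_cases hgY : g ∈ Y
  · exact hG g hgY j _
  · exact absurd (hx j g hgY) (Finsupp.mem_support_iff.1 hg)

/-- generators of the part over `X` -/
theorem part_gen {P Q : Type} [AddCommGroup P] [Module (MonoidAlgebra ℤ A) P] [AddCommGroup Q]
    [Module (MonoidAlgebra ℤ Γ) Q] {i : P →+ Q} {π : Q →+ P} (hI : IsInd α i π) (X : Set Γ)
    (hX : ∀ g ∈ X, ∀ a : A, g * α a ∈ X) {k : ℕ}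
    (f : (Fin k → MonoidAlgebra ℤ A) →ₗ[MonoidAlgebra ℤ A] P) (hf : Function.Surjective f) (x : Q)
    (hx : x ∈ part π X) :
    x ∈ AddSubgroup.closure {y : Q | ∃ g ∈ X, ∃ l : Fin k, y = act g (i (f (Pi.single l 1)))} := by
  classical
  have h1 := part_span hI X hX x hx
  have h2 : AddSubgroup.closure {y : Q | ∃ g ∈ X, ∃ m : P, y = act g (i m)} ≤
      AddSubgroup.closure
        {y : Q | ∃ g ∈ X, ∃ l : Fin k, y = act g (i (f (Pi.single l 1)))} := by
    rw [AddSubgroup.closure_le]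
    rintro _ ⟨g, hg, m, rfl⟩
    obtain ⟨v, rfl⟩ := hf m
    let L : (Fin k → MonoidAlgebra ℤ A) →+ Q :=
      (actHom Q g).comp (i.comp f.toAddMonoidHom)
    have h3 : act g (i (f v)) = L v := rfl
    have h4 : v = ∑ l, Pi.single l (v l) := (Finset.univ_sum_single v).symm
    rw [SetLike.mem_coe, h3, h4, map_sum]
    refine AddSubgroup.sum_mem _ fun l _ => ?_
    generalize v l = r
    induction r using MonoidAlgebra.induction_linear with
    | zero =>
      rw [Pi.single_zero, map_zero]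
      exact AddSubgroup.zero_mem _
    | add r r' hr hr' =>
      rw [Pi.single_add, map_add]
      exact AddSubgroup.add_mem _ hr hr'
    | single a n =>
      have h5 : (Pi.single l (MonoidAlgebra.single a n) : Fin k → MonoidAlgebra ℤ A) =
          n • act a (Pi.single l 1) := by
        rw [← single_smul, ← Pi.single_smul, smul_eq_mul, mul_one]
      rw [h5, map_zsmul]
      refine AddSubgroup.zsmul_mem _ ?_ n
      refine AddSubgroup.subset_closure ⟨g * α a, hX g hg a, l, ?_⟩
      change act g (i (f (act a (Pi.single l 1)))) = _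
      rw [lin_act, hI.equi, act_mul]
  exact h2 h1

theorem pullLin_bij {H Q : Type} [Group H] [AddCommGroup Q] [Module (MonoidAlgebra ℤ Γ) Q] {b : ℕ}
    (κ : H →* Γ) (φ : Q ≃ₗ[MonoidAlgebra ℤ Γ] (Fin b → MonoidAlgebra ℤ Γ)) :
    Function.Bijective (pullLin κ φ.toLinearMap) := φ.bijective

/-- quotients by preimages -/
noncomputable def quotEquiv {R M N : Type} [Ring R] [AddCommGroup M] [Module R M]
    [AddCommGroup N] [Module R N] (f : M →ₗ[R] N) (hf : Function.Bijective f)
    (q : Submodule R N) : (M ⧸ q.comap f) ≃ₗ[R] (N ⧸ q) :=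
  Submodule.Quotient.equiv (q.comap f) q (LinearEquiv.ofBijective f hf)
    (Submodule.map_comap_eq_of_surjective hf.surjective q)

theorem inj_core (hs : HalfSpace α κ S) (hC : ProjFF C) (P Q : Type) [AddCommGroup P]
    [Module (MonoidAlgebra ℤ A) P] [AddCommGroup Q] [Module (MonoidAlgebra ℤ Γ) Q]
    (hP : Module.Finite (MonoidAlgebra ℤ A) P) (h : Induced α P Q) (b : ℕ)
    (φ : Q ≃ₗ[MonoidAlgebra ℤ Γ] (Fin b → MonoidAlgebra ℤ Γ)) : FF (MonoidAlgebra ℤ A) P := by
  classical
  obtain ⟨i, π, hI⟩ := h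
  obtain ⟨k, f, hf⟩ := Module.Finite.exists_fin' (MonoidAlgebra ℤ A) P
  have hK1 : ∀ j : Fin b, ∃ K : Finset Γ, φ.symm (Pi.single j (MonoidAlgebra.single 1 1)) ∈
      part π {g | ∃ k ∈ K, ∃ a : A, g = k * α a} := fun j => fin_supp hI _
  choose K1 hK1 using hK1
  let K2 : Finset Γ := Finset.univ.biUnion fun l : Fin k => Finset.univ.biUnion fun j : Fin b =>
    (φ (i (f (Pi.single l 1))) j).coeff.support
  let K : Finset Γ := insert 1 (Finset.univ.biUnion K1 ∪ K2)
  have h1K : (1 : Γ) ∈ K := Finset.mem_insert_self _ _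
  have hKa : ∀ j : Fin b, φ.symm (Pi.single j (MonoidAlgebra.single 1 1)) ∈
      part π {g | ∃ k ∈ K, ∃ a : A, g = k * α a} := by
    intro j
    refine part_mono ?_ (hK1 j)
    rintro g ⟨x, hx, a, rfl⟩
    refine ⟨x, ?_, a, rfl⟩
    exact Finset.mem_insert_of_mem (Finset.mem_union_left _
      (Finset.mem_biUnion.2 ⟨j, Finset.mem_univ _, hx⟩))
  have hKb : ∀ (l : Fin k) (j : Fin b) (g : Γ), g ∉ K →
      (φ (i (f (Pi.single l 1))) j).coeff g = 0 := by
    intro l j g hg
    by_contra h1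
    apply hg
    refine Finset.mem_insert_of_mem (Finset.mem_union_right _ ?_)
    exact Finset.mem_biUnion.2 ⟨l, Finset.mem_univ _, Finset.mem_biUnion.2
      ⟨j, Finset.mem_univ _, Finsupp.mem_support_iff.2 h1⟩⟩
  let Y : Set Γ := {g | ∀ x ∈ K, g * x ∈ S}
  let AY : Set Γ := {g | ∃ (a : A), ∃ y ∈ Y, g = α a * y}
  have hCY : ∀ (c : C), ∀ y ∈ Y, (α.comp κ) c * y ∈ Y := by
    intro c y hy x hx
    rw [mul_assoc]
    exact hs.smulC c _ (hy x hx)
  have hAY : ∀ (a : A), ∀ y ∈ AY, α a * y ∈ AY := by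
    rintro a _ ⟨a', y, hy, rfl⟩
    exact ⟨a * a', y, hy, by rw [map_mul, mul_assoc]⟩
  have hYAY : Y ⊆ AY := fun y hy => ⟨1, y, hy, by rw [map_one, one_mul]⟩
  let D : Submodule (MonoidAlgebra ℤ C) (Pull (α.comp κ) Q) :=
    (suppSub (α.comp κ) b Y hCY).comap (pullLin (α.comp κ) φ.toLinearMap)
  let W : Submodule (MonoidAlgebra ℤ A) (Pull α Q) :=
    (suppSub α b AY hAY).comap (pullLin α φ.toLinearMap)
  have hD : ∀ x : Q, Pull.mk (α.comp κ) x ∈ D ↔ ∀ (j : Fin b) (g : Γ), g ∉ Y →
      (φ x j).coeff g = 0 := fun x => Iff.rfl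
  have hW : ∀ x : Q, Pull.mk α x ∈ W ↔ ∀ (j : Fin b) (g : Γ), g ∉ AY →
      (φ x j).coeff g = 0 := fun x => Iff.rfl
  have hinj : Function.Injective (α.comp κ) := hs.injA.comp hs.injC
  have hsc : ∀ (j : Fin b) (n : ℤ), (MonoidAlgebra.single (1 : Γ) n) =
      n • (MonoidAlgebra.single (1 : Γ) (1 : ℤ)) := by
    intro j n
    rw [MonoidAlgebra.smul_single, smul_eq_mul, mul_one]
  refine core_ff hs hC P Q hI D W ?_ ?_ ?_ ?_ ?_
    {u | ∃ x ∈ (K ×ˢ K).biUnion (fun q => (hs.ai (q.1 * q.2)).choose), ∃ l : Fin k,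
      u = D.mkQ (Pull.mk (α.comp κ) (act x (i (f (Pi.single l 1)))))} ?_ ?_
  · intro x hx
    rw [hW]
    rw [hD] at hx
    intro j g hg
    exact hx j g fun h1 => hg (hYAY h1)
  · intro x hx
    rw [hD] at hx
    refine supp_gen φ Y (part π S) ?_ x hx
    intro g hg j n
    have h1 : φ.symm (Pi.single j (MonoidAlgebra.single g n)) =
        act g (φ.symm (Pi.single j (MonoidAlgebra.single 1 n))) := by
      rw [← symm_single, mul_one]
    have h2 : φ.symm (Pi.single j (MonoidAlgebra.single 1 n)) =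
        n • φ.symm (Pi.single j (MonoidAlgebra.single 1 1)) := by
      rw [← map_zsmul, hsc j n, ← Pi.single_smul]
    rw [h1, h2]
    refine act_mem_part g {g | ∃ k ∈ K, ∃ a : A, g = k * α a} S ?_ _
      (AddSubgroup.zsmul_mem _ (hKa j) n)
    rintro _ ⟨x, hx, a, rfl⟩
    rw [← mul_assoc]
    exact hs.mulA _ (hg x hx) a
  · intro x hx
    rw [hW] at hx
    refine supp_gen φ AY _ ?_ x hx
    rintro _ ⟨a, y, hy, rfl⟩ j n
    refine AddSubgroup.subset_closure ⟨a, φ.symm (Pi.single j (MonoidAlgebra.single y n)), ?_,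
      symm_single φ j (α a) y n⟩
    rw [hD]
    intro j' g hg
    rw [LinearEquiv.apply_symm_apply]
    have hgy : y ≠ g := fun h1 => hg (h1 ▸ hy)
    by_cases hj : j' = j
    · subst hj
      rw [Pi.single_eq_same, MonoidAlgebra.coeff_single]
      exact Finsupp.single_eq_of_ne' hgy
    · rw [Pi.single_eq_of_ne hj]
      rfl
  · have e := quotEquiv (pullLin (α.comp κ) φ.toLinearMap) (pullLin_bij (α.comp κ) φ)
      (suppSub (α.comp κ) b Y hCY)
    have h1 := supp_quot_proj (α.comp κ) hinj b Y hCY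
    exact Module.Projective.of_equiv e.symm
  · have e := quotEquiv (pullLin α φ.toLinearMap) (pullLin_bij α φ) (suppSub α b AY hAY)
    refine ff_iso e.symm (supp_quot_ff α hs.injA b AY hAY
      (insert 1 (K.biUnion fun x => (hs.ai x).choose)) ?_)
    intro g hg
    rcases hs.cover g with ⟨a, rfl⟩ | ⟨a, s, hs1, rfl⟩
    · exact ⟨1, Finset.mem_insert_self _ _, a, by rw [mul_one]⟩
    · have h1 : s ∉ Y := fun h2 => hg ⟨a, s, h2, rfl⟩
      have h2 : ∃ x ∈ K, s * x ∉ S := by
        by_contra h3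
        push Not at h3
        exact h1 h3
      obtain ⟨x, hx, hx2⟩ := h2
      obtain ⟨y, hy, c, hc⟩ := (hs.ai x).choose_spec s hs1 hx2
      refine ⟨y, Finset.mem_insert_of_mem (Finset.mem_biUnion.2 ⟨x, hx, hy⟩), a * κ c, ?_⟩
      rw [hc, map_mul, mul_assoc]
  · have h1 : {u | ∃ x ∈ (K ×ˢ K).biUnion (fun q => (hs.ai (q.1 * q.2)).choose), ∃ l : Fin k,
      u = D.mkQ (Pull.mk (α.comp κ) (act x (i (f (Pi.single l 1)))))} =
      (fun q : Γ × Fin k => D.mkQ (Pull.mk (α.comp κ) (act q.1 (i (f (Pi.single q.2 1)))))) ''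
        ((((K ×ˢ K).biUnion (fun q => (hs.ai (q.1 * q.2)).choose)) ×ˢ
          (Finset.univ : Finset (Fin k)) : Finset (Γ × Fin k)) : Set (Γ × Fin k)) := by
      ext u
      constructor
      · rintro ⟨x, hx, l, rfl⟩
        exact ⟨(x, l), Finset.mem_coe.2 (Finset.mem_product.2 ⟨hx, Finset.mem_univ _⟩), rfl⟩
      · rintro ⟨⟨x, l⟩, hx, rfl⟩
        exact ⟨x, (Finset.mem_product.1 (Finset.mem_coe.1 hx)).1, l, rfl⟩
    rw [h1]
    exact (Finset.finite_toSet _).image _
  · intro x hx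
    have h1 := part_gen hI S hs.mulA f hf x hx
    have key : ∀ y : Q, y ∈ AddSubgroup.closure
        {y : Q | ∃ g ∈ S, ∃ l : Fin k, y = act g (i (f (Pi.single l 1)))} →
        D.mkQ (Pull.mk (α.comp κ) y) ∈ Submodule.span (MonoidAlgebra ℤ C)
          {u | ∃ x ∈ (K ×ˢ K).biUnion (fun q => (hs.ai (q.1 * q.2)).choose), ∃ l : Fin k,
            u = D.mkQ (Pull.mk (α.comp κ) (act x (i (f (Pi.single l 1)))))} := by
      intro y hy
      induction hy using AddSubgroup.closure_induction with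
      | mem y hy =>
        obtain ⟨s, hs1, l, rfl⟩ := hy
        by_cases h2 : ∀ x ∈ K, s * x ∈ Y
        · have h3 : Pull.mk (α.comp κ) (act s (i (f (Pi.single l 1)))) ∈ D := by
            rw [hD]
            intro j g hg
            have h4 : φ (act s (i (f (Pi.single l 1)))) = act s (φ (i (f (Pi.single l 1)))) :=
              lin_act φ.toLinearMap s _
            rw [h4, supp_act]
            apply hKb
            intro h5
            apply hg
            have h6 := h2 _ h5
            rwa [mul_inv_cancel_left] at h6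
          have h4 : D.mkQ (Pull.mk (α.comp κ) (act s (i (f (Pi.single l 1))))) = 0 :=
            (Submodule.Quotient.mk_eq_zero D).2 h3
          rw [h4]
          exact Submodule.zero_mem _
        · push Not at h2
          obtain ⟨x, hx, hx2⟩ := h2
          have h3 : ∃ x' ∈ K, s * x * x' ∉ S := by
            by_contra h4
            push Not at h4
            exact hx2 h4
          obtain ⟨x', hx', hx3⟩ := h3
          rw [mul_assoc] at hx3
          obtain ⟨y, hy, c, hc⟩ := (hs.ai (x * x')).choose_spec s hs1 hx3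
          have h4 : D.mkQ (Pull.mk (α.comp κ) (act s (i (f (Pi.single l 1))))) =
              act c (D.mkQ (Pull.mk (α.comp κ) (act y (i (f (Pi.single l 1)))))) := by
            rw [← lin_act]
            refine congrArg D.mkQ ?_
            have h5 : act c (Pull.mk (α.comp κ) (act y (i (f (Pi.single l 1))))) =
              Pull.mk (α.comp κ) (act (α (κ c)) (act y (i (f (Pi.single l 1))))) :=
              Pull.act_apply c (Pull.mk (α.comp κ) (act y (i (f (Pi.single l 1)))))
            rw [h5, ← act_mul, ← hc]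
          rw [h4]
          refine Submodule.smul_mem _ _ (Submodule.subset_span ⟨y, ?_, l, rfl⟩)
          exact Finset.mem_biUnion.2 ⟨(x, x'), Finset.mem_product.2 ⟨hx, hx'⟩, hy⟩
      | zero => exact Submodule.zero_mem _
      | add y z _ _ hy hz => exact Submodule.add_mem _ hy hz
      | neg y _ hy => exact Submodule.neg_mem _ hy
    exact key x h1

theorem desc_half (hs : HalfSpace α κ S) (hC : ProjFF C) : DescProj α := by
  intro P Q _ _ _ _ hfin hproj hind hff
  have hQ : Module.Projective (MonoidAlgebra ℤ Γ) Q := (ind_proj hs.injA _ _ hind hfin hproj).2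
  obtain ⟨a, b, ⟨e⟩⟩ := stablyFree_of_ff Q hQ hff
  have h1 : Induced α (Fin a → MonoidAlgebra ℤ A) (Fin a → MonoidAlgebra ℤ Γ) := by
    obtain ⟨π, hπ⟩ := isInd_free α hs.injA a
    exact ⟨freeI α a, π, hπ⟩
  have h2 : Induced α (P × (Fin a → MonoidAlgebra ℤ A)) (Q × (Fin a → MonoidAlgebra ℤ Γ)) :=
    ind_prod _ _ _ _ hind h1
  have h3 : Module.Finite (MonoidAlgebra ℤ A) (P × (Fin a → MonoidAlgebra ℤ A)) :=
    Module.Finite.prod
  exact ff_left (inj_core hs hC _ _ h3 h2 b e) (ff_pow a)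

end

end Pool.Agent.Hhelper49.Srf
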