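import Pool.Agent.Hhelper49.Srf.MV
import Pool.Agent.Hhelper49.Srf.Inj
import Pool.Agent.Hhelper49.Srf.Back

/-!
# Module AmalF: types (FP), (FF) of amalgams

With `amal_exact`: `ℤ[Γ/A] = PermF Γ (Γ ⧸ α.range)` is induced from `Triv A` (`ind_perm`), etc.; `ℤ[Γ/C]` is induced from `Triv C`
along `α.comp κ`, and `ℤ[Γ/B]` from `Triv B`.
* `amal_fp`: `ind_fp`, `fp_prod`, `fp_coker`.  `amal_ff`: the same for (FF).
* `amal_iff`: `B`, `C` (FF), `C` infinite cyclic, `A` (FP): the `m`-th power of the exact sequence (`ffm_ext`,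
`ffm_coker`, `ffm_ker`) shows that `Fin m → Triv Γ` is (FF) iff `Fin m → (ℤ[Γ/A] × ℤ[Γ/B])` is (FF) iff `Fin m → ℤ[Γ/A]` is
(FF) (`pow_left` and `ff_prod`); and this holds iff `Fin m → Triv A` is (FF) over `ℤ[A]`: `←` by `ind_ff`, `→` by
`ind_reduce` with `desc_half`, `projFF_of_cyclic`.
-/

namespace Pool.Agent.Hhelper49.Srf

open Pool.Agent.Hhelper49.Srr

section
variable {A B C Γ : Type} [Group A] [Group B] [Group C] [Group Γ]
  {α : A →* Γ} {β : B →* Γ} {κ : C →* A} {ι : C →* B} {S : Set Γ}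

theorem amal_injC (h : Amal α β κ ι S) : Function.Injective (α.comp κ) := by
  intro x y hxy
  exact h.injκ (h.injA hxy)

theorem amal_fp (h : Amal α β κ ι S) (hA : TypeFP A) (hB : TypeFP B) (hC : TypeFP C) :
    TypeFP Γ := by
  obtain ⟨f, g, hf, hg, hfg⟩ := amal_exact h
  have hA' := ind_fp h.injA _ _ (ind_perm α) (fp_of_typeFP A hA)
  have hB' := ind_fp h.injB _ _ (ind_perm β) (fp_of_typeFP B hB)
  have hC' := ind_fp (amal_injC h) _ _ (ind_perm (α.comp κ)) (fp_of_typeFP C hC)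
  exact typeFP_of_fp Γ (fp_coker f g hf hg hfg hC' (fp_prod hA' hB'))

theorem amal_ff (h : Amal α β κ ι S) (hA : TypeFF A) (hB : TypeFF B) (hC : TypeFF C) :
    TypeFF Γ := by
  obtain ⟨f, g, hf, hg, hfg⟩ := amal_exact h
  have hA' := ind_ff h.injA _ _ (ind_perm α) (ff_of_typeFF A hA)
  have hB' := ind_ff h.injB _ _ (ind_perm β) (ff_of_typeFF B hB)
  have hC' := ind_ff (amal_injC h) _ _ (ind_perm (α.comp κ)) (ff_of_typeFF C hC)
  exact typeFF_of_ff Γ (ff_coker f g hf hg hfg hC' (ff_prod hA' hB'))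

theorem amal_iff (h : Amal α β κ ι S) (hA : TypeFP A) (hB : TypeFF B) (hC : TypeFF C)
    (hp : ProjFF C) (m : ℕ) : FreeRes m Γ ↔ FreeRes m A := by
  obtain ⟨f, g, hf, hg, hfg⟩ := amal_exact h
  have hB' := ind_ff h.injB _ _ (ind_perm β) (ff_of_typeFF B hB)
  have hC' := ind_ff (amal_injC h) _ _ (ind_perm (α.comp κ)) (ff_of_typeFF C hC)
  have hBm : FF (MonoidAlgebra ℤ Γ) (Fin m → PermF Γ (Γ ⧸ β.range)) :=
    ff_pi (fun _ => PermF Γ (Γ ⧸ β.range)) fun _ => hB'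
  have hCm : FF (MonoidAlgebra ℤ Γ) (Fin m → PermF Γ (Γ ⧸ (α.comp κ).range)) :=
    ff_pi (fun _ => PermF Γ (Γ ⧸ (α.comp κ).range)) fun _ => hC'
  have hAi : Induced α (Fin m → Triv A) (Fin m → PermF Γ (Γ ⧸ α.range)) :=
    ind_pi _ _ m (ind_perm α)
  have hAp : FP (MonoidAlgebra ℤ A) (Fin m → Triv A) :=
    fp_pi (fun _ => Triv A) fun _ => fp_of_typeFP A hA
  rw [freeRes_iff, freeRes_iff]
  constructor
  · intro h1
    have h2 := ffm_ext m f g hf hg hfg hCm h1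
    have h3 := ff_left (ff_iso (piProdEquiv (MonoidAlgebra ℤ Γ) m _ _) h2) hBm
    exact ind_reduce h.injA _ _ (desc_half (amal_half h) hp) hAp hAi h3
  · intro h1
    have h2 := ind_ff h.injA _ _ hAi h1
    have h3 := ff_iso (piProdEquiv (MonoidAlgebra ℤ Γ) m _ _).symm (ff_prod h2 hBm)
    exact ffm_coker m f g hf hg hfg hCm h3

end

end Pool.Agent.Hhelper49.Srf
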