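import Pool.Agent.Hhelper49.Srf.Back
import Pool.Agent.Hhelper49.Srf.IndB
import Pool.Agent.Hhelper49.Srf.IndC
import Pool.Agent.Hhelper49.Srd.CycFF

/-!
# Module BS: the group `⟨a, b | a b a⁻¹ = b²⟩` is of type (FF)

`E` = pairs `(k, r)`, `k ∈ ℤ`, `r` a dyadic rational (`r = m / 2^j`), `(k, r) (l, s) = (k + l, r + 2^k s)`, `a = (1, 0)`,
`b = (0, 1)` (e.g. as a structure, or as a subgroup of a semidirect product).  `a b a⁻¹ = (0, 2) = b²`,
`a^m = (m, 0)`, `b^n = (0, n)`.  Generation: `a^(-j) b^m a^j = (0, m / 2^j)`, `(k, r) = (0, r) a^k`.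
Let `κ : Multiplicative ℤ →* E`, `n ↦ b^n`, injective, `B = κ.range`, `X = E ⧸ B`, `ℤ[X] = PermF E X`.
(1) `ℤ[X]` is (FF): induced from `Triv (Multiplicative ℤ)` (`ind_perm`, `ind_ff`), which is (FF) (`typeFF_of_cyclic`,
`ff_of_typeFF`).
(2) `τ : X → X`, `g B ↦ g a⁻¹ B` is well defined (`g b a⁻¹ = g a⁻¹ b²`) and equivariant.
(3) The sequence `0 → ℤ[X] → ℤ[X] → Triv E → 0`, `δ_x ↦ δ_x - δ_(τ x)`, `δ_x ↦ 1`, is exact.
Injective: the level `(k, r) B ↦ k` is well defined, and `τ` lowers it by one; if `x ≠ 0` the coefficients of `x` at the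
highest level do not change.  Exact in the middle: modulo the image `δ_x ≡ δ_(τ^n x)`; for `x = (k, r) B`, `τ^n x = (k - n, r) B`, and
this is `(k - n, 0) B` if `r ∈ 2^(k-n) ℤ`, which is true for all large `n` (`r` is dyadic).  So all `δ_x` are congruent, and
an element of augmentation `0` is in the image.
(4) `ff_coker`, `typeFF_of_ff`.
-/

namespace Pool.Agent.Hhelper49.Srf

open Pool.Agent.Hhelper49.Srr

section
variable {E : Type} [Group E] {a b : E}

/-- `n ↦ b^n` -/
def bsK (b : E) : Multiplicative ℤ →* E := zpowersHom E b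

theorem bsK_apply (b : E) (n : Multiplicative ℤ) : bsK b n = b ^ (Multiplicative.toAdd n) := rfl

theorem bs_mem (b : E) {g : E} : g ∈ (bsK b).range ↔ ∃ n : ℤ, b ^ n = g := by
  constructor
  · rintro ⟨n, rfl⟩
    exact ⟨_, rfl⟩
  · rintro ⟨n, rfl⟩
    exact ⟨Multiplicative.ofAdd n, rfl⟩

theorem bs_conj (hab : a * b * a⁻¹ = b ^ 2) (n : ℤ) : a * b ^ n * a⁻¹ = b ^ (2 * n) := by
  have h1 : a * b ^ n * a⁻¹ = (a * b * a⁻¹) ^ n := by
    rw [conj_zpow]
  rw [h1, hab, ← zpow_natCast, ← zpow_mul]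
  norm_num

theorem bs_conj_pow (hab : a * b * a⁻¹ = b ^ 2) (j : ℕ) (n : ℤ) :
    a ^ j * b ^ n * (a ^ j)⁻¹ = b ^ (2 ^ j * n) := by
  induction j with
  | zero => simp
  | succ j ih =>
    have h1 : a ^ (j + 1) * b ^ n * (a ^ (j + 1))⁻¹ = a * (a ^ j * b ^ n * (a ^ j)⁻¹) * a⁻¹ := by
      rw [pow_succ' a j]
      group
    rw [h1, ih, bs_conj hab]
    congr 1
    ring

/-- `g B ↦ g a⁻¹ B` -/
def bsTau (hab : a * b * a⁻¹ = b ^ 2) (x : E ⧸ (bsK b).range) : E ⧸ (bsK b).range :=
  Quotient.map' (s₁ := QuotientGroup.leftRel (bsK b).range) (s₂ := QuotientGroup.leftRel (bsK b).range)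
    (fun g => g * a⁻¹) (by
      intro g h hgh
      rw [QuotientGroup.leftRel_apply] at hgh ⊢
      rw [bs_mem] at hgh ⊢
      obtain ⟨n, hn⟩ := hgh
      refine ⟨2 * n, ?_⟩
      rw [← bs_conj hab, hn]
      group) x

theorem bsTau_mk (hab : a * b * a⁻¹ = b ^ 2) (g : E) :
    bsTau hab (g : E ⧸ (bsK b).range) = ((g * a⁻¹ : E) : E ⧸ (bsK b).range) := rfl

theorem bsTau_smul (hab : a * b * a⁻¹ = b ^ 2) (g : E) (x : E ⧸ (bsK b).range) :
    bsTau hab (g • x) = g • bsTau hab x := by
  obtain ⟨h, rfl⟩ := QuotientGroup.mk_surjective x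
  rw [bsTau_mk]
  change bsTau hab ((g * h : E) : E ⧸ (bsK b).range) = ((g * (h * a⁻¹) : E) : E ⧸ (bsK b).range)
  rw [bsTau_mk, mul_assoc]

/-- the level -/
def bsLev (lvl : E →* Multiplicative ℤ) (hb : lvl b = 1) (x : E ⧸ (bsK b).range) : ℤ :=
  Quotient.liftOn' (s₁ := QuotientGroup.leftRel (bsK b).range) x
    (fun g => Multiplicative.toAdd (lvl g)) (by
      intro g h hgh
      rw [QuotientGroup.leftRel_apply, bs_mem] at hgh
      obtain ⟨n, hn⟩ := hgh
      have h1 : h = g * b ^ n := by rw [hn]; group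
      rw [h1, map_mul, map_zpow, hb, one_zpow, mul_one])

theorem bsLev_mk (lvl : E →* Multiplicative ℤ) (hb : lvl b = 1) (g : E) :
    bsLev lvl hb (g : E ⧸ (bsK b).range) = Multiplicative.toAdd (lvl g) := rfl

theorem bsLev_tau (hab : a * b * a⁻¹ = b ^ 2) (lvl : E →* Multiplicative ℤ) (hb : lvl b = 1)
    (ha : lvl a = Multiplicative.ofAdd 1) (x : E ⧸ (bsK b).range) :
    bsLev lvl hb (bsTau hab x) = bsLev lvl hb x - 1 := by
  obtain ⟨g, rfl⟩ := QuotientGroup.mk_surjective x
  change Multiplicative.toAdd (lvl (g * a⁻¹)) = Multiplicative.toAdd (lvl g) - 1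
  rw [map_mul, map_inv, ha]
  rfl

theorem bsTau_iter (hab : a * b * a⁻¹ = b ^ 2) (n : ℕ) (g : E) :
    (bsTau hab)^[n] (g : E ⧸ (bsK b).range) = ((g * (a ^ n)⁻¹ : E) : E ⧸ (bsK b).range) := by
  induction n with
  | zero => simp
  | succ n ih =>
    rw [Function.iterate_succ_apply', ih, bsTau_mk, mul_assoc, ← mul_inv_rev, ← pow_succ']

/-- every class is eventually in the orbit of the base point -/
theorem bs_reach (hab : a * b * a⁻¹ = b ^ 2) (hgen : Subgroup.closure {a, b} = ⊤)
    (x : E ⧸ (bsK b).range) : ∃ n m : ℕ, (bsTau hab)^[n] x =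
      (bsTau hab)^[m] ((1 : E) : E ⧸ (bsK b).range) := by
  obtain ⟨g, rfl⟩ := QuotientGroup.mk_surjective x
  have key : ∃ n m : ℕ, ∃ r : ℤ, g * (a ^ n)⁻¹ = (a ^ m)⁻¹ * b ^ r := by
    have hg : g ∈ Subgroup.closure {a, b} := by rw [hgen]; trivial
    -- conjugation by powers of `a⁻¹` on the left can be postponed
    have hup : ∀ (g : E) (n m : ℕ) (r : ℤ), g * (a ^ n)⁻¹ = (a ^ m)⁻¹ * b ^ r → ∀ j : ℕ,
        g * (a ^ (n + j))⁻¹ = (a ^ (m + j))⁻¹ * b ^ (2 ^ j * r) := by
      intro g n m r h j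
      rw [← bs_conj_pow hab j r]
      have h1 : (a ^ (n + j))⁻¹ = (a ^ n)⁻¹ * (a ^ j)⁻¹ := by
        rw [← mul_inv_rev, ← pow_add, add_comm]
      have h2 : (a ^ (m + j))⁻¹ = (a ^ m)⁻¹ * (a ^ j)⁻¹ := by
        rw [← mul_inv_rev, ← pow_add, add_comm]
      rw [h1, h2, ← mul_assoc, h]
      group
    induction hg using Subgroup.closure_induction_left with
    | one => exact ⟨0, 0, 0, by simp⟩
    | mul_left x hx y hy ih =>
      obtain ⟨n, m, r, h⟩ := ih
      rcases hx with rfl | rfl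
      · refine ⟨n + 1, m, 2 * r, ?_⟩
        have h1 := hup y n m r h 1
        rw [mul_assoc, h1]
        rw [← mul_assoc]
        congr 1
        rw [pow_succ]
        group
      · refine ⟨n, m, 2 ^ m + r, ?_⟩
        rw [mul_assoc, h]
        have h1 := bs_conj_pow hab m 1
        rw [mul_one, zpow_one] at h1
        rw [zpow_add, ← h1]
        group
    | inv_mul_cancel x hx y hy ih =>
      obtain ⟨n, m, r, h⟩ := ih
      rcases hx with rfl | rfl
      · refine ⟨n, m + 1, r, ?_⟩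
        rw [mul_assoc, h, ← mul_assoc, ← mul_inv_rev, ← pow_succ]
      · refine ⟨n, m, - 2 ^ m + r, ?_⟩
        rw [mul_assoc, h]
        have h1 := bs_conj_pow hab m (-1)
        have h2 : (2 : ℤ) ^ m * (-1) = - 2 ^ m := by ring
        rw [h2] at h1
        rw [zpow_add, ← h1]
        group
  obtain ⟨n, m, r, h⟩ := key
  refine ⟨n, m, ?_⟩
  change (bsTau hab)^[n] (g : E ⧸ (bsK b).range) = _
  rw [bsTau_iter, bsTau_iter, one_mul, h]
  rw [QuotientGroup.eq, bs_mem]
  exact ⟨-r, by group⟩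

/-- `δ_x ↦ δ_(τ x)` -/
noncomputable def bsT (hab : a * b * a⁻¹ = b ^ 2) :
    PermF E (E ⧸ (bsK b).range) →+ PermF E (E ⧸ (bsK b).range) :=
  Finsupp.mapDomain.addMonoidHom (bsTau hab)

theorem bsT_single (hab : a * b * a⁻¹ = b ^ 2) (x : E ⧸ (bsK b).range) (n : ℤ) :
    bsT hab (PermF.single E _ x n) = PermF.single E _ (bsTau hab x) n := by
  change Finsupp.mapDomain (bsTau hab) (Finsupp.single x n) = _
  exact Finsupp.mapDomain_single

theorem bsT_act (hab : a * b * a⁻¹ = b ^ 2) (g : E) (f : PermF E (E ⧸ (bsK b).range)) :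
    bsT hab (act g f) = act g (bsT hab f) := by
  induction f using PermF.induction with
  | h0 => rw [act_zero', map_zero, act_zero']
  | hadd x y hx hy => rw [act, smul_add, map_add, map_add, act, smul_add]; exact congrArg₂ _ hx hy
  | hs x n => rw [PermF.act_single, bsT_single, bsT_single, PermF.act_single, bsTau_smul]

/-- `δ_x ↦ δ_x - δ_(τ x)` -/
noncomputable def bsD (hab : a * b * a⁻¹ = b ^ 2) :
    PermF E (E ⧸ (bsK b).range) →ₗ[MonoidAlgebra ℤ E] PermF E (E ⧸ (bsK b).range) :=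
  LinearMap.id - mkLin (bsT hab) (bsT_act hab)

theorem bsD_apply (hab : a * b * a⁻¹ = b ^ 2) (f : PermF E (E ⧸ (bsK b).range)) :
    bsD hab f = f - bsT hab f := rfl

/-- the augmentation -/
noncomputable def bsAug0 (b : E) : PermF E (E ⧸ (bsK b).range) →+ ℤ :=
  Finsupp.liftAddHom (fun _ => AddMonoidHom.id ℤ)

theorem bsAug0_single (b : E) (x : E ⧸ (bsK b).range) (n : ℤ) :
    bsAug0 b (PermF.single E _ x n) = n := by
  change Finsupp.liftAddHom (fun _ => AddMonoidHom.id ℤ) (Finsupp.single x n) = n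
  rw [Finsupp.liftAddHom_apply_single]
  rfl

theorem bsAug0_act (b : E) (g : E) (f : PermF E (E ⧸ (bsK b).range)) :
    bsAug0 b (act g f) = bsAug0 b f := by
  induction f using PermF.induction with
  | h0 => rw [act_zero']
  | hadd x y hx hy => rw [act, smul_add, map_add, map_add]; exact congrArg₂ _ hx hy
  | hs x n => rw [PermF.act_single, bsAug0_single, bsAug0_single]

noncomputable def bsAug (b : E) : PermF E (E ⧸ (bsK b).range) →ₗ[MonoidAlgebra ℤ E] Triv E :=
  mkLin (bsAug0 b : _ →+ ℤ) (by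
    intro g f
    rw [act_triv]
    exact bsAug0_act b g f)

theorem bsAug_apply (b : E) (f : PermF E (E ⧸ (bsK b).range)) : bsAug b f = bsAug0 b f := rfl

theorem bsD_inj (hab : a * b * a⁻¹ = b ^ 2) (lvl : E →* Multiplicative ℤ) (hb : lvl b = 1)
    (ha : lvl a = Multiplicative.ofAdd 1) : Function.Injective (bsD hab) := by
  classical
  rw [injective_iff_map_eq_zero]
  intro f hf
  rw [bsD_apply, sub_eq_zero] at hf
  by_contra hne
  have hs : (f : (E ⧸ (bsK b).range) →₀ ℤ).support.Nonempty :=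
    Finsupp.support_nonempty_iff.2 hne
  obtain ⟨x, hx, hmax⟩ := Finset.exists_max_image (f : (E ⧸ (bsK b).range) →₀ ℤ).support
    (bsLev lvl hb) hs
  have h1 : ∀ y, y ∈ (bsT hab f : (E ⧸ (bsK b).range) →₀ ℤ).support →
      bsLev lvl hb y ≤ bsLev lvl hb x - 1 := by
    intro y hy
    have h2 := Finsupp.mapDomain_support (f := bsTau hab) (s := (f : (E ⧸ (bsK b).range) →₀ ℤ)) hy
    rw [Finset.mem_image] at h2
    obtain ⟨z, hz, rfl⟩ := h2
    rw [bsLev_tau hab lvl hb ha]
    linarith [hmax z hz]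
  have h3 := h1 x (by rw [← hf]; exact hx)
  linarith

theorem bs_exact (hab : a * b * a⁻¹ = b ^ 2) (hgen : Subgroup.closure {a, b} = ⊤) :
    LinearMap.range (bsD hab) = LinearMap.ker (bsAug b) := by
  apply le_antisymm
  · rintro _ ⟨f, rfl⟩
    rw [LinearMap.mem_ker, bsAug_apply, bsD_apply, map_sub]
    have h1 : bsAug0 b (bsT hab f) = bsAug0 b f := by
      induction f using PermF.induction with
      | h0 => rw [map_zero]
      | hadd x y hx hy => rw [map_add, map_add, map_add, hx, hy]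
      | hs x n => rw [bsT_single, bsAug0_single, bsAug0_single]
    rw [h1]
    exact sub_self _
  · have hone : ∀ (x : E ⧸ (bsK b).range) (n : ℤ), PermF.single E _ x n -
        PermF.single E _ (bsTau hab x) n ∈ LinearMap.range (bsD hab) := by
      intro x n
      refine ⟨PermF.single E _ x n, ?_⟩
      rw [bsD_apply, bsT_single]
    have hit : ∀ (j : ℕ) (x : E ⧸ (bsK b).range) (n : ℤ), PermF.single E _ x n -
        PermF.single E _ ((bsTau hab)^[j] x) n ∈ LinearMap.range (bsD hab) := by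
      intro j
      induction j with
      | zero =>
        intro x n
        rw [Function.iterate_zero, id, sub_self]
        exact Submodule.zero_mem _
      | succ j ih =>
        intro x n
        rw [Function.iterate_succ_apply']
        have := Submodule.add_mem _ (ih x n) (hone ((bsTau hab)^[j] x) n)
        rwa [sub_add_sub_cancel] at this
    have hall : ∀ (x : E ⧸ (bsK b).range) (n : ℤ), PermF.single E _ x n -
        PermF.single E _ ((1 : E) : E ⧸ (bsK b).range) n ∈ LinearMap.range (bsD hab) := by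
      intro x n
      obtain ⟨j, m, hjm⟩ := bs_reach hab hgen x
      have h1 := hit j x n
      have h2 := hit m ((1 : E) : E ⧸ (bsK b).range) n
      rw [hjm] at h1
      have := Submodule.sub_mem _ h1 h2
      rwa [sub_sub_sub_cancel_right] at this
    have hf : ∀ f : PermF E (E ⧸ (bsK b).range), f -
        PermF.single E _ ((1 : E) : E ⧸ (bsK b).range) (bsAug0 b f) ∈ LinearMap.range (bsD hab) := by
      intro f
      induction f using PermF.induction with
      | h0 =>
        rw [map_zero]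
        have : PermF.single E _ ((1 : E) : E ⧸ (bsK b).range) 0 = 0 := Finsupp.single_zero _
        rw [this, sub_zero]
        exact Submodule.zero_mem _
      | hadd x y hx hy =>
        rw [map_add]
        have h1 : PermF.single E _ ((1 : E) : E ⧸ (bsK b).range) (bsAug0 b x + bsAug0 b y) =
          PermF.single E _ ((1 : E) : E ⧸ (bsK b).range) (bsAug0 b x) +
          PermF.single E _ ((1 : E) : E ⧸ (bsK b).range) (bsAug0 b y) := Finsupp.single_add _ _ _
        rw [h1, add_sub_add_comm]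
        exact Submodule.add_mem _ hx hy
      | hs x n =>
        rw [bsAug0_single]
        exact hall x n
    intro f h
    rw [LinearMap.mem_ker, bsAug_apply] at h
    have h1 := hf f
    have h2 : bsAug0 b f = 0 := h
    rw [h2] at h1
    have h3 : PermF.single E _ ((1 : E) : E ⧸ (bsK b).range) 0 = 0 := Finsupp.single_zero _
    rwa [h3, sub_zero] at h1

theorem bs_ff (hab : a * b * a⁻¹ = b ^ 2) (hgen : Subgroup.closure {a, b} = ⊤)
    (lvl : E →* Multiplicative ℤ) (hb : lvl b = 1) (ha : lvl a = Multiplicative.ofAdd 1)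
    (hinf : ∀ n : ℤ, b ^ n = 1 → n = 0) : TypeFF E := by
  apply typeFF_of_ff
  have hκ : Function.Injective (bsK b) := by
    rw [injective_iff_map_eq_one]
    intro n hn
    have := hinf _ hn
    exact this
  have h1 : FF (MonoidAlgebra ℤ (Multiplicative ℤ)) (Triv (Multiplicative ℤ)) := by
    apply ff_of_typeFF
    apply typeFF_of_cyclic _ inferInstance
    intro g n hn hg
    have h3 : n • Multiplicative.toAdd g = 0 := by
      rw [← toAdd_pow, hg]
      rfl
    rcases smul_eq_zero.1 h3 with h4 | h4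
    · omega
    · exact h4
  have h2 : FF (MonoidAlgebra ℤ E) (PermF E (E ⧸ (bsK b).range)) :=
    ind_ff hκ _ _ (ind_perm (bsK b)) h1
  refine ff_coker (bsD hab) (bsAug b) (bsD_inj hab lvl hb ha) ?_ (bs_exact hab hgen) h2 h2
  intro n
  exact ⟨PermF.single E _ ((1 : E) : E ⧸ (bsK b).range) n, bsAug0_single b _ n⟩

end

/-- `x ↦ 2 x` -/
def bsA : Equiv.Perm ℚ where
  toFun x := 2 * x
  invFun x := x / 2
  left_inv x := by ring
  right_inv x := by ring

/-- `x ↦ x + 1` -/
def bsB : Equiv.Perm ℚ where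
  toFun x := x + 1
  invFun x := x - 1
  left_inv x := by ring
  right_inv x := by ring

theorem bsB_zpow (n : ℤ) (x : ℚ) : (bsB ^ n) x = x + n := by
  induction n using Int.induction_on with
  | zero => simp
  | succ n ih =>
    rw [add_comm, zpow_add, zpow_one, Equiv.Perm.mul_apply, ih]
    change x + _ + 1 = _
    push_cast
    ring
  | pred n ih =>
    rw [sub_eq_add_neg, add_comm, zpow_add, zpow_neg_one, Equiv.Perm.mul_apply, ih]
    change x + _ - 1 = _
    push_cast
    ring

theorem exists_bs : ∃ (E : Type) (_ : Group E) (a b : E), TypeFF E ∧ a * b * a⁻¹ = b ^ 2 ∧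
    Subgroup.closure {a, b} = ⊤ ∧ ∀ m n : ℤ, a ^ m = b ^ n → m = 0 ∧ n = 0 := by
  let G := Equiv.Perm ℚ × Multiplicative ℤ
  let a' : G := (bsA, Multiplicative.ofAdd 1)
  let b' : G := (bsB, 1)
  let k : Set G := {a', b'}
  let E := Subgroup.closure k
  let a : E := ⟨a', Subgroup.subset_closure (Or.inl rfl)⟩
  let b : E := ⟨b', Subgroup.subset_closure (Or.inr rfl)⟩
  have hab' : a' * b' * a'⁻¹ = b' ^ 2 := by
    refine Prod.ext ?_ ?_
    · refine Equiv.ext fun x => ?_
      change 2 * (x / 2 + 1) = x + 1 + 1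
      ring
    · rfl
  have hab : a * b * a⁻¹ = b ^ 2 := Subtype.ext hab'
  have hgen : Subgroup.closure {a, b} = (⊤ : Subgroup E) := by
    have h1 : (((↑) : Subgroup.closure k → G) ⁻¹' k) = {a, b} := by
      ext x
      constructor
      · rintro (h | h)
        · exact Or.inl (Subtype.ext h)
        · exact Or.inr (Subtype.ext h)
      · rintro (h | h)
        · exact Or.inl (congrArg Subtype.val h)
        · exact Or.inr (congrArg Subtype.val h)
    rw [← h1]
    exact Subgroup.closure_closure_coe_preimage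
  let lvl : E →* Multiplicative ℤ := (MonoidHom.snd (Equiv.Perm ℚ) (Multiplicative ℤ)).comp E.subtype
  have hb : lvl b = 1 := rfl
  have ha : lvl a = Multiplicative.ofAdd 1 := rfl
  have hinf : ∀ n : ℤ, b ^ n = 1 → n = 0 := by
    intro n hn
    have h1 : (b' ^ n).1 = 1 := by
      have := congrArg (fun x : E => (x : G).1) hn
      exact this
    have h2 : (bsB ^ n) 0 = 0 := by
      have h3 : (b' ^ n).1 = bsB ^ n := rfl
      rw [← h3, h1]
      rfl
    rw [bsB_zpow] at h2
    simpa using h2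
  refine ⟨E, inferInstance, a, b, bs_ff hab hgen lvl hb ha hinf, hab, hgen, ?_⟩
  intro m n h
  have h1 := congrArg lvl h
  rw [map_zpow, map_zpow, hb, ha, one_zpow] at h1
  have h2 : m = 0 := by
    have h3 : Multiplicative.toAdd ((Multiplicative.ofAdd (1 : ℤ)) ^ m) = 0 := by rw [h1]; rfl
    rw [toAdd_zpow] at h3
    simpa using h3
  refine ⟨h2, hinf n ?_⟩
  rw [← h, h2, zpow_zero]

end Pool.Agent.Hhelper49.Srf
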