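import Pool.Agent.Hhelper49.Srr.Cpx

/-!
# Base: induced modules, permutation modules, amalgams (definitions)

`κ : H →* Γ` is a homomorphism of groups (injective in the applications).
-/

set_option linter.unusedSectionVars false

namespace Pool.Agent.Hhelper49.Srf

open Pool.Agent.Hhelper49.Srr

/-! ### restriction along a homomorphism -/

/-- a `ℤ[Γ]`-module regarded as a `ℤ[H]`-module through `κ : H →* Γ` -/
def Pull {H Γ : Type} [Group H] [Group Γ] (_ : H →* Γ) (T : Type) : Type := T

section
variable {H Γ : Type} [Group H] [Group Γ] (κ : H →* Γ) (T : Type) [AddCommGroup T]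

instance : AddCommGroup (Pull κ T) := inferInstanceAs (AddCommGroup T)

variable {T} in
/-- an element of `T` as an element of `Pull κ T` -/
def Pull.mk (t : T) : Pull κ T := t

variable {κ T} in
/-- an element of `Pull κ T` as an element of `T` -/
def Pull.un (t : Pull κ T) : T := t

@[simp] theorem Pull.un_mk (t : T) : (Pull.mk κ t).un = t := rfl

@[simp] theorem Pull.mk_un (t : Pull κ T) : Pull.mk κ t.un = t := rfl

@[simp] theorem Pull.un_add (s t : Pull κ T) : (s + t).un = s.un + t.un := rfl

@[simp] theorem Pull.un_zero : (0 : Pull κ T).un = 0 := rfl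

variable [Module (MonoidAlgebra ℤ Γ) T]

/-- the action through `κ` -/
noncomputable def pullHom : H →* Module.End ℤ T where
  toFun g :=
    { toFun := fun t => act (κ g) t
      map_add' := by intro t t'; simp [act]
      map_smul' := by
        intro r t
        simp only [act, eq_intCast, Int.cast_eq, RingHom.id_apply]
        exact smul_comm _ _ _ }
  map_one' := by
    ext t
    change act (κ 1) t = t
    rw [map_one]
    exact act_one t
  map_mul' g h := by
    ext t
    change act (κ (g * h)) t = act (κ g) (act (κ h) t)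
    rw [map_mul]
    exact act_mul _ _ t

noncomputable instance : Module (MonoidAlgebra ℤ H) (Pull κ T) := modOf (A := T) (pullHom κ T)

variable {κ T} in
theorem Pull.act_apply (h : H) (t : Pull κ T) : (act h t).un = act (κ h) t.un :=
  modOf_act (A := T) (pullHom κ T) h t

end

/-! ### permutation modules -/

/-- the permutation module `ℤ[X]` of a `Γ`-set `X`: finitely supported functions, `g • δ_x = δ_(g x)` -/
def PermF (_ : Type) (X : Type) : Type := X →₀ ℤ

section
variable (Γ : Type) [Group Γ] (X : Type)

noncomputable instance : AddCommGroup (PermF Γ X) := inferInstanceAs (AddCommGroup (X →₀ ℤ))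

/-- the basis element `δ_x`, multiplied by an integer -/
noncomputable def PermF.single (x : X) (n : ℤ) : PermF Γ X := Finsupp.single x n

variable {Γ X} in
/-- the coefficient at `x` -/
noncomputable def PermF.coeff (x : X) : PermF Γ X →+ ℤ := Finsupp.applyAddHom x

variable {Γ X} in
theorem PermF.ext {a b : PermF Γ X} (h : ∀ x, PermF.coeff x a = PermF.coeff x b) : a = b :=
  Finsupp.ext (f := (a : X →₀ ℤ)) h

theorem PermF.coeff_single (x y : X) (n : ℤ) [Decidable (x = y)] :
    PermF.coeff y (PermF.single Γ X x n) = if x = y then n else 0 := by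
  change (Finsupp.single x n : X →₀ ℤ) y = _
  rw [Finsupp.single_apply]

variable {Γ X} in
theorem PermF.induction {p : PermF Γ X → Prop} (a : PermF Γ X) (h0 : p 0)
    (hadd : ∀ a b, p a → p b → p (a + b)) (hs : ∀ x n, p (PermF.single Γ X x n)) : p a :=
  Finsupp.induction_linear (a : X →₀ ℤ) h0 (fun a b => hadd a b) (fun x n => hs x n)

variable [MulAction Γ X]

/-- the action on `ℤ[X]` -/
noncomputable def permHom : Γ →* Module.End ℤ (X →₀ ℤ) where
  toFun g := Finsupp.lmapDomain ℤ ℤ (fun x => g • x)
  map_one' := by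
    apply LinearMap.ext
    intro a
    change Finsupp.mapDomain (fun x => (1 : Γ) • x) a = a
    simp only [one_smul]
    exact Finsupp.mapDomain_id
  map_mul' g h := by
    apply LinearMap.ext
    intro a
    change Finsupp.mapDomain (fun x => (g * h) • x) a =
      Finsupp.mapDomain (fun x => g • x) (Finsupp.mapDomain (fun x => h • x) a)
    rw [← Finsupp.mapDomain_comp]
    congr 1
    funext x
    exact mul_smul g h x

noncomputable instance : Module (MonoidAlgebra ℤ Γ) (PermF Γ X) := modOf (A := X →₀ ℤ) (permHom Γ X)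

theorem PermF.act_single (g : Γ) (x : X) (n : ℤ) :
    act g (PermF.single Γ X x n) = PermF.single Γ X (g • x) n := by
  have h := modOf_act (A := X →₀ ℤ) (permHom Γ X) g (Finsupp.single x n)
  have h2 : (permHom Γ X g) (Finsupp.single x n) = Finsupp.single (g • x) n :=
    Finsupp.mapDomain_single
  exact h.trans h2

theorem PermF.coeff_act (g : Γ) (x : X) (a : PermF Γ X) :
    PermF.coeff x (act g a) = PermF.coeff (g⁻¹ • x) a := by
  classical
  induction a using PermF.induction with
  | h0 =>
    rw [act, smul_zero, map_zero, map_zero]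
  | hadd a b ha hb =>
    rw [act, smul_add, map_add, map_add]
    exact congrArg₂ _ ha hb
  | hs y n =>
    rw [PermF.act_single, PermF.coeff_single, PermF.coeff_single]
    congr 1
    rw [eq_iff_iff]
    constructor
    · rintro rfl
      rw [inv_smul_smul]
    · rintro rfl
      rw [smul_inv_smul]

end

/-! ### induced modules -/

section
variable {H Γ : Type} [Group H] [Group Γ] (κ : H →* Γ)
variable {M N : Type} [AddCommGroup M] [Module (MonoidAlgebra ℤ H) M] [AddCommGroup N]
  [Module (MonoidAlgebra ℤ Γ) N]

/-- the `ℤ[Γ]`-module `N` is induced from the `ℤ[H]`-module `M`: `N` is the direct sum of the translates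
`g • i(M)`, `g` in a set of representatives of the left cosets `g κ(H)`; `π` is the projection to `M` -/
structure IsInd (i : M →+ N) (π : N →+ M) : Prop where
  equi : ∀ (h : H) (m : M), i (act h m) = act (κ h) (i m)
  span : ∀ n : N, n ∈ AddSubgroup.closure {x : N | ∃ (g : Γ) (m : M), x = act g (i m)}
  proj : ∀ (h : H) (m : M), π (act (κ h) (i m)) = act h m
  projz : ∀ (g : Γ) (m : M), g ∉ κ.range → π (act g (i m)) = 0

variable (M N) in
/-- `N` is induced from `M` -/
def Induced : Prop := ∃ (i : M →+ N) (π : N →+ M), IsInd κ i π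

end

/-- all finitely generated projective `ℤ[C]`-modules have finite free resolutions -/
def ProjFF (C : Type) [Group C] : Prop :=
  ∀ (U : Type) [AddCommGroup U] [Module (MonoidAlgebra ℤ C) U],
    Module.Finite (MonoidAlgebra ℤ C) U → Module.Projective (MonoidAlgebra ℤ C) U →
      FF (MonoidAlgebra ℤ C) U

/-- descent of (FF) for finitely generated projective modules from `Γ` to `H` -/
def DescProj {H Γ : Type} [Group H] [Group Γ] (κ : H →* Γ) : Prop :=
  ∀ (P Q : Type) [AddCommGroup P] [Module (MonoidAlgebra ℤ H) P] [AddCommGroup Q]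
    [Module (MonoidAlgebra ℤ Γ) Q], Module.Finite (MonoidAlgebra ℤ H) P →
      Module.Projective (MonoidAlgebra ℤ H) P → Induced κ P Q → FF (MonoidAlgebra ℤ Γ) Q →
      FF (MonoidAlgebra ℤ H) P

/-! ### amalgams -/

section
variable {A B C Γ : Type} [Group A] [Group B] [Group C] [Group Γ]

/-- a half space `S` at the edge `C` of the vertex `A` (`S` is the set of the `g` with `g v` beyond the edge `e`,
`v` a vertex with stabiliser `A`, `e` an edge at `v` with stabiliser `C`) -/
structure HalfSpace (α : A →* Γ) (κ : C →* A) (S : Set Γ) : Prop where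
  injA : Function.Injective α
  injC : Function.Injective κ
  notA : ∀ a : A, α a ∉ S
  smulC : ∀ (c : C), ∀ s ∈ S, α (κ c) * s ∈ S
  mulA : ∀ s ∈ S, ∀ a : A, s * α a ∈ S
  pp : ∀ a : A, a ∉ κ.range → ∀ s ∈ S, α a * s ∉ S
  cover : ∀ g : Γ, g ∈ α.range ∨ ∃ (a : A), ∃ s ∈ S, g = α a * s
  ai : ∀ γ : Γ, ∃ X : Finset Γ, ∀ g ∈ S, g * γ ∉ S → ∃ x ∈ X, ∃ c : C, g = α (κ c) * x

/-- `Γ` is the amalgam of `A` and `B` over `C`; `S` is the set of the elements of `Γ` which have a reduced
expression whose first letter is in `B \ C` -/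
structure Amal (α : A →* Γ) (β : B →* Γ) (κ : C →* A) (ι : C →* B) (S : Set Γ) : Prop where
  injA : Function.Injective α
  injB : Function.Injective β
  injκ : Function.Injective κ
  injι : Function.Injective ι
  comm : ∀ c : C, α (κ c) = β (ι c)
  gen : α.range ⊔ β.range = ⊤
  notA : ∀ a : A, α a ∉ S
  smulC : ∀ (c : C), ∀ s ∈ S, α (κ c) * s ∈ S
  mulA : ∀ s ∈ S, ∀ a : A, s * α a ∈ S
  mulB : ∀ s ∈ S, ∀ b : B, s * β b ∈ S ∨ ∃ c : C, s * β b = α (κ c)
  ppA : ∀ a : A, a ∉ κ.range → ∀ s ∈ S, α a * s ∉ S
  ppB : ∀ b : B, b ∉ ι.range → ∀ g : Γ, g ∉ S → β b * g ∈ S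
  cover : ∀ g : Γ, g ∈ α.range ∨ ∃ (a : A), ∃ s ∈ S, g = α a * s

end

end Pool.Agent.Hhelper49.Srf
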