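import Pool.Agent.Hhelper49.Srf.IndB
import Pool.Agent.Hhelper49.Srf.IndC

/-!
# Module Laurent: finitely generated `ℤ[ℤ]`-modules have finite free resolutions

Let `C` be infinite cyclic with generator `t`, `R = ℤ[C] = ℤ[t, t⁻¹]`, `M` a finitely generated `R`-module, `M_0 ≤ M` a
finitely generated subgroup which generates `M` as an `R`-module.  `M_n = ∑_{0 ≤ i ≤ n} t^i M_0`, finitely generated
abelian groups, `t^j M_n ≤ M_(n+j)`, and `M_(n+1) = M_n + t^(n+1) M_0`.
(1) The subgroups `K_n = {m ∈ M_0 : t^n m ∈ M_(n-1)}` (`n ≥ 1`) of `M_0` increase with `n` (`t M_(n-1) ≤ M_n`), so they are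
constant for `n ≥ n_0` (`M_0` is a Noetherian `ℤ`-module).
(2) For `n ≥ n_0 (≥ 1)` and `j ≥ 0`: if `y ∈ M_n` and `t^j y ∈ M_(n+j-1)` then `y ∈ M_(n-1)`.  Write `y = y' + t^n m`, `y' ∈ M_(n-1)`,
`m ∈ M_0`; then `t^(n+j) m = t^j y - t^j y' ∈ M_(n+j-1)`, so `m ∈ K_(n+j) = K_n`, `t^n m ∈ M_(n-1)`.
(3) Fix `n ≥ n_0`, `n ≥ 1`.  Let `C →₀ M_(n-1)` and `C →₀ M_n` be the `R`-modules with `C` acting by translation (induced
from the trivial group).  The sequence
`0 → (C →₀ M_(n-1)) → (C →₀ M_n) → M → 0`, `δ_(t^i) ⊗ m ↦ δ_(t^(i+1)) ⊗ m - δ_(t^i) ⊗ t m`, `δ_(t^i) ⊗ m ↦ t^i m`, is exact: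
surjective since `M_0 ≤ M_n` generates; injective on the left: look at the highest degree.  Middle: let
`y = ∑_{p ≤ i ≤ q} δ_(t^i) ⊗ y_i` with `∑ t^i y_i = 0`; induction on `q - p`.  If `q = p` then `t^p y_p = 0`, `y = 0`.  If `q > p`
then `t^(q-p) y_q = - ∑_{i < q} t^(i-p) y_i ∈ M_(n+q-p-1)`, so `y_q ∈ M_(n-1)` by (2), and subtracting the image of
`δ_(t^(q-1)) ⊗ y_q` replaces `y_q` by `0` and `y_(q-1)` by `y_(q-1) + t y_q ∈ M_n`.
(4) For a finitely generated abelian group `A` the module `C →₀ A` is (FF): there is an exact sequence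
`0 → ℤ^a → ℤ^b → A → 0` (subgroups of `ℤ^b` are free of finite rank), and `C →₀ ·` is exact, `C →₀ ℤ^a ≃ R^a`.  (Or use
`ind_ff` with the inclusion of the trivial group.)
(5) So `M` is (FF) by `ff_coker`.
-/

set_option linter.unusedSectionVars false

namespace Pool.Agent.Hhelper49.Srf

open Pool.Agent.Hhelper49.Srr

namespace Lau

section
variable {C : Type} [Group C] (e : C ≃* Multiplicative ℤ)

/-- the degree of an element of `C` -/
def dg (c : C) : ℤ := Multiplicative.toAdd (e c)

/-- the element of degree `i` -/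
def gen (i : ℤ) : C := e.symm (Multiplicative.ofAdd i)

theorem dg_gen (i : ℤ) : dg e (gen e i) = i := by
  simp [dg, gen]

theorem gen_dg (c : C) : gen e (dg e c) = c := by
  simp [dg, gen]

theorem dg_mul (c d : C) : dg e (c * d) = dg e c + dg e d := by
  simp [dg]

theorem dg_one : dg e 1 = 0 := by
  simp [dg]

theorem gen_add (i j : ℤ) : gen e (i + j) = gen e i * gen e j := by
  simp [gen]

theorem gen_zero : gen e 0 = 1 := by
  simp [gen]

/-- finitely supported functions `ℤ → A`, `C` acts by translation -/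
def Sh (_ : C ≃* Multiplicative ℤ) (A : Type) [AddCommGroup A] : Type := ℤ →₀ A

variable (A : Type) [AddCommGroup A]

noncomputable instance : AddCommGroup (Sh e A) := inferInstanceAs (AddCommGroup (ℤ →₀ A))

/-- the translation action -/
noncomputable def shHom : C →* Module.End ℤ (ℤ →₀ A) where
  toFun g := Finsupp.lmapDomain A ℤ (fun x => dg e g + x)
  map_one' := by
    apply LinearMap.ext
    intro a
    change Finsupp.mapDomain (fun x => dg e (1 : C) + x) a = a
    simp only [dg_one, zero_add]
    exact Finsupp.mapDomain_id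
  map_mul' g h := by
    apply LinearMap.ext
    intro a
    change Finsupp.mapDomain (fun x => dg e (g * h) + x) a =
      Finsupp.mapDomain (fun x => dg e g + x) (Finsupp.mapDomain (fun x => dg e h + x) a)
    rw [← Finsupp.mapDomain_comp]
    congr 1
    funext x
    simp only [Function.comp, dg_mul, add_assoc]

noncomputable instance : Module (MonoidAlgebra ℤ C) (Sh e A) := modOf (A := ℤ →₀ A) (shHom e A)

variable {A}

/-- the basis elements -/
noncomputable def Sh.single (x : ℤ) : A →+ Sh e A := Finsupp.singleAddHom x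

variable {e} in
/-- the coefficients -/
noncomputable def Sh.coeff (x : ℤ) : Sh e A →+ A := Finsupp.applyAddHom x

variable {e} in
theorem Sh.ext {a b : Sh e A} (h : ∀ x, Sh.coeff x a = Sh.coeff x b) : a = b :=
  Finsupp.ext (f := (a : ℤ →₀ A)) h

theorem Sh.coeff_single (x y : ℤ) (a : A) :
    Sh.coeff y (Sh.single e x a) = if x = y then a else 0 := by
  change (Finsupp.single x a : ℤ →₀ A) y = _
  rw [Finsupp.single_apply]

variable {e} in
theorem Sh.induction {p : Sh e A → Prop} (a : Sh e A) (h0 : p 0)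
    (hadd : ∀ a b, p a → p b → p (a + b)) (hs : ∀ x n, p (Sh.single e x n)) : p a :=
  Finsupp.induction_linear (a : ℤ →₀ A) h0 (fun a b => hadd a b) (fun x n => hs x n)

variable {e} in
/-- the support -/
noncomputable def Sh.supp (a : Sh e A) : Finset ℤ := Finsupp.support (a : ℤ →₀ A)

variable {e} in
theorem Sh.mem_supp (a : Sh e A) (i : ℤ) : i ∈ a.supp ↔ Sh.coeff i a ≠ 0 :=
  Finsupp.mem_support_iff (f := (a : ℤ →₀ A))

variable {e} in
theorem Sh.sum_single (a : Sh e A) : a = ∑ i ∈ a.supp, Sh.single e i (Sh.coeff i a) := by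
  have h := Finsupp.sum_single (a : ℤ →₀ A)
  exact h.symm

theorem Sh.act_single (g : C) (x : ℤ) (a : A) :
    act g (Sh.single e x a) = Sh.single e (dg e g + x) a := by
  have h := modOf_act (A := ℤ →₀ A) (shHom e A) g (Finsupp.single x a)
  have h2 : (shHom e A g) (Finsupp.single x a) = Finsupp.single (dg e g + x) a :=
    Finsupp.mapDomain_single
  exact h.trans h2

/-- maps out of `Sh` -/
noncomputable def Sh.lift {B : Type} [AddCommGroup B] (f : ℤ → A →+ B) : Sh e A →+ B :=
  Finsupp.liftAddHom (M := A) f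

theorem Sh.lift_single {B : Type} [AddCommGroup B] (f : ℤ → A →+ B) (x : ℤ) (a : A) :
    Sh.lift e f (Sh.single e x a) = f x a :=
  Finsupp.liftAddHom_apply_single (M := A) f x a

/-- equivariance can be tested on the basis elements -/
theorem Sh.equi {B : Type} [AddCommGroup B] [Module (MonoidAlgebra ℤ C) B] (f : ℤ → A →+ B)
    (hf : ∀ (g : C) (x : ℤ) (a : A), f (dg e g + x) a = act g (f x a)) (g : C) (a : Sh e A) :
    Sh.lift e f (act g a) = act g (Sh.lift e f a) := by
  induction a using Sh.induction with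
  | h0 => rw [act, smul_zero, map_zero, act, smul_zero]
  | hadd a b ha hb =>
    have h1 : act g (a + b) = act g a + act g b := smul_add _ _ _
    have h2 : act g (Sh.lift e f a + Sh.lift e f b) =
      act g (Sh.lift e f a) + act g (Sh.lift e f b) := smul_add _ _ _
    rw [h1, map_add, map_add, h2, ha, hb]
  | hs x n => rw [Sh.act_single, Sh.lift_single, Sh.lift_single, hf]

/-- linear maps out of `Sh` -/
noncomputable def Sh.lin {B : Type} [AddCommGroup B] [Module (MonoidAlgebra ℤ C) B]
    (f : ℤ → A →+ B)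
    (hf : ∀ (g : C) (x : ℤ) (a : A), f (dg e g + x) a = act g (f x a)) :
    Sh e A →ₗ[MonoidAlgebra ℤ C] B := mkLin (Sh.lift e f) (Sh.equi e f hf)

theorem Sh.lin_single {B : Type} [AddCommGroup B] [Module (MonoidAlgebra ℤ C) B]
    (f : ℤ → A →+ B)
    (hf : ∀ (g : C) (x : ℤ) (a : A), f (dg e g + x) a = act g (f x a)) (x : ℤ) (a : A) :
    Sh.lin e f hf (Sh.single e x a) = f x a := Sh.lift_single e f x a

/-- functoriality -/
noncomputable def Sh.map {B : Type} [AddCommGroup B] (f : A →+ B) :
    Sh e A →ₗ[MonoidAlgebra ℤ C] Sh e B :=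
  Sh.lin e (fun i => (Sh.single e i).comp f) (by
    intro g x a
    simp only [AddMonoidHom.comp_apply]
    rw [Sh.act_single])

theorem Sh.map_single {B : Type} [AddCommGroup B] (f : A →+ B) (i : ℤ) (a : A) :
    Sh.map e f (Sh.single e i a) = Sh.single e i (f a) := by
  rw [Sh.map, Sh.lin_single]
  rfl

theorem Sh.coeff_map {B : Type} [AddCommGroup B] (f : A →+ B) (i : ℤ) (a : Sh e A) :
    Sh.coeff i (Sh.map e f a) = f (Sh.coeff i a) := by
  induction a using Sh.induction with
  | h0 => simp
  | hadd a b ha hb => rw [map_add, map_add, map_add, ha, hb, map_add]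
  | hs x n =>
    rw [Sh.map_single, Sh.coeff_single, Sh.coeff_single]
    split_ifs with h
    · rfl
    · rw [map_zero]

/-- a finitely generated free abelian group gives a free module -/
theorem sh_free (b : ℕ) (β : Module.Basis (Fin b) ℤ A) : FF (MonoidAlgebra ℤ C) (Sh e A) := by
  classical
  let F : (Fin b → MonoidAlgebra ℤ C) →ₗ[MonoidAlgebra ℤ C] Sh e A :=
    (Pi.basisFun (MonoidAlgebra ℤ C) (Fin b)).constr ℤ (fun j => Sh.single e 0 (β j))
  have hF1 : ∀ (j : Fin b) (c : C) (r : ℤ), F (Pi.single j (MonoidAlgebra.single c r)) =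
      Sh.single e (dg e c) (r • β j) := by
    intro j c r
    have h1 : F (Pi.single j (1 : MonoidAlgebra ℤ C)) = Sh.single e 0 (β j) := by
      have h2 := (Pi.basisFun (MonoidAlgebra ℤ C) (Fin b)).constr_basis ℤ
        (fun j => Sh.single e 0 (β j)) j
      rw [Pi.basisFun_apply] at h2
      exact h2
    have h2 : (Pi.single j (MonoidAlgebra.single c r) : Fin b → MonoidAlgebra ℤ C) =
        (MonoidAlgebra.single c r : MonoidAlgebra ℤ C) •
          (Pi.single j (1 : MonoidAlgebra ℤ C) : Fin b → MonoidAlgebra ℤ C) := by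
      rw [← Pi.single_smul, smul_eq_mul, mul_one]
    rw [h2, map_smul, h1, single_smul, Sh.act_single, add_zero, map_zsmul]
  have hF2 : ∀ (x : Fin b → MonoidAlgebra ℤ C) (c : C) (j : Fin b),
      β.repr (Sh.coeff (dg e c) (F x)) j = (x j).coeff c := by
    intro x c j
    have hx : x = ∑ i, Pi.single i (x i) := by
      funext i
      simp [Finset.sum_apply]
    have key : ∀ (i : Fin b) (y : MonoidAlgebra ℤ C),
        β.repr (Sh.coeff (dg e c) (F (Pi.single i y))) j =
          (Pi.single (M := fun _ => MonoidAlgebra ℤ C) i y j).coeff c := by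
      intro i y
      induction y using MonoidAlgebra.induction_linear with
      | zero => simp
      | add y z hy hz =>
        rw [Pi.single_add, map_add, map_add, map_add, Finsupp.add_apply, hy, hz, Pi.add_apply]
        rfl
      | single g r =>
        rw [hF1, Sh.coeff_single]
        by_cases h1 : g = c
        · subst h1
          rw [if_pos rfl, map_smul, Finsupp.smul_apply, β.repr_self]
          by_cases h2 : i = j
          · subst h2
            rw [Finsupp.single_eq_same, Pi.single_eq_same]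
            simp
          · rw [Finsupp.single_eq_of_ne (Ne.symm h2), Pi.single_eq_of_ne (Ne.symm h2)]
            simp
        · rw [if_neg (fun h => h1 (by rw [← gen_dg e g, ← gen_dg e c, h])), map_zero]
          by_cases h2 : i = j
          · subst h2
            rw [Pi.single_eq_same]
            simp [h1]
          · rw [Pi.single_eq_of_ne (Ne.symm h2)]
            simp
    conv_lhs => rw [hx]
    rw [map_sum, map_sum, map_sum, Finsupp.finsetSum_apply]
    rw [Finset.sum_congr rfl (fun i _ => key i (x i))]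
    rw [Finset.sum_eq_single j]
    · rw [Pi.single_eq_same]
    · intro i _ hi
      rw [Pi.single_eq_of_ne (Ne.symm hi)]
      rfl
    · intro h
      exact absurd (Finset.mem_univ j) h
  have hinj : Function.Injective F := by
    rw [injective_iff_map_eq_zero]
    intro x hx
    funext j
    refine MonoidAlgebra.coeff_injective (Finsupp.ext fun c => ?_)
    rw [← hF2 x c j, hx, map_zero, map_zero]
    rfl
  have hsurj : Function.Surjective F := by
    intro y
    have : y ∈ LinearMap.range F := by
      induction y using Sh.induction with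
      | h0 => exact Submodule.zero_mem _
      | hadd a b ha hb => exact Submodule.add_mem _ ha hb
      | hs i a =>
        have h1 : Sh.single e i a = ∑ j, Sh.single e i ((β.repr a j) • β j) := by
          rw [← map_sum, β.sum_repr]
        rw [h1]
        refine Submodule.sum_mem _ fun j _ => ?_
        refine ⟨Pi.single j (MonoidAlgebra.single (gen e i) (β.repr a j)), ?_⟩
        rw [hF1, dg_gen]
    exact this
  exact ff_iso (LinearEquiv.ofBijective F ⟨hinj, hsurj⟩) (ff_pow b)

theorem sh_ff (hA : Module.Finite ℤ A) : FF (MonoidAlgebra ℤ C) (Sh e A) := by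
  obtain ⟨b, g, hg⟩ := Module.Finite.exists_fin' ℤ A
  let K := LinearMap.ker g
  let β := Module.finBasis ℤ K
  have h1 : FF (MonoidAlgebra ℤ C) (Sh e K) := sh_free e _ β
  have h2 : FF (MonoidAlgebra ℤ C) (Sh e (Fin b → ℤ)) := sh_free e _ (Pi.basisFun ℤ (Fin b))
  refine ff_coker (Sh.map e (K.subtype.toAddMonoidHom)) (Sh.map e g.toAddMonoidHom) ?_ ?_ ?_ h1 h2
  · rw [injective_iff_map_eq_zero]
    intro x hx
    refine Sh.ext fun i => ?_
    have h3 := Sh.coeff_map e K.subtype.toAddMonoidHom i x
    rw [hx, map_zero] at h3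
    rw [map_zero]
    exact Subtype.ext h3.symm
  · intro y
    have : y ∈ LinearMap.range (Sh.map e g.toAddMonoidHom) := by
      induction y using Sh.induction with
      | h0 => exact Submodule.zero_mem _
      | hadd a b ha hb => exact Submodule.add_mem _ ha hb
      | hs i a =>
        obtain ⟨x, hx⟩ := hg a
        exact ⟨Sh.single e i x, by rw [Sh.map_single]; exact congrArg _ hx⟩
    exact this
  · apply le_antisymm
    · rintro _ ⟨x, rfl⟩
      rw [LinearMap.mem_ker]
      refine Sh.ext fun i => ?_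
      rw [Sh.coeff_map, Sh.coeff_map, map_zero]
      exact (Sh.coeff i x).2
    · intro y hy
      rw [LinearMap.mem_ker] at hy
      rw [Sh.sum_single y]
      refine Submodule.sum_mem _ fun i _ => ?_
      have h3 : g (Sh.coeff i y) = 0 := by
        have := Sh.coeff_map e g.toAddMonoidHom i y
        rw [hy, map_zero] at this
        exact this.symm
      exact ⟨Sh.single e i (⟨Sh.coeff i y, h3⟩ : K), by rw [Sh.map_single]; rfl⟩

end

section filtration
variable {C : Type} [Group C] (e : C ≃* Multiplicative ℤ)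
variable (M : Type) [AddCommGroup M] [Module (MonoidAlgebra ℤ C) M]

/-- the action of the element of degree `i` -/
noncomputable def ac (i : ℤ) : M →ₗ[ℤ] M :=
  AddMonoidHom.toIntLinearMap
    { toFun := fun m => act (gen e i) m
      map_zero' := smul_zero _
      map_add' := fun a b => smul_add _ a b }

variable {M}

theorem ac_apply (i : ℤ) (m : M) : ac e M i m = act (gen e i) m := rfl

theorem ac_add (i j : ℤ) (m : M) : ac e M (i + j) m = ac e M i (ac e M j m) := by
  rw [ac_apply, ac_apply, ac_apply, gen_add, act_mul]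

theorem ac_zero (m : M) : ac e M 0 m = m := by
  rw [ac_apply, gen_zero, act_one]

theorem ac_neg_ac (i : ℤ) (m : M) : ac e M (-i) (ac e M i m) = m := by
  rw [← ac_add, neg_add_cancel, ac_zero]

theorem ac_eq_zero {i : ℤ} {m : M} (h : ac e M i m = 0) : m = 0 := by
  rw [← ac_neg_ac e i m, h, map_zero]

variable (M₀ : Submodule ℤ M)

/-- the filtration -/
noncomputable def fil : ℕ → Submodule ℤ M
  | 0 => M₀
  | n + 1 => fil n ⊔ M₀.map (ac e M ((n + 1 : ℕ) : ℤ))

theorem fil_zero : fil e M₀ 0 = M₀ := rfl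

theorem fil_succ (n : ℕ) :
    fil e M₀ (n + 1) = fil e M₀ n ⊔ M₀.map (ac e M ((n + 1 : ℕ) : ℤ)) := rfl

theorem fil_mono : Monotone (fil e M₀) :=
  monotone_nat_of_le_succ fun n => by rw [fil_succ]; exact le_sup_left

theorem fil_fg (h : M₀.FG) (n : ℕ) : (fil e M₀ n).FG := by
  induction n with
  | zero => exact h
  | succ n ih => rw [fil_succ]; exact ih.sup (h.map _)

theorem fil_ac_one (n : ℕ) {m : M} (hm : m ∈ fil e M₀ n) : ac e M 1 m ∈ fil e M₀ (n + 1) := by
  induction n generalizing m with
  | zero =>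
    rw [fil_succ]
    refine Submodule.mem_sup_right ⟨m, hm, ?_⟩
    rfl
  | succ n ih =>
    rw [fil_succ, Submodule.mem_sup] at hm
    obtain ⟨y, hy, z, ⟨w, hw, rfl⟩, rfl⟩ := hm
    rw [map_add]
    refine Submodule.add_mem _ (fil_mono e M₀ (Nat.le_succ _) (ih hy)) ?_
    rw [fil_succ]
    refine Submodule.mem_sup_right ⟨w, hw, ?_⟩
    rw [← ac_add]
    congr 2
    push_cast
    ring

theorem fil_ac (n j : ℕ) {m : M} (hm : m ∈ fil e M₀ n) :
    ac e M (j : ℤ) m ∈ fil e M₀ (n + j) := by
  induction j with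
  | zero =>
    rw [Nat.cast_zero, ac_zero]
    exact hm
  | succ j ih =>
    have h1 : ac e M ((j + 1 : ℕ) : ℤ) m = ac e M 1 (ac e M (j : ℤ) m) := by
      rw [← ac_add]
      congr 2
      push_cast
      ring
    rw [h1, ← add_assoc]
    exact fil_ac_one e M₀ _ ih

theorem fil_stab (h : M₀.FG) : ∃ n₀ : ℕ, ∀ (j : ℕ) (y : M), y ∈ fil e M₀ (n₀ + 1) →
    ac e M (j : ℤ) y ∈ fil e M₀ (n₀ + j) → y ∈ fil e M₀ n₀ := by
  have hfin : Module.Finite ℤ M₀ := Module.Finite.iff_fg.2 h
  have hnoeth : IsNoetherian ℤ M₀ := inferInstance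
  let K : ℕ → Submodule ℤ M₀ := fun n =>
    (fil e M₀ n).comap ((ac e M ((n + 1 : ℕ) : ℤ)).comp M₀.subtype)
  have hK : Monotone K := by
    refine monotone_nat_of_le_succ fun n => ?_
    intro m hm
    have hm' : ac e M ((n + 1 : ℕ) : ℤ) (m : M) ∈ fil e M₀ n := hm
    show ac e M ((n + 1 + 1 : ℕ) : ℤ) (m : M) ∈ fil e M₀ (n + 1)
    have h1 : ac e M ((n + 1 + 1 : ℕ) : ℤ) (m : M) =
        ac e M 1 (ac e M ((n + 1 : ℕ) : ℤ) (m : M)) := by
      rw [← ac_add]
      congr 2
      push_cast
      ring
    rw [h1]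
    exact fil_ac_one e M₀ _ hm'
  obtain ⟨n₀, hn₀⟩ := monotone_stabilizes_iff_noetherian.2 hnoeth ⟨K, hK⟩
  refine ⟨n₀, fun j y hy hj => ?_⟩
  rw [fil_succ, Submodule.mem_sup] at hy
  obtain ⟨y', hy', z, ⟨w, hw, rfl⟩, rfl⟩ := hy
  refine Submodule.add_mem _ hy' ?_
  have h1 : ac e M ((n₀ + j + 1 : ℕ) : ℤ) w ∈ fil e M₀ (n₀ + j) := by
    have h2 : ac e M ((n₀ + j + 1 : ℕ) : ℤ) w =
        ac e M (j : ℤ) (y' + ac e M ((n₀ + 1 : ℕ) : ℤ) w) - ac e M (j : ℤ) y' := by
      rw [map_add, add_sub_cancel_left, ← ac_add]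
      congr 2
      push_cast
      ring
    rw [h2]
    exact Submodule.sub_mem _ hj (fil_ac e M₀ _ _ hy')
  have h3 : (⟨w, hw⟩ : M₀) ∈ K (n₀ + j) := h1
  have h4 : K n₀ = K (n₀ + j) := hn₀ (n₀ + j) (Nat.le_add_right _ _)
  rw [← h4] at h3
  exact h3

end filtration

section main
variable {C : Type} [Group C] (e : C ≃* Multiplicative ℤ)
variable {M : Type} [AddCommGroup M] [Module (MonoidAlgebra ℤ C) M]

/-- evaluation `Sh B → M` -/
noncomputable def evB (B : Submodule ℤ M) : Sh e B →ₗ[MonoidAlgebra ℤ C] M :=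
  Sh.lin e (fun i => ((ac e M i).comp B.subtype).toAddMonoidHom) (by
    intro g x a
    show act (gen e (dg e g + x)) (a : M) = act g (act (gen e x) (a : M))
    rw [gen_add, gen_dg, act_mul])

theorem evB_single (B : Submodule ℤ M) (i : ℤ) (a : B) :
    evB e B (Sh.single e i a) = ac e M i (a : M) := by
  rw [evB, Sh.lin_single]
  rfl

/-- the map `Sh A → Sh B` -/
noncomputable def dlt {A B : Type} [AddCommGroup A] [AddCommGroup B] (u v : A →+ B) :
    Sh e A →ₗ[MonoidAlgebra ℤ C] Sh e B :=
  Sh.lin e (fun i => (Sh.single e (i + 1)).comp u - (Sh.single e i).comp v) (by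
    intro g x a
    simp only [AddMonoidHom.sub_apply, AddMonoidHom.comp_apply]
    have h : ∀ y z : Sh e B, act g (y - z) = act g y - act g z := fun y z => smul_sub _ _ _
    rw [h, Sh.act_single, Sh.act_single, add_assoc])

theorem dlt_single {A B : Type} [AddCommGroup A] [AddCommGroup B] (u v : A →+ B) (i : ℤ) (a : A) :
    dlt e u v (Sh.single e i a) = Sh.single e (i + 1) (u a) - Sh.single e i (v a) := by
  rw [dlt, Sh.lin_single]
  rfl

theorem dlt_coeff {A B : Type} [AddCommGroup A] [AddCommGroup B] (u v : A →+ B) (i : ℤ)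
    (x : Sh e A) :
    Sh.coeff i (dlt e u v x) = u (Sh.coeff (i - 1) x) - v (Sh.coeff i x) := by
  induction x using Sh.induction with
  | h0 => simp
  | hadd a b ha hb =>
    rw [map_add, map_add, ha, hb, map_add, map_add, map_add, map_add]
    abel
  | hs x n =>
    rw [dlt_single, map_sub, Sh.coeff_single, Sh.coeff_single, Sh.coeff_single, Sh.coeff_single]
    have h : x + 1 = i ↔ x = i - 1 := by omega
    simp only [h]
    split_ifs <;> simp

theorem dlt_inj {A B : Type} [AddCommGroup A] [AddCommGroup B] (u v : A →+ B)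
    (hv : Function.Injective v) : Function.Injective (dlt e u v) := by
  rw [injective_iff_map_eq_zero]
  intro x hx
  by_contra hne
  have hsup : x.supp.Nonempty := by
    rw [Finset.nonempty_iff_ne_empty]
    intro h
    apply hne
    rw [Sh.sum_single x, h, Finset.sum_empty]
  have hm := x.supp.min'_mem hsup
  set i := x.supp.min' hsup with hi
  rw [Sh.mem_supp] at hm
  have h1 : Sh.coeff (i - 1) x = 0 := by
    by_contra h2
    have h3 := x.supp.min'_le (i - 1) ((Sh.mem_supp x _).2 h2)
    rw [← hi] at h3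
    omega
  have h2 := dlt_coeff e u v i x
  rw [hx, map_zero, h1, map_zero, zero_sub, eq_comm, neg_eq_zero] at h2
  exact hm (hv (by rw [h2, map_zero]))

include e in
theorem ff_of_fg (hM : Module.Finite (MonoidAlgebra ℤ C) M) : FF (MonoidAlgebra ℤ C) M := by
  obtain ⟨s, hs⟩ := hM.fg_top
  let M₀ : Submodule ℤ M := Submodule.span ℤ (s : Set M)
  have hfg : M₀.FG := ⟨s, rfl⟩
  obtain ⟨n₀, hn₀⟩ := fil_stab e M₀ hfg
  let A : Submodule ℤ M := fil e M₀ n₀
  let B : Submodule ℤ M := fil e M₀ (n₀ + 1)
  have hAB : A ≤ B := fil_mono e M₀ (Nat.le_succ _)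
  let u : A →+ B := (Submodule.inclusion hAB).toAddMonoidHom
  let v : A →+ B := ((((ac e M 1).comp A.subtype).codRestrict B (fun a =>
    fil_ac_one e M₀ n₀ a.2)) : A →ₗ[ℤ] B).toAddMonoidHom
  have hu : ∀ a : A, ((u a : B) : M) = (a : M) := fun a => rfl
  have hv : ∀ a : A, ((v a : B) : M) = ac e M 1 (a : M) := fun a => rfl
  have hvinj : Function.Injective v := by
    rw [injective_iff_map_eq_zero]
    intro a ha
    have h1 : ac e M 1 (a : M) = 0 := by rw [← hv, ha]; rfl
    exact Subtype.ext (ac_eq_zero e h1)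
  have hcomp : ∀ x : Sh e A, evB e B (dlt e u v x) = 0 := by
    intro x
    induction x using Sh.induction with
    | h0 => rw [map_zero, map_zero]
    | hadd a b ha hb => rw [map_add, map_add, ha, hb, add_zero]
    | hs i a =>
      rw [dlt_single, map_sub, evB_single, evB_single, hu, hv, ← ac_add, sub_self]
  have hBsup : ∀ (N : ℕ) (p : ℤ) (z : Sh e B), (∀ i, Sh.coeff i z ≠ 0 → p ≤ i ∧ i ≤ p + N) →
      ac e M (-p) (evB e B z) ∈ fil e M₀ (n₀ + 1 + N) := by
    intro N p z hz
    rw [Sh.sum_single z, map_sum, map_sum]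
    refine Submodule.sum_mem _ fun i hi => ?_
    obtain ⟨h1, h2⟩ := hz i ((Sh.mem_supp z i).1 hi)
    rw [evB_single, ← ac_add]
    obtain ⟨j, hj⟩ : ∃ j : ℕ, -p + i = (j : ℤ) := ⟨(-p + i).toNat, by omega⟩
    rw [hj]
    exact fil_mono e M₀ (by omega) (fil_ac e M₀ (n₀ + 1) j (Sh.coeff i z).2)
  have hexact : ∀ (N : ℕ) (p : ℤ) (y : Sh e B), (∀ i, Sh.coeff i y ≠ 0 → p ≤ i ∧ i ≤ p + N) →
      evB e B y = 0 → y ∈ LinearMap.range (dlt e u v) := by
    intro N
    induction N with
    | zero =>
      intro p y hy h0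
      have h1 : y = Sh.single e p (Sh.coeff p y) := by
        refine Sh.ext fun i => ?_
        rw [Sh.coeff_single]
        split_ifs with h
        · rw [h]
        · by_contra h2
          have := hy i h2
          omega
      rw [h1, evB_single] at h0
      have h2 : Sh.coeff p y = 0 := Subtype.ext (ac_eq_zero e h0)
      rw [h1, h2, map_zero]
      exact Submodule.zero_mem _
    | succ N ih =>
      intro p y hy h0
      set q : ℤ := p + (N + 1 : ℕ) with hq
      set b : B := Sh.coeff q y with hb
      -- the truncation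
      let z : Sh e B := y - Sh.single e q b
      have hz : ∀ i, Sh.coeff i z ≠ 0 → p ≤ i ∧ i ≤ p + N := by
        intro i hi
        have h1 : Sh.coeff i z = Sh.coeff i y - if q = i then b else 0 := by
          rw [← Sh.coeff_single e q i b, ← map_sub]
        by_cases h2 : q = i
        · exfalso
          apply hi
          rw [h1, if_pos h2, hb, h2, sub_self]
        · rw [h1, if_neg h2, sub_zero] at hi
          have := hy i hi
          omega
      have h1 := hBsup N p z hz
      have h2 : evB e B z = - ac e M q (b : M) := by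
        show evB e B (y - Sh.single e q b) = _
        rw [map_sub, h0, evB_single, zero_sub]
      rw [h2, map_neg, Submodule.neg_mem_iff, ← ac_add] at h1
      have h3 : -p + q = ((N + 1 : ℕ) : ℤ) := by omega
      rw [h3] at h1
      have hbA : (b : M) ∈ A := by
        refine hn₀ (N + 1) b b.2 ?_
        have h4 : n₀ + (N + 1) = n₀ + 1 + N := by omega
        rw [h4]
        exact h1
      let a : A := ⟨(b : M), hbA⟩
      have hua : u a = b := Subtype.ext rfl
      have h5 : y - dlt e u v (Sh.single e (q - 1) a) ∈ LinearMap.range (dlt e u v) := by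
        refine ih p _ ?_ (by rw [map_sub, h0, hcomp, sub_zero])
        intro i hi
        have h6 : Sh.coeff i (y - dlt e u v (Sh.single e (q - 1) a)) =
            Sh.coeff i y - ((if q = i then b else 0) - if q - 1 = i then v a else 0) := by
          rw [dlt_single, sub_add_cancel, hua, map_sub, map_sub, Sh.coeff_single,
            Sh.coeff_single]
        by_cases h7 : q = i
        · exfalso
          apply hi
          rw [h6, if_pos h7, if_neg (by omega), sub_zero, ← h7, ← hb, sub_self]
        · by_cases h8 : q - 1 = i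
          · omega
          · rw [h6, if_neg h7, if_neg h8, sub_zero, sub_zero] at hi
            have := hy i hi
            omega
      have h9 := Submodule.add_mem _ h5 (LinearMap.mem_range_self (dlt e u v)
        (Sh.single e (q - 1) a))
      rwa [sub_add_cancel] at h9
  refine ff_coker (dlt e u v) (evB e B) (dlt_inj e u v hvinj) ?_ ?_
    (sh_ff e (Module.Finite.iff_fg.2 (fil_fg e M₀ hfg _)))
    (sh_ff e (Module.Finite.iff_fg.2 (fil_fg e M₀ hfg _)))
  · rw [← LinearMap.range_eq_top, eq_top_iff, ← hs, Submodule.span_le]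
    intro m hm
    have hmB : m ∈ B := fil_mono e M₀ (Nat.zero_le _) (Submodule.subset_span hm)
    refine ⟨Sh.single e 0 (⟨m, hmB⟩ : B), ?_⟩
    rw [evB_single, ac_zero]
  · apply le_antisymm
    · rintro _ ⟨x, rfl⟩
      exact hcomp x
    · intro y hy
      rw [LinearMap.mem_ker] at hy
      by_cases hne : y.supp.Nonempty
      · refine hexact (y.supp.max' hne - y.supp.min' hne).toNat (y.supp.min' hne) y ?_ hy
        intro i hi
        have h1 := y.supp.min'_le i ((Sh.mem_supp y i).2 hi)
        have h2 := y.supp.le_max' i ((Sh.mem_supp y i).2 hi)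
        omega
      · have h1 : y = 0 := by
          rw [Sh.sum_single y, Finset.not_nonempty_iff_eq_empty.1 hne, Finset.sum_empty]
        rw [h1]
        exact Submodule.zero_mem _

end main

end Lau

open Lau

theorem projFF_of_cyclic (C : Type) [Group C] (e : C ≃* Multiplicative ℤ) : ProjFF C := by
  intro U _ _ hU _
  exact ff_of_fg e hU

end Pool.Agent.Hhelper49.Srf
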