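import Mathlib

/-!
# Module Lin: linear representations of groups without finite quotients

`Γ` finitely generated without proper subgroups of finite index, `f : Γ →* GL_n(F)`.  Suppose `f g ≠ 1`.  Let `A` be the
subring of `F` generated by the entries of the `f(γ)` and `f(γ)⁻¹`, `γ` in a finite generating set: a domain, finitely
generated as a ring, so a Jacobson ring; all entries of all `f γ` are in `A`.  Some entry `x` of `f g - 1` is nonzero;
as the intersection of the maximal ideals of `A` is `0` there is a maximal ideal `M` with `x ∉ M`.  `A / M` is a finite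
field (`A` is of finite type over `ℤ`, see Pool/Agent/Hhelper49/Srd/Malcev.lean for the same argument).  The
homomorphism `Γ → GL_n(A / M)` has finite image and is not trivial at `g`, so its kernel is a proper subgroup of
finite index.  Contradiction.
-/

namespace Pool.Agent.Hhelper49.Srf

namespace Lin

theorem isJacobsonRing_int : IsJacobsonRing ℤ := by
  rw [isJacobsonRing_iff_prime_eq]
  intro P hP
  by_cases h0 : P = ⊥
  · subst h0
    refine le_antisymm ?_ bot_le
    intro x hx
    by_contra hx0
    have hx0 : x ≠ 0 := by simpa using hx0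
    obtain ⟨p, hp1, hp⟩ := Nat.exists_infinite_primes (x.natAbs + 1)
    have hmax : (Ideal.span {(p : ℤ)}).IsMaximal :=
      PrincipalIdealRing.isMaximal_of_irreducible
        (Nat.prime_iff_prime_int.mp hp).irreducible
    have hmem : x ∈ Ideal.span {(p : ℤ)} := by
      rw [Ideal.jacobson, Submodule.mem_sInf] at hx
      exact hx _ ⟨bot_le, hmax⟩
    rw [Ideal.mem_span_singleton] at hmem
    have h1 : p ∣ x.natAbs := Int.natCast_dvd.mp hmem
    have := Nat.le_of_dvd (Int.natAbs_pos.mpr hx0) h1
    omega
  · have : P.IsMaximal := hP.isMaximal h0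
    exact Ideal.jacobson_eq_self_of_isMaximal

/-- residue fields of finitely generated rings are finite -/
theorem finite_quot (A : Type) [CommRing A] [Algebra.FiniteType ℤ A] (M : Ideal A)
    (hM : M.IsMaximal) : Finite (A ⧸ M) := by
  have := isJacobsonRing_int
  have := hM
  let _ : Field (A ⧸ M) := Ideal.Quotient.field M
  have : Algebra.FiniteType ℤ (A ⧸ M) := inferInstance
  have hfin : Module.Finite ℤ (A ⧸ M) := finite_of_finite_type_of_isJacobsonRing ℤ (A ⧸ M)
  obtain ⟨p, hp⟩ := CharP.exists (A ⧸ M)
  have hpp : p.Prime := by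
    rcases CharP.char_is_prime_or_zero (A ⧸ M) p with h | h
    · exact h
    · exfalso
      subst h
      have : CharZero (A ⧸ M) := CharP.charP_to_charZero (A ⧸ M)
      have hinj : Function.Injective (algebraMap ℤ (A ⧸ M)) := by
        intro a b hab
        rw [eq_intCast, eq_intCast] at hab
        exact Int.cast_injective hab
      exact Int.not_isField (isField_of_isIntegral_of_isField hinj (Field.toIsField (A ⧸ M)))
  apply Module.finite_of_fg_torsion
  intro x
  refine ⟨⟨(p : ℤ), mem_nonZeroDivisors_of_ne_zero (by exact_mod_cast hpp.ne_zero)⟩, ?_⟩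
  show (p : ℤ) • x = 0
  rw [zsmul_eq_mul]
  have : ((p : ℤ) : A ⧸ M) = 0 := by
    have := CharP.cast_eq_zero (A ⧸ M) p
    exact_mod_cast this
  rw [this, zero_mul]

theorem eq_zero_of_forall (A : Type) [CommRing A] [IsDomain A] [Algebra.FiniteType ℤ A] (x : A)
    (h : ∀ M : Ideal A, M.IsMaximal → x ∈ M) : x = 0 := by
  have := isJacobsonRing_int
  have : IsJacobsonRing A := isJacobsonRing_of_finiteType (A := ℤ)
  have hb : x ∈ (⊥ : Ideal A).jacobson := by
    rw [Ideal.jacobson, Submodule.mem_sInf]
    rintro M ⟨-, hM⟩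
    exact h M hM
  rw [IsJacobsonRing.out ‹IsJacobsonRing A› (Ideal.isPrime_bot.isRadical)] at hb
  simpa using hb

/-- the case of matrices over a finitely generated domain -/
theorem trivial_of_domain (Γ : Type) [Group Γ]
    (hfin : ∀ H : Subgroup Γ, H.FiniteIndex → H = ⊤) (A : Type) [CommRing A] [IsDomain A]
    [Algebra.FiniteType ℤ A] (n : ℕ) (f : Γ →* Matrix (Fin n) (Fin n) A) (g : Γ) : f g = 1 := by
  rw [← sub_eq_zero]
  ext i j
  apply eq_zero_of_forall
  intro M hM
  have := finite_quot A M hM
  let φ : Γ →* Matrix (Fin n) (Fin n) (A ⧸ M) :=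
    ((Ideal.Quotient.mk M).mapMatrix : Matrix (Fin n) (Fin n) A →+* _).toMonoidHom.comp f
  let ψ : Γ →* (Matrix (Fin n) (Fin n) (A ⧸ M))ˣ := φ.toHomUnits
  have h1 : ψ.ker = ⊤ := hfin _ inferInstance
  have h2 : ψ g = 1 := by
    rw [← MonoidHom.mem_ker, h1]
    exact Subgroup.mem_top g
  have h3 : φ g = 1 := by
    have := congrArg Units.val h2
    simpa [ψ] using this
  have h4 := congrFun (congrFun h3 i) j
  rw [← Ideal.Quotient.eq_zero_iff_mem, Matrix.sub_apply, map_sub, sub_eq_zero]
  have h5 : φ g i j = Ideal.Quotient.mk M (f g i j) := rfl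
  rw [← h5, h4]
  by_cases hij : i = j
  · subst hij; simp
  · simp [Matrix.one_apply_ne hij]

end Lin

theorem linear_trivial (Γ : Type) [Group Γ] (hfg : Group.FG Γ)
    (hfin : ∀ H : Subgroup Γ, H.FiniteIndex → H = ⊤) (F : Type) [Field F] (n : ℕ)
    (f : Γ →* Matrix.GeneralLinearGroup (Fin n) F) (g : Γ) : f g = 1 := by
  classical
  obtain ⟨_, S, _, hS⟩ := Group.fg_iff'.mp hfg
  -- the finite set of entries
  let X : Finset F := S.biUnion fun γ => (Finset.univ : Finset (Fin n × Fin n)).image
    (fun p => (f γ : Matrix (Fin n) (Fin n) F) p.1 p.2) ∪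
      (Finset.univ : Finset (Fin n × Fin n)).image
    (fun p => (f γ⁻¹ : Matrix (Fin n) (Fin n) F) p.1 p.2)
  let A : Subalgebra ℤ F := Algebra.adjoin ℤ (X : Set F)
  have hA : A.FG := ⟨X, rfl⟩
  have : Algebra.FiniteType ℤ A := A.fg_iff_finiteType.mp hA
  -- all entries are in `A`
  let K : Subgroup Γ :=
    { carrier := {γ | (∀ i j, (f γ : Matrix (Fin n) (Fin n) F) i j ∈ A) ∧
        ∀ i j, (f γ⁻¹ : Matrix (Fin n) (Fin n) F) i j ∈ A}
      mul_mem' := by
        rintro a b ⟨ha, ha'⟩ ⟨hb, hb'⟩
        constructor
        · intro i j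
          rw [map_mul, Units.val_mul, Matrix.mul_apply]
          exact Subalgebra.sum_mem _ fun k _ => A.mul_mem (ha i k) (hb k j)
        · intro i j
          rw [mul_inv_rev, map_mul, Units.val_mul, Matrix.mul_apply]
          exact Subalgebra.sum_mem _ fun k _ => A.mul_mem (hb' i k) (ha' k j)
      one_mem' := by
        constructor
        · intro i j
          rw [map_one, Units.val_one]
          by_cases hij : i = j
          · subst hij; rw [Matrix.one_apply_eq]; exact A.one_mem
          · rw [Matrix.one_apply_ne hij]; exact A.zero_mem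
        · intro i j
          rw [inv_one, map_one, Units.val_one]
          by_cases hij : i = j
          · subst hij; rw [Matrix.one_apply_eq]; exact A.one_mem
          · rw [Matrix.one_apply_ne hij]; exact A.zero_mem
      inv_mem' := by
        rintro a ⟨ha, ha'⟩
        refine ⟨ha', ?_⟩
        rw [inv_inv]
        exact ha }
  have hK : K = ⊤ := by
    rw [eq_top_iff, ← hS, Subgroup.closure_le]
    intro γ hγ
    constructor
    · intro i j
      apply Algebra.subset_adjoin
      rw [Finset.mem_coe, Finset.mem_biUnion]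
      exact ⟨γ, hγ, Finset.mem_union_left _ (Finset.mem_image.2 ⟨(i, j), Finset.mem_univ _, rfl⟩)⟩
    · intro i j
      apply Algebra.subset_adjoin
      rw [Finset.mem_coe, Finset.mem_biUnion]
      exact ⟨γ, hγ, Finset.mem_union_right _ (Finset.mem_image.2 ⟨(i, j), Finset.mem_univ _, rfl⟩)⟩
  have hent : ∀ γ i j, (f γ : Matrix (Fin n) (Fin n) F) i j ∈ A := by
    intro γ
    have : γ ∈ K := by rw [hK]; exact Subgroup.mem_top γ
    exact this.1
  let f' : Γ →* Matrix (Fin n) (Fin n) A :=
    { toFun := fun γ => Matrix.of fun i j => ⟨(f γ : Matrix (Fin n) (Fin n) F) i j, hent γ i j⟩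
      map_one' := by
        ext i j
        rw [Matrix.of_apply]
        simp only [map_one, Units.val_one]
        by_cases hij : i = j
        · subst hij; rw [Matrix.one_apply_eq, Matrix.one_apply_eq]; rfl
        · rw [Matrix.one_apply_ne hij, Matrix.one_apply_ne hij]; rfl
      map_mul' := by
        intro a b
        ext i j
        rw [Matrix.of_apply, Matrix.mul_apply]
        simp only [map_mul, Units.val_mul, Matrix.mul_apply, Matrix.of_apply]
        push_cast
        rfl }
  have h1 := Lin.trivial_of_domain Γ hfin A n f' g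
  apply Units.ext
  ext i j
  have h3 : ((f' g i j : A) : F) = (f g : Matrix (Fin n) (Fin n) F) i j := rfl
  rw [← h3, h1, Units.val_one]
  by_cases hij : i = j
  · subst hij; rw [Matrix.one_apply_eq, Matrix.one_apply_eq]; rfl
  · rw [Matrix.one_apply_ne hij, Matrix.one_apply_ne hij]; rfl

end Pool.Agent.Hhelper49.Srf
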