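import Pool.Agent.Hhelper49.Srf.HigmanG
import Pool.Agent.Hhelper49.Srf.Laurent
import Pool.Agent.Hhelper49.Srf.Prod
import Pool.Agent.Hhelper49.Srf.Lin
import Pool.Agent.Hhelper49.Srr.Final
import Pool.Agent.Hhelper49.Srd.FGen
import Pool.Agent.Hhelper49.Srd.TorF

/-!
# Final: every counterexample embeds in one without finite quotients
-/

namespace Pool.Agent.Hhelper49.Srf

open Pool.Agent.Hhelper49.Srr

/-- the finite residual -/
def fr (Γ : Type) [Group Γ] : Subgroup Γ := ⨅ H : {H : Subgroup Γ // H.FiniteIndex}, H.1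

theorem mem_fr {Γ : Type} [Group Γ] (x : Γ) :
    x ∈ fr Γ ↔ ∀ H : Subgroup Γ, H.FiniteIndex → x ∈ H := by
  rw [fr, Subgroup.mem_iInf]
  exact ⟨fun h H hH => h ⟨H, hH⟩, fun h H => h H.1 H.2⟩

theorem fr_map {Γ Γ' : Type} [Group Γ] [Group Γ'] (f : Γ →* Γ') (x : Γ) (hx : x ∈ fr Γ) :
    f x ∈ fr Γ' := by
  rw [mem_fr] at hx ⊢
  intro H hH
  have h1 : (H.comap f).FiniteIndex := by
    refine ⟨?_⟩
    rw [Subgroup.index_comap]
    have h2 : H.IsFiniteRelIndex f.range := Subgroup.isFiniteRelIndex_of_finiteIndex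
    exact h2.relIndex_ne_zero
  exact hx (H.comap f) h1

/-- powers of an element of infinite order -/
theorem zpowersHom_inj {G : Type} [Group G] (ht : TorFree G) (g : G) (hg : g ≠ 1) :
    Function.Injective (zpowersHom G g) := by
  rw [injective_iff_map_eq_one]
  intro n hn
  rw [zpowersHom_apply] at hn
  by_contra hcon
  have h0 : (n.toAdd : ℤ) ≠ 0 := by
    intro h
    apply hcon
    rw [← ofAdd_toAdd n, h]
    rfl
  apply hg
  rcases lt_or_gt_of_ne h0 with h1 | h1
  · refine ht g (-n.toAdd).toNat (by omega) ?_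
    have h2 : g ^ (-(n.toAdd : ℤ)) = 1 := by rw [zpow_neg, hn, inv_one]
    rw [← zpow_natCast, Int.toNat_of_nonneg (by omega)]
    exact h2
  · refine ht g (n.toAdd).toNat (by omega) ?_
    rw [← zpow_natCast, Int.toNat_of_nonneg (by omega)]
    exact hn

theorem torFree_int : TorFree (Multiplicative ℤ) := by
  intro g n hn h
  have h1 : (n : ℤ) * g.toAdd = 0 := by
    have h2 := congrArg Multiplicative.toAdd h
    rw [toAdd_pow, toAdd_one, nsmul_eq_mul] at h2
    exact h2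
  have h3 : (n : ℤ) ≠ 0 := by omega
  have h4 : g.toAdd = 0 := (mul_eq_zero.1 h1).resolve_left h3
  rw [← ofAdd_toAdd g, h4]
  rfl

theorem typeFF_int : TypeFF (Multiplicative ℤ) :=
  typeFF_of_cyclic _ inferInstance torFree_int

theorem typeFP_of_typeFF (G : Type) [Group G] (h : TypeFF G) : TypeFP G :=
  typeFP_of_fp G (fp_of_ff (ff_of_typeFF G h))

/-- one amalgam -/
theorem step (G : Type) [Group G] (hG : TypeFP G) (g : G) (hg : g ≠ 1) :
    ∃ (Γ : Type) (_ : Group Γ) (j : G →* Γ), Function.Injective j ∧ TypeFP Γ ∧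
      (∀ m, FreeRes m Γ ↔ FreeRes m G) ∧ j g ∈ fr Γ ∧ j.range ⊔ fr Γ = ⊤ := by
  obtain ⟨L, iL, hLF, hLn, hL⟩ := exists_higman
  have hLP := typeFP_of_typeFF L hLF
  obtain ⟨l, hl⟩ := exists_ne (1 : L)
  have hκ := zpowersHom_inj (torFree_of_typeFP G hG) g hg
  have hι := zpowersHom_inj (torFree_of_typeFP L hLP) l hl
  obtain ⟨Γ, iΓ, α, β, S, h⟩ := push_amal G L (Multiplicative ℤ) (zpowersHom G g)
    (zpowersHom L l) hκ hι
  have hint := typeFP_of_typeFF _ typeFF_int
  have hβ : ∀ x : L, β x ∈ fr Γ := by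
    intro x
    apply fr_map
    rw [mem_fr]
    intro H hH
    rw [hL H hH]
    exact Subgroup.mem_top x
  refine ⟨Γ, iΓ, α, h.injA, amal_fp h hG hLP hint, ?_, ?_, ?_⟩
  · exact amal_iff h hG hLF typeFF_int (projFF_of_cyclic _ (MulEquiv.refl _))
  · have h1 := h.comm (Multiplicative.ofAdd 1)
    rw [zpowersHom_apply, zpowersHom_apply, toAdd_ofAdd, zpow_one, zpow_one] at h1
    rw [h1]
    exact hβ l
  · rw [eq_top_iff, ← h.gen]
    apply sup_le le_sup_left
    rintro _ ⟨x, rfl⟩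
    exact (le_sup_right : fr Γ ≤ α.range ⊔ fr Γ) (hβ x)

theorem embed_list (G : Type) [Group G] (hG : TypeFP G) (s : List G) :
    ∃ (Γ : Type) (_ : Group Γ) (j : G →* Γ), Function.Injective j ∧ TypeFP Γ ∧
      (∀ m, FreeRes m Γ ↔ FreeRes m G) ∧ (∀ g ∈ s, j g ∈ fr Γ) ∧ j.range ⊔ fr Γ = ⊤ := by
  induction s with
  | nil =>
    refine ⟨G, inferInstance, MonoidHom.id G, fun _ _ h => h, hG, fun m => Iff.rfl, ?_, ?_⟩
    · intro g hg
      simp at hg
    · rw [eq_top_iff]
      intro x _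
      exact (le_sup_left : (MonoidHom.id G).range ≤ _) ⟨x, rfl⟩
  | cons g s ih =>
    obtain ⟨Γ, iΓ, j, h1, h2, h3, h4, h5⟩ := ih
    by_cases hg : g = 1
    · refine ⟨Γ, iΓ, j, h1, h2, h3, ?_, h5⟩
      intro x hx
      rw [List.mem_cons] at hx
      rcases hx with rfl | hx
      · rw [hg, map_one]
        exact Subgroup.one_mem _
      · exact h4 x hx
    · have hjg : j g ≠ 1 := by
        intro h
        apply hg
        apply h1
        rw [h, map_one]
      obtain ⟨Γ', iΓ', j', k1, k2, k3, k4, k5⟩ := step Γ h2 (j g) hjg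
      refine ⟨Γ', iΓ', j'.comp j, k1.comp h1, k2, fun m => (k3 m).trans (h3 m), ?_, ?_⟩
      · intro x hx
        rw [List.mem_cons] at hx
        rcases hx with rfl | hx
        · exact k4
        · exact fr_map j' _ (h4 x hx)
      · rw [eq_top_iff, ← k5]
        apply sup_le _ le_sup_right
        have h6 : j'.range = (j.range ⊔ fr Γ).map j' := by
          rw [h5, MonoidHom.range_eq_map]
        rw [h6, Subgroup.map_sup]
        apply sup_le
        · refine le_trans ?_ le_sup_left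
          rintro _ ⟨_, ⟨x, rfl⟩, rfl⟩
          exact ⟨x, rfl⟩
        · refine le_trans ?_ le_sup_right
          rintro _ ⟨x, hx, rfl⟩
          exact fr_map j' x hx

/-- the embedding theorem -/
theorem embed (G : Type) [Group G] (hG : TypeFP G) :
    ∃ (Γ : Type) (_ : Group Γ) (j : G →* Γ), Function.Injective j ∧ TypeFP Γ ∧
      (∀ m, FreeRes m Γ ↔ FreeRes m G) ∧ ∀ H : Subgroup Γ, H.FiniteIndex → H = ⊤ := by
  obtain ⟨s, hs⟩ := (fg_of_typeFP G hG).1
  obtain ⟨Γ, iΓ, j, h1, h2, h3, h4, h5⟩ := embed_list G hG s.toList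
  refine ⟨Γ, iΓ, j, h1, h2, h3, ?_⟩
  have h6 : j.range ≤ fr Γ := by
    rw [MonoidHom.range_eq_map, ← hs, MonoidHom.map_closure, Subgroup.closure_le]
    rintro _ ⟨g, hg, rfl⟩
    exact h4 g (Finset.mem_toList.2 hg)
  have h7 : fr Γ = ⊤ := by
    rw [eq_top_iff, ← h5]
    exact sup_le h6 le_rfl
  intro H hH
  rw [eq_top_iff]
  intro x _
  have h8 : x ∈ fr Γ := by
    rw [h7]
    exact Subgroup.mem_top x
  exact (mem_fr x).1 h8 H hH

/-- the set of `m` with `FreeRes m G` -/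
theorem freeRes_dvd (G : Type) [Group G] : ∃ d : ℕ, ∀ m : ℕ, FreeRes m G ↔ d ∣ m := by
  classical
  by_cases hex : ∃ d : ℕ, 0 < d ∧ FreeRes d G
  · obtain ⟨hd0, hd⟩ := Nat.find_spec hex
    refine ⟨Nat.find hex, fun m => ⟨?_, ?_⟩⟩
    · intro hm
      have h1 := pow_gcd _ (Nat.find hex) m le_rfl ((freeRes_iff _ G).1 hd) ((freeRes_iff _ G).1 hm)
      have h2 : 0 < Nat.gcd (Nat.find hex) m := Nat.gcd_pos_of_pos_left _ hd0
      have h3 := Nat.find_min' hex ⟨h2, (freeRes_iff _ G).2 h1⟩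
      have h4 : Nat.gcd (Nat.find hex) m ∣ Nat.find hex := Nat.gcd_dvd_left _ _
      have h5 := le_antisymm (Nat.le_of_dvd hd0 h4) h3
      rw [← h5]
      exact Nat.gcd_dvd_right _ _
    · rintro ⟨k, rfl⟩
      rw [freeRes_iff] at hd ⊢
      exact pow_mul' k hd
  · push Not at hex
    refine ⟨0, fun m => ⟨?_, ?_⟩⟩
    · intro hm
      rcases Nat.eq_zero_or_pos m with h | h
      · rw [h]
      · exact absurd hm (hex m h)
    · intro h
      rw [Nat.zero_dvd] at h
      subst h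
      rw [freeRes_iff]
      exact ⟨0, inferInstance, inferInstance⟩

/-- a counterexample with obstruction of prime or infinite order -/
theorem prime_order (G : Type) [Group G] (hG : TypeFP G) (hF : ¬ TypeFF G) :
    ∃ (Γ : Type) (_ : Group Γ) (j : G →* Γ), Function.Injective j ∧ TypeFP Γ ∧
      ∃ p : ℕ, (p = 0 ∨ p.Prime) ∧ ∀ m, FreeRes m Γ ↔ p ∣ m := by
  obtain ⟨d, hd⟩ := freeRes_dvd G
  rcases Nat.eq_zero_or_pos d with h0 | h0
  · exact ⟨G, inferInstance, MonoidHom.id G, fun _ _ h => h, hG, d, Or.inl h0, hd⟩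
  have h1 : d ≠ 1 := by
    intro h1
    apply hF
    have h2 : FreeRes 1 G := (hd 1).2 (by rw [h1])
    rw [freeRes_iff] at h2
    apply typeFF_of_ff
    exact ff_iso (LinearEquiv.funUnique (Fin 1) (MonoidAlgebra ℤ G) (Triv G)) h2
  obtain ⟨p, hp, k, hk⟩ := Nat.exists_prime_and_dvd h1
  have hk0 : 0 < k := by
    rcases Nat.eq_zero_or_pos k with h | h
    · rw [hk, h, mul_zero] at h0
      omega
    · exact h
  refine ⟨G × FreeGroup (Fin (k + 1)), inferInstance, MonoidHom.inl G _, ?_, prod_fp G hG _, p,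
    Or.inr hp, ?_⟩
  · intro x y hxy
    exact congrArg Prod.fst hxy
  · intro m
    rw [prod_freeRes G hG k m, hd, hk]
    exact Nat.mul_dvd_mul_iff_right hk0

end Pool.Agent.Hhelper49.Srf
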