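import Pool.Agent.Hhelper49.Srf.Kone
import Pool.Agent.Hhelper49.Srf.Free

/-!
# Module HigmanG: a nontrivial group of type (FF) without finite quotients

Let `K, a, b, c` be as in `exists_kone`, `F = FreeGroup (Fin 2)`, `κ = lift ![a, c]`, `ι = lift ![c, a]` (injective: compose `κ` with
the automorphism of `F` which interchanges the generators), `L` the amalgam of two copies of `K` over `F`
(`push_amal`).  `F` is (FF) by `free_exact` (`ff_coker`, `typeFF_of_ff`), so `L` is (FF) by `amal_ff`.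
Put `x 0 = α a = β c`, `x 1 = α b`, `x 2 = α c = β a`, `x 3 = β b`.  Then `x i * x (i+1) * (x i)⁻¹ = (x (i+1))^2` for all `i`
modulo `4`, and the `x i` generate `L`.  `L` is nontrivial: `α` is injective and `a ≠ 1` (`κ` is injective).
Let `H ≤ L` have finite index, `N` its normal core, `Q = L / N` finite, `y i` the images of the `x i`, `n i` the order of
`y i`.  `y i^k y (i+1) y i^(-k) = y (i+1)^(2^k)`; for `k = n i`: `n (i+1) ∣ 2^(n i) - 1`.  Suppose that some `n i > 1`
and let `p` be the smallest prime dividing one of the `n i`, say `p ∣ n (i+1)`.  Then `p ∣ 2^(n i) - 1`, `p` is odd, the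
order `d` of `2` modulo `p` divides `n i` and `p - 1`, and `d > 1`; a prime factor of `d` is smaller than `p` and divides
`n i`, contradiction.  So all `y i = 1`, `Q` is trivial, `H = ⊤`.
-/

namespace Pool.Agent.Hhelper49.Srf

open Pool.Agent.Hhelper49.Srr

/-- the conjugation formula -/
theorem higman_conj {Q : Type} [Group Q] (x z : Q) (h : x * z * x⁻¹ = z ^ 2) (k : ℕ) :
    x ^ k * z * (x ^ k)⁻¹ = z ^ (2 ^ k) := by
  induction k with
  | zero => simp
  | succ k ih =>
    have e : x ^ (k + 1) * z * (x ^ (k + 1))⁻¹ = x ^ k * (x * z * x⁻¹) * (x ^ k)⁻¹ := by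
      rw [pow_succ]
      group
    have e2 : x ^ k * z ^ 2 * (x ^ k)⁻¹ = (x ^ k * z * (x ^ k)⁻¹) ^ 2 := by
      rw [conj_pow]
    rw [e, h, e2, ih, ← pow_mul, pow_succ]

/-- the arithmetic of Higman's group -/
theorem higman_finite (Q : Type) [Group Q] [Finite Q] (y : ZMod 4 → Q)
    (h : ∀ i, y i * y (i + 1) * (y i)⁻¹ = y (i + 1) ^ 2) : ∀ i, y i = 1 := by
  classical
  by_contra hcon
  push Not at hcon
  obtain ⟨i₀, hi₀⟩ := hcon
  have hex : ∃ p : ℕ, p.Prime ∧ ∃ j, p ∣ orderOf (y j) := by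
    have h1 : orderOf (y i₀) ≠ 1 := by
      rwa [Ne, orderOf_eq_one_iff]
    exact ⟨(orderOf (y i₀)).minFac, Nat.minFac_prime h1, i₀, Nat.minFac_dvd _⟩
  obtain ⟨hp, j, hj⟩ := Nat.find_spec hex
  set p := Nat.find hex with hpd
  have hmin : ∀ q : ℕ, q.Prime → (∃ j, q ∣ orderOf (y j)) → p ≤ q := fun q hq hq' =>
    Nat.find_min' hex ⟨hq, hq'⟩
  obtain ⟨i, rfl⟩ : ∃ i, j = i + 1 := ⟨j - 1, by ring⟩
  set n := orderOf (y i) with hn
  have h2 : y (i + 1) ^ (2 ^ n) = y (i + 1) := by
    rw [← higman_conj (y i) (y (i + 1)) (h i) n, pow_orderOf_eq_one]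
    simp
  have h3 : y (i + 1) ^ (2 ^ n - 1) = 1 := by
    have h4 : y (i + 1) ^ (2 ^ n - 1) * y (i + 1) = 1 * y (i + 1) := by
      rw [← pow_succ, Nat.sub_add_cancel Nat.one_le_two_pow, h2, one_mul]
    exact mul_right_cancel h4
  have h5 : p ∣ 2 ^ n - 1 := hj.trans (orderOf_dvd_of_pow_eq_one h3)
  have : Fact p.Prime := ⟨hp⟩
  have h6 : (2 : ZMod p) ^ n = 1 := by
    have h7 : ((2 ^ n - 1 : ℕ) : ZMod p) = 0 := (ZMod.natCast_eq_zero_iff _ _).2 h5
    rw [Nat.cast_sub Nat.one_le_two_pow] at h7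
    push_cast at h7
    exact sub_eq_zero.1 h7
  have h20 : (2 : ZMod p) ≠ 0 := by
    intro h0
    rw [h0] at h6
    have hn0 : n ≠ 0 := (orderOf_pos (y i)).ne'
    rw [zero_pow hn0] at h6
    exact zero_ne_one h6
  have hd1 : orderOf (2 : ZMod p) ≠ 1 := by
    rw [Ne, orderOf_eq_one_iff]
    intro h21
    have : (1 : ZMod p) = 0 := by
      have e : (2 : ZMod p) = 1 + 1 := by norm_num
      rw [e] at h21
      exact add_eq_left.1 h21
    exact one_ne_zero this
  have hdn : orderOf (2 : ZMod p) ∣ n := orderOf_dvd_of_pow_eq_one h6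
  have hdp : orderOf (2 : ZMod p) ∣ p - 1 := ZMod.orderOf_dvd_card_sub_one h20
  have hq := Nat.minFac_prime hd1
  have h8 := hmin _ hq ⟨i, (Nat.minFac_dvd _).trans hdn⟩
  have hp1 : 0 < p - 1 := by
    have := hp.two_le
    omega
  have h9 : (orderOf (2 : ZMod p)).minFac ≤ p - 1 :=
    Nat.le_of_dvd hp1 ((Nat.minFac_dvd _).trans hdp)
  omega

/-- a free group of rank two is of type (FF) -/
theorem higman_free_ff : TypeFF (FreeGroup (Fin 2)) := by
  obtain ⟨f, g, hf, hg, hfg⟩ := free_exact 2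
  exact typeFF_of_ff _ (ff_coker f g hf hg hfg ⟨0, inferInstance, inferInstance⟩
    ⟨0, inferInstance, inferInstance⟩)

theorem exists_higman : ∃ (L : Type) (_ : Group L), TypeFF L ∧ Nontrivial L ∧
    ∀ H : Subgroup L, H.FiniteIndex → H = ⊤ := by
  obtain ⟨K, iK, a, b, c, hK, r1, r2, gen, inj⟩ := exists_kone
  have hι : Function.Injective (FreeGroup.lift ![c, a] : FreeGroup (Fin 2) →* K) := by
    have e : (FreeGroup.lift ![c, a] : FreeGroup (Fin 2) →* K) =
        (FreeGroup.lift ![a, c] : FreeGroup (Fin 2) →* K).comp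
          (FreeGroup.freeGroupCongr (Equiv.swap (0 : Fin 2) 1)).toMonoidHom := by
      ext i
      fin_cases i <;> simp
    rw [e, MonoidHom.coe_comp]
    exact inj.comp (FreeGroup.freeGroupCongr (Equiv.swap (0 : Fin 2) 1)).injective
  obtain ⟨L, iL, α, β, S, h⟩ := push_amal K K (FreeGroup (Fin 2)) _ _ inj hι
  have hac : α a = β c := by
    have := h.comm (FreeGroup.of 0)
    simpa using this
  have hca : α c = β a := by
    have := h.comm (FreeGroup.of 1)
    simpa using this
  refine ⟨L, iL, amal_ff h hK hK higman_free_ff, ?_, ?_⟩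
  · refine ⟨α a, 1, ?_⟩
    intro h1
    have h2 : a = 1 := h.injA (by rw [h1, map_one])
    have h3 : (FreeGroup.lift ![a, c] : FreeGroup (Fin 2) →* K) (FreeGroup.of 0) =
        (FreeGroup.lift ![a, c] : FreeGroup (Fin 2) →* K) 1 := by
      rw [map_one, FreeGroup.lift_apply_of]
      exact h2
    exact FreeGroup.of_ne_one _ (inj h3)
  · intro H hH
    let N := H.normalCore
    let y : ZMod 4 → L ⧸ N := fun i => (QuotientGroup.mk' N) ((![α a, α b, α c, β b] : Fin 4 → L) i)
    have hy := higman_finite (L ⧸ N) y (by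
      intro i
      have q : ∀ x z : L, x * z * x⁻¹ = z ^ 2 → (QuotientGroup.mk' N) x * (QuotientGroup.mk' N) z *
          ((QuotientGroup.mk' N) x)⁻¹ = (QuotientGroup.mk' N) z ^ 2 := by
        intro x z hxz
        rw [← map_inv, ← map_mul, ← map_mul, hxz, map_pow]
      have k1 : α a * α b * (α a)⁻¹ = α b ^ 2 := by
        rw [← map_inv, ← map_mul, ← map_mul, r1, map_pow]
      have k2 : α b * α c * (α b)⁻¹ = α c ^ 2 := by
        rw [← map_inv, ← map_mul, ← map_mul, r2, map_pow]
      have k3 : α c * β b * (α c)⁻¹ = β b ^ 2 := by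
        rw [hca, ← map_inv, ← map_mul, ← map_mul, r1, map_pow]
      have k4 : β b * α a * (β b)⁻¹ = α a ^ 2 := by
        rw [hac, ← map_inv, ← map_mul, ← map_mul, r2, map_pow]
      fin_cases i
      · exact q _ _ k1
      · exact q _ _ k2
      · exact q _ _ k3
      · exact q _ _ k4)
    have hmem : ∀ x : L, (QuotientGroup.mk' N) x = 1 → x ∈ N := fun x hx =>
      (QuotientGroup.eq_one_iff x).1 hx
    have m0 : α a ∈ N := hmem _ (hy 0)
    have m1 : α b ∈ N := hmem _ (hy 1)
    have m2 : α c ∈ N := hmem _ (hy 2)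
    have m3 : β b ∈ N := hmem _ (hy 3)
    have ra : α.range ≤ N := by
      rw [MonoidHom.range_eq_map, ← gen, MonoidHom.map_closure, Subgroup.closure_le]
      rintro _ ⟨x, hx, rfl⟩
      rcases hx with rfl | rfl | rfl
      · exact m0
      · exact m1
      · exact m2
    have rb : β.range ≤ N := by
      rw [MonoidHom.range_eq_map, ← gen, MonoidHom.map_closure, Subgroup.closure_le]
      rintro _ ⟨x, hx, rfl⟩
      rcases hx with rfl | rfl | rfl
      · exact hca ▸ m2
      · exact m3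
      · exact hac ▸ m0
    rw [eq_top_iff, ← h.gen]
    exact (sup_le ra rb).trans H.normalCore_le

end Pool.Agent.Hhelper49.Srf
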