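import Pool.Agent.Hhelper49.Srf.Base

/-!
# Module IndA: morphisms of induced modules

Let `IsInd κ i π`, `N` induced from `M`.
(0) `π (act (κ h) n) = act h (π n)` for all `n`: additive in `n`, so by `span` (closure induction) it is enough to
take `n = act g (i m)`; if `g ∈ κ.range` both sides are given by `proj`, otherwise `κ h * g ∉ κ.range` and both
sides are `0`.
(1) Separation and expansion: every `n` is a finite sum `∑ act g_j (i m_j)`; as
`act (g * κ h) (i m) = act g (i (act h m))` one can collect the terms in the same coset `g κ(H)`, so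
`n = ∑_{c ∈ T} act (out c) (i (m c))`, `T` a finite set of cosets `c ∈ Γ ⧸ κ.range`, `out = Quotient.out`.  Then
`π (act (out c)⁻¹ n) = m c` for `c ∈ T` and `= 0` for `c ∉ T` (`(out c)⁻¹ * out c' ∈ κ.range` iff `c = c'`).
So `n = ∑_{c ∈ T} act (out c) (i (π (act (out c)⁻¹ n)))`, and if `π (act g n) = 0` for all `g` then `n = 0`.
(2) `isInd_map`: check on the generators `n = act g (i m)`: `F n = act g (i' (f m))`.
(3) `isInd_inj`: if `F n = 0` then `f (π (act g n)) = π' (F (act g n)) = π' (act g (F n)) = 0`, so `π (act g n) = 0` for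
all `g`, and `n = 0` by (1).
(4) `isInd_surj`: the range of `F` contains all `act g (i' (f m))`.
(5) `isInd_ker`: `i` maps `ker f` to `ker F` and `π` maps `ker F` to `ker f`.  For `span`: if `F n = 0` then
`π (act (out c)⁻¹ n) ∈ ker f` and use the expansion in (1).
(6) `isInd_free`: `freeI` is coordinatewise `MonoidAlgebra.mapDomain κ`; `π` is coordinatewise
`x ↦ ∑_h x(κ h) h` (`comapDomain`, `κ` injective).  `span`: `single g r` at the coordinate `j` is
`act g (freeI (r • e_j))`.
(7) `isInd_lift`: the linear map with `F e_j = i (f e_j)`; both sides of the equation are additive in `x`, and agree on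
`single h r` at the coordinate `j`, as `i (f (h e_j)) = act (κ h) (i (f e_j))`.
-/

set_option linter.unusedSectionVars false

namespace Pool.Agent.Hhelper49.Srf

open Pool.Agent.Hhelper49.Srr

section
variable {H Γ : Type} [Group H] [Group Γ] (κ : H →* Γ)

/-- `ℤ[H]^k → ℤ[Γ]^k` -/
noncomputable def freeI (k : ℕ) :
    (Fin k → MonoidAlgebra ℤ H) →+ (Fin k → MonoidAlgebra ℤ Γ) where
  toFun x j := MonoidAlgebra.mapDomainRingHom ℤ κ (x j)
  map_zero' := by
    funext j
    exact map_zero _
  map_add' x y := by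
    funext j
    exact map_add _ _ _

variable {M N M' N' : Type} [AddCommGroup M] [Module (MonoidAlgebra ℤ H) M] [AddCommGroup N]
  [Module (MonoidAlgebra ℤ Γ) N] [AddCommGroup M'] [Module (MonoidAlgebra ℤ H) M']
  [AddCommGroup N'] [Module (MonoidAlgebra ℤ Γ) N']
variable {κ}
variable {i : M →+ N} {π : N →+ M} {i' : M' →+ N'} {π' : N' →+ M'}

/-- the action of a group element as an additive map -/
noncomputable def actHom (T : Type) [AddCommGroup T] [Module (MonoidAlgebra ℤ Γ) T] (g : Γ) :
    T →+ T where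
  toFun t := act g t
  map_zero' := smul_zero _
  map_add' := smul_add _

theorem actHom_apply (T : Type) [AddCommGroup T] [Module (MonoidAlgebra ℤ Γ) T] (g : Γ) (t : T) :
    actHom T g t = act g t := rfl

/-- additive maps which agree on the generators are equal -/
theorem isInd_hom_eq (h : IsInd κ i π) {A : Type} [AddCommGroup A] (f f' : N →+ A)
    (hg : ∀ (g : Γ) (m : M), f (act g (i m)) = f' (act g (i m))) (n : N) : f n = f' n := by
  have h1 := h.span n
  induction h1 using AddSubgroup.closure_induction with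
  | mem x hx =>
    obtain ⟨g, m, rfl⟩ := hx
    exact hg g m
  | zero => rw [map_zero, map_zero]
  | add a b _ _ ha hb => rw [map_add, map_add, ha, hb]
  | neg a _ ha => rw [map_neg, map_neg, ha]

theorem isInd_equi (h : IsInd κ i π) (g : H) (n : N) : π (act (κ g) n) = act g (π n) := by
  refine isInd_hom_eq h (π.comp (actHom N (κ g))) ((actHom M g).comp π) ?_ n
  intro g' m
  rw [AddMonoidHom.comp_apply, AddMonoidHom.comp_apply, actHom_apply, actHom_apply, ← act_mul]
  by_cases hg : g' ∈ κ.range
  · obtain ⟨h', rfl⟩ := hg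
    rw [← map_mul, h.proj, h.proj, act_mul]
  · rw [h.projz g' m hg, h.projz (κ g * g') m]
    · rw [act, smul_zero]
    · intro h2
      apply hg
      have h3 : g' = (κ g)⁻¹ * (κ g * g') := by rw [inv_mul_cancel_left]
      rw [h3]
      exact κ.range.mul_mem (κ.range.inv_mem ⟨g, rfl⟩) h2

/-- the expansion of an element -/
theorem isInd_expand (h : IsInd κ i π) (n : N) : ∃ T : Finset (Γ ⧸ κ.range),
    (∀ c, c ∉ T → π (act (Quotient.out c)⁻¹ n) = 0) ∧
    n = ∑ c ∈ T, act (Quotient.out c) (i (π (act (Quotient.out c)⁻¹ n))) := by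
  classical
  have hbig : ∀ (a : N) (T T' : Finset (Γ ⧸ κ.range)), T ⊆ T' →
      (∀ c, c ∉ T → π (act (Quotient.out c)⁻¹ a) = 0) →
      a = ∑ c ∈ T, act (Quotient.out c) (i (π (act (Quotient.out c)⁻¹ a))) →
      a = ∑ c ∈ T', act (Quotient.out c) (i (π (act (Quotient.out c)⁻¹ a))) := by
    intro a T T' hT h1 h2
    refine h2.trans (Finset.sum_subset hT ?_)
    intro c _ hc
    rw [h1 c hc, map_zero, act, smul_zero]
  have h1 := h.span n
  induction h1 using AddSubgroup.closure_induction with
  | mem x hx =>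
    obtain ⟨g, m, rfl⟩ := hx
    obtain ⟨⟨_, ⟨k, rfl⟩⟩, hk⟩ := QuotientGroup.mk_out_eq_mul κ.range g
    have hk' : Quotient.out (g : Γ ⧸ κ.range) = g * κ k := hk
    refine ⟨{(g : Γ ⧸ κ.range)}, ?_, ?_⟩
    · intro c hc
      rw [Finset.mem_singleton] at hc
      rw [← act_mul]
      apply h.projz
      intro h2
      apply hc
      have h3 : ((Quotient.out c : Γ) : Γ ⧸ κ.range) = (g : Γ ⧸ κ.range) :=
        QuotientGroup.eq.2 h2
      rw [← h3]
      exact (QuotientGroup.out_eq' c).symm
    · rw [Finset.sum_singleton, hk', ← act_mul]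
      have e : (g * κ k)⁻¹ * g = κ k⁻¹ := by
        rw [mul_inv_rev, map_inv, mul_assoc, inv_mul_cancel, mul_one]
      rw [e, h.proj, h.equi, ← act_mul, map_inv, mul_inv_cancel_right]
  | zero =>
    refine ⟨∅, ?_, ?_⟩
    · intro c _
      rw [act, smul_zero, map_zero]
    · rw [Finset.sum_empty]
  | add a b _ _ ha hb =>
    obtain ⟨T, hT1, hT2⟩ := ha
    obtain ⟨S, hS1, hS2⟩ := hb
    have e : ∀ c : Γ ⧸ κ.range, π (act (Quotient.out c)⁻¹ (a + b)) =
        π (act (Quotient.out c)⁻¹ a) + π (act (Quotient.out c)⁻¹ b) := by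
      intro c
      rw [act, smul_add, map_add]
    refine ⟨T ∪ S, ?_, ?_⟩
    · intro c hc
      rw [Finset.mem_union, not_or] at hc
      rw [e, hT1 c hc.1, hS1 c hc.2, add_zero]
    · have h3 := hbig a T (T ∪ S) Finset.subset_union_left hT1 hT2
      have h4 := hbig b S (T ∪ S) Finset.subset_union_right hS1 hS2
      have h5 : ∑ c ∈ T ∪ S, act (Quotient.out c) (i (π (act (Quotient.out c)⁻¹ (a + b)))) =
          ∑ c ∈ T ∪ S, act (Quotient.out c) (i (π (act (Quotient.out c)⁻¹ a))) +
          ∑ c ∈ T ∪ S, act (Quotient.out c) (i (π (act (Quotient.out c)⁻¹ b))) := by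
        rw [← Finset.sum_add_distrib]
        apply Finset.sum_congr rfl
        intro c _
        rw [e, map_add, act, smul_add]
      rw [h5, ← h3, ← h4]
  | neg a _ ha =>
    obtain ⟨T, hT1, hT2⟩ := ha
    have e : ∀ c : Γ ⧸ κ.range, π (act (Quotient.out c)⁻¹ (-a)) =
        -π (act (Quotient.out c)⁻¹ a) := by
      intro c
      rw [act, smul_neg, map_neg]
    refine ⟨T, ?_, ?_⟩
    · intro c hc
      rw [e, hT1 c hc, neg_zero]
    · have h5 : ∑ c ∈ T, act (Quotient.out c) (i (π (act (Quotient.out c)⁻¹ (-a)))) =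
          -∑ c ∈ T, act (Quotient.out c) (i (π (act (Quotient.out c)⁻¹ a))) := by
        rw [← Finset.sum_neg_distrib]
        apply Finset.sum_congr rfl
        intro c _
        rw [e, map_neg, act, smul_neg]
      rw [h5, ← hT2]

/-- elements with vanishing components are zero -/
theorem isInd_sep (h : IsInd κ i π) (n : N) (hn : ∀ g : Γ, π (act g n) = 0) : n = 0 := by
  obtain ⟨T, _, hT⟩ := isInd_expand h n
  rw [hT]
  apply Finset.sum_eq_zero
  intro c _
  rw [hn, map_zero, act, smul_zero]

theorem isInd_map (h : IsInd κ i π) (h' : IsInd κ i' π') (f : M →ₗ[MonoidAlgebra ℤ H] M')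
    (F : N →ₗ[MonoidAlgebra ℤ Γ] N') (hF : ∀ m, F (i m) = i' (f m)) (n : N) :
    π' (F n) = f (π n) := by
  refine isInd_hom_eq h (π'.comp F.toAddMonoidHom) (f.toAddMonoidHom.comp π) ?_ n
  intro g m
  change π' (F (act g (i m))) = f (π (act g (i m)))
  rw [lin_act, hF]
  by_cases hg : g ∈ κ.range
  · obtain ⟨k, rfl⟩ := hg
    rw [h.proj, h'.proj, lin_act]
  · rw [h.projz g m hg, h'.projz g (f m) hg, map_zero]

theorem isInd_inj (h : IsInd κ i π) (h' : IsInd κ i' π') (f : M →ₗ[MonoidAlgebra ℤ H] M')
    (F : N →ₗ[MonoidAlgebra ℤ Γ] N') (hF : ∀ m, F (i m) = i' (f m))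
    (hf : Function.Injective f) : Function.Injective F := by
  rw [injective_iff_map_eq_zero]
  intro n hn
  apply isInd_sep h
  intro g
  apply hf
  rw [← isInd_map h h' f F hF, lin_act, hn, map_zero, act, smul_zero, map_zero]

theorem isInd_surj (h : IsInd κ i π) (h' : IsInd κ i' π') (f : M →ₗ[MonoidAlgebra ℤ H] M')
    (F : N →ₗ[MonoidAlgebra ℤ Γ] N') (hF : ∀ m, F (i m) = i' (f m))
    (hf : Function.Surjective f) : Function.Surjective F := by
  intro n'
  have h1 := h'.span n'
  induction h1 using AddSubgroup.closure_induction with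
  | mem x hx =>
    obtain ⟨g, m', rfl⟩ := hx
    obtain ⟨m, rfl⟩ := hf m'
    exact ⟨act g (i m), by rw [lin_act, hF]⟩
  | zero => exact ⟨0, map_zero F⟩
  | add a b _ _ ha hb =>
    obtain ⟨x, rfl⟩ := ha
    obtain ⟨y, rfl⟩ := hb
    exact ⟨x + y, map_add F x y⟩
  | neg a _ ha =>
    obtain ⟨x, rfl⟩ := ha
    exact ⟨-x, map_neg F x⟩

theorem isInd_ker (h : IsInd κ i π) (h' : IsInd κ i' π') (f : M →ₗ[MonoidAlgebra ℤ H] M')
    (F : N →ₗ[MonoidAlgebra ℤ Γ] N') (hF : ∀ m, F (i m) = i' (f m)) :
    Induced κ (LinearMap.ker f) (LinearMap.ker F) := by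
  classical
  have hi : ∀ m : LinearMap.ker f, i (m : M) ∈ LinearMap.ker F := by
    intro m
    have hm : f (m : M) = 0 := m.2
    rw [LinearMap.mem_ker, hF, hm, map_zero]
  have hp : ∀ n : LinearMap.ker F, π (n : N) ∈ LinearMap.ker f := by
    intro n
    have hn : F (n : N) = 0 := n.2
    rw [LinearMap.mem_ker, ← isInd_map h h' f F hF, hn, map_zero]
  let i₀ : LinearMap.ker f →+ LinearMap.ker F :=
    { toFun := fun m => ⟨i (m : M), hi m⟩
      map_zero' := Subtype.ext (map_zero i)
      map_add' := fun a b => Subtype.ext (map_add i (a : M) (b : M)) }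
  let π₀ : LinearMap.ker F →+ LinearMap.ker f :=
    { toFun := fun n => ⟨π (n : N), hp n⟩
      map_zero' := Subtype.ext (map_zero π)
      map_add' := fun a b => Subtype.ext (map_add π (a : N) (b : N)) }
  refine ⟨i₀, π₀, ?_, ?_, ?_, ?_⟩
  · intro g m
    exact Subtype.ext (h.equi g (m : M))
  · intro n
    obtain ⟨T, _, hT⟩ := isInd_expand h (n : N)
    have hn : n = ∑ c ∈ T, act (Quotient.out c) (i₀ (π₀ (act (Quotient.out c)⁻¹ n))) := by
      apply Subtype.ext
      rw [AddSubmonoidClass.coe_finsetSum]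
      exact hT
    rw [hn]
    apply AddSubgroup.sum_mem
    intro c _
    exact AddSubgroup.subset_closure ⟨_, _, rfl⟩
  · intro g m
    exact Subtype.ext (h.proj g (m : M))
  · intro g m hg
    exact Subtype.ext (h.projz g (m : M) hg)

theorem mapDomainRingHom_act (κ : H →* Γ) (g : H) (x : MonoidAlgebra ℤ H) :
    MonoidAlgebra.mapDomainRingHom ℤ κ (act g x) =
      act (κ g) (MonoidAlgebra.mapDomainRingHom ℤ κ x) := by
  rw [act, act, smul_eq_mul, smul_eq_mul, map_mul]
  congr 1
  exact MonoidAlgebra.mapDomain_single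

theorem comap_map (κ : H →* Γ) (hκ : Function.Injective κ) (x : MonoidAlgebra ℤ H) :
    MonoidAlgebra.comapDomain κ hκ (MonoidAlgebra.mapDomainRingHom ℤ κ x) = x := by
  induction x using MonoidAlgebra.induction_linear with
  | zero => rw [map_zero, MonoidAlgebra.comapDomain_zero]
  | add x y hx hy => rw [map_add, MonoidAlgebra.comapDomain_add, hx, hy]
  | single a r =>
    have e : MonoidAlgebra.mapDomainRingHom ℤ κ (MonoidAlgebra.single a r) =
        MonoidAlgebra.single (κ a) r := MonoidAlgebra.mapDomain_single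
    rw [e, MonoidAlgebra.comapDomain_single_map]

theorem comap_act_map (κ : H →* Γ) (hκ : Function.Injective κ) {g : Γ} (hg : g ∉ κ.range)
    (x : MonoidAlgebra ℤ H) :
    MonoidAlgebra.comapDomain κ hκ (act g (MonoidAlgebra.mapDomainRingHom ℤ κ x)) = 0 := by
  induction x using MonoidAlgebra.induction_linear with
  | zero => rw [map_zero, act, smul_zero, MonoidAlgebra.comapDomain_zero]
  | add x y hx hy => rw [map_add, act, smul_add, MonoidAlgebra.comapDomain_add, hx, hy, add_zero]
  | single a r =>
    have e : MonoidAlgebra.mapDomainRingHom ℤ κ (MonoidAlgebra.single a r) =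
        MonoidAlgebra.single (κ a) r := MonoidAlgebra.mapDomain_single
    rw [e, act, smul_eq_mul, MonoidAlgebra.of_apply, MonoidAlgebra.single_mul_single]
    apply MonoidAlgebra.comapDomain_single_of_not_mem_range
    rintro ⟨b, hb⟩
    apply hg
    refine ⟨b * a⁻¹, ?_⟩
    rw [map_mul, hb, map_inv, mul_inv_cancel_right]

variable (κ) in
theorem isInd_free (hκ : Function.Injective κ) (k : ℕ) : ∃ π, IsInd κ (freeI κ k) π := by
  classical
  refine ⟨{ toFun := fun x j => MonoidAlgebra.comapDomain κ hκ (x j)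
            map_zero' := ?_
            map_add' := ?_ }, ?_, ?_, ?_, ?_⟩
  · funext j
    exact MonoidAlgebra.comapDomain_zero κ hκ
  · intro x y
    funext j
    exact MonoidAlgebra.comapDomain_add κ hκ (x j) (y j)
  · intro g m
    funext j
    exact mapDomainRingHom_act κ g (m j)
  · intro n
    have hn : n = ∑ j, Pi.single (M := fun _ : Fin k => MonoidAlgebra ℤ Γ) j (n j) :=
      (Finset.univ_sum_single n).symm
    rw [hn]
    apply AddSubgroup.sum_mem
    intro j _
    generalize n j = x
    induction x using MonoidAlgebra.induction_linear with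
    | zero =>
      rw [Pi.single_zero]
      exact AddSubgroup.zero_mem _
    | add x y hx hy =>
      rw [Pi.single_add]
      exact AddSubgroup.add_mem _ hx hy
    | single g r =>
      apply AddSubgroup.subset_closure
      refine ⟨g, Pi.single (M := fun _ : Fin k => MonoidAlgebra ℤ H) j
        (MonoidAlgebra.single 1 r), ?_⟩
      funext l
      change (Pi.single (M := fun _ : Fin k => MonoidAlgebra ℤ Γ) j
        (MonoidAlgebra.single g r) : Fin k → MonoidAlgebra ℤ Γ) l =
        act g (MonoidAlgebra.mapDomainRingHom ℤ κ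
          ((Pi.single (M := fun _ : Fin k => MonoidAlgebra ℤ H) j
            (MonoidAlgebra.single 1 r) : Fin k → MonoidAlgebra ℤ H) l))
      by_cases hl : l = j
      · subst hl
        rw [Pi.single_eq_same, Pi.single_eq_same]
        have e : MonoidAlgebra.mapDomainRingHom ℤ κ (MonoidAlgebra.single 1 r) =
            MonoidAlgebra.single (κ 1) r := MonoidAlgebra.mapDomain_single
        rw [e, act, smul_eq_mul, MonoidAlgebra.of_apply, MonoidAlgebra.single_mul_single, map_one,
          mul_one, one_mul]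
      · rw [Pi.single_eq_of_ne hl, Pi.single_eq_of_ne hl, map_zero, act, smul_zero]
  · intro g m
    funext j
    change MonoidAlgebra.comapDomain κ hκ
      (act (κ g) (MonoidAlgebra.mapDomainRingHom ℤ κ (m j))) = act g (m j)
    rw [← mapDomainRingHom_act, comap_map]
  · intro g m hg
    funext j
    exact comap_act_map κ hκ hg (m j)

theorem isInd_lift (h : IsInd κ i π) (k : ℕ)
    (f : (Fin k → MonoidAlgebra ℤ H) →ₗ[MonoidAlgebra ℤ H] M) :
    ∃ F : (Fin k → MonoidAlgebra ℤ Γ) →ₗ[MonoidAlgebra ℤ Γ] N, ∀ x, F (freeI κ k x) = i (f x) := by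
  classical
  let e : Fin k → (Fin k → MonoidAlgebra ℤ H) := fun j =>
    Pi.single (M := fun _ : Fin k => MonoidAlgebra ℤ H) j 1
  refine ⟨∑ j, (LinearMap.toSpanSingleton (MonoidAlgebra ℤ Γ) N (i (f (e j)))).comp
    (LinearMap.proj j), ?_⟩
  intro x
  have key : ∀ (r : MonoidAlgebra ℤ H) (m : M),
      MonoidAlgebra.mapDomainRingHom ℤ κ r • i m = i (r • m) := by
    intro r m
    induction r using MonoidAlgebra.induction_linear with
    | zero => rw [map_zero, zero_smul, zero_smul, map_zero]
    | add x y hx hy => rw [map_add, add_smul, add_smul, map_add, hx, hy]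
    | single a r =>
      have e : MonoidAlgebra.mapDomainRingHom ℤ κ (MonoidAlgebra.single a r) =
          MonoidAlgebra.single (κ a) r := MonoidAlgebra.mapDomain_single
      rw [e, single_smul, single_smul, map_zsmul, h.equi]
  have hx : x = ∑ j, x j • e j := by
    funext l
    rw [Finset.sum_apply, Finset.sum_eq_single l]
    · change x l = x l • (Pi.single (M := fun _ : Fin k => MonoidAlgebra ℤ H) l 1 : Fin k → _) l
      rw [Pi.single_eq_same, smul_eq_mul, mul_one]
    · intro j _ hj
      change x j • (Pi.single (M := fun _ : Fin k => MonoidAlgebra ℤ H) j 1 : Fin k → _) l = 0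
      rw [Pi.single_eq_of_ne (Ne.symm hj), smul_zero]
    · intro hl
      exact absurd (Finset.mem_univ l) hl
  have e1 : i (f x) = ∑ j, i (x j • f (e j)) := by
    conv_lhs => rw [hx]
    rw [map_sum, map_sum]
    apply Finset.sum_congr rfl
    intro j _
    rw [map_smul]
  rw [e1, LinearMap.sum_apply]
  apply Finset.sum_congr rfl
  intro j _
  rw [← key]
  rfl

end

end Pool.Agent.Hhelper49.Srf
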