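import Pool.Agent.Hhelper49.Srf.Base

/-!
# Module InjF: quotients of free modules by elements supported in an invariant set

`κ : H →* Γ` injective, `F = ℤ[Γ]^b` regarded as a `ℤ[H]`-module (`Pull κ F`), `Y ⊆ Γ` with `κ(H) Y = Y`, `suppSub` = the elements
supported in `Y`.  The complement `Z` of `Y` is `H`-invariant, and `H` acts freely on it (by left translation); choose a
set `R ⊆ Z` of representatives of the orbits: `H × R ≃ Z`, `(h, r) ↦ κ h * r`.  Restriction of functions to `Z` gives
`F / suppSub ≃ (Fin b → (Z →₀ ℤ)) ≃ (Fin b → (R →₀ ℤ[H]))` over `ℤ[H]`, which is free, so projective, and it is finitely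
generated free if `R` is finite (which is the case if `Z` is contained in a finite union of orbits `κ(H) x`).
-/

set_option linter.unusedSectionVars false

namespace Pool.Agent.Hhelper49.Srf

open Pool.Agent.Hhelper49.Srr

section
variable {H Γ : Type} [Group H] [Group Γ] (κ : H →* Γ)

theorem supp_act (b : ℕ) (γ : Γ) (x : Fin b → MonoidAlgebra ℤ Γ) (j : Fin b) (g : Γ) :
    ((act γ x) j).coeff g = (x j).coeff (γ⁻¹ * g) := by
  change (MonoidAlgebra.of ℤ Γ γ * x j).coeff g = _
  rw [MonoidAlgebra.of_apply, MonoidAlgebra.coeff_single_mul_apply, one_mul]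

/-- the elements of `ℤ[Γ]^b` supported in an invariant set `Y` -/
noncomputable def suppSub (b : ℕ) (Y : Set Γ) (hY : ∀ (h : H), ∀ y ∈ Y, κ h * y ∈ Y) :
    Submodule (MonoidAlgebra ℤ H) (Pull κ (Fin b → MonoidAlgebra ℤ Γ)) where
  carrier := {x | ∀ (j : Fin b) (g : Γ), g ∉ Y → (x.un j).coeff g = 0}
  zero_mem' := by
    intro j g _
    rfl
  add_mem' := by
    intro x y hx hy j g hg
    have h1 := hx j g hg
    have h2 := hy j g hg
    change (x.un j).coeff g + (y.un j).coeff g = 0
    rw [h1, h2, add_zero]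
  smul_mem' := by
    intro r x hx
    have hx' : ∀ (j : Fin b) (g : Γ), g ∉ Y → (x.un j).coeff g = 0 := hx
    change ∀ (j : Fin b) (g : Γ), g ∉ Y → ((r • x).un j).coeff g = 0
    induction r using MonoidAlgebra.induction_linear with
    | zero =>
      intro j g _
      rw [zero_smul]
      rfl
    | add a b ha hb =>
      intro j g hg
      rw [add_smul]
      change ((a • x).un j).coeff g + ((b • x).un j).coeff g = 0
      rw [ha j g hg, hb j g hg, add_zero]
    | single h n =>
      intro j g hg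
      rw [single_smul]
      have h1 : ((act h x).un j).coeff g = 0 := by
        rw [Pull.act_apply, supp_act]
        apply hx'
        intro h2
        apply hg
        have h3 := hY h _ h2
        rwa [mul_inv_cancel_left] at h3
      change n • ((act h x).un j).coeff g = 0
      rw [h1, smul_zero]

theorem mem_suppSub (b : ℕ) (Y : Set Γ) (hY : ∀ (h : H), ∀ y ∈ Y, κ h * y ∈ Y)
    (x : Pull κ (Fin b → MonoidAlgebra ℤ Γ)) :
    x ∈ suppSub κ b Y hY ↔ ∀ (j : Fin b) (g : Γ), g ∉ Y → (x.un j).coeff g = 0 := Iff.rfl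

/-! ### representatives of the orbits -/

/-- the orbit relation -/
def InjF.rel : Setoid Γ where
  r g g' := ∃ h : H, g' = κ h * g
  iseqv :=
    { refl := fun g => ⟨1, by rw [map_one, one_mul]⟩
      symm := by
        rintro g g' ⟨h, rfl⟩
        exact ⟨h⁻¹, by rw [map_inv, inv_mul_cancel_left]⟩
      trans := by
        rintro g g' g'' ⟨h, rfl⟩ ⟨h', rfl⟩
        exact ⟨h' * h, by rw [map_mul, mul_assoc]⟩ }

/-- the representative of the orbit of `g` -/
noncomputable def InjF.rep (g : Γ) : Γ := (Quotient.mk (InjF.rel κ) g).out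

theorem InjF.rep_spec (g : Γ) : ∃ h : H, g = κ h * InjF.rep κ g :=
  Quotient.exact (s := InjF.rel κ) (Quotient.out_eq (Quotient.mk (InjF.rel κ) g))

theorem InjF.rep_mul (h : H) (g : Γ) : InjF.rep κ (κ h * g) = InjF.rep κ g := by
  unfold InjF.rep
  congr 1
  exact Quotient.sound (s := InjF.rel κ)
    (show ∃ h' : H, g = κ h' * (κ h * g) from ⟨h⁻¹, by rw [map_inv, inv_mul_cancel_left]⟩)

theorem InjF.rep_rep (g : Γ) : InjF.rep κ (InjF.rep κ g) = InjF.rep κ g := by
  obtain ⟨h, hh⟩ := InjF.rep_spec κ g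
  conv_rhs => rw [hh]
  rw [InjF.rep_mul]

/-- the representatives of the orbits in the complement of `Y` -/
def InjF.R (Y : Set Γ) : Set Γ := {r | r ∉ Y ∧ InjF.rep κ r = r}

/-- the map from the free module -/
noncomputable def InjF.psi (b : ℕ) (Y : Set Γ) :
    ((Fin b × InjF.R κ Y) →₀ MonoidAlgebra ℤ H) →ₗ[MonoidAlgebra ℤ H]
      Pull κ (Fin b → MonoidAlgebra ℤ Γ) :=
  Finsupp.linearCombination _
    (fun p => Pull.mk κ (Pi.single p.1 (MonoidAlgebra.single (p.2 : Γ) (1 : ℤ))))

theorem InjF.smul_mk (b : ℕ) (j : Fin b) (h : H) (n : ℤ) (r : Γ) :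
    (MonoidAlgebra.single h n : MonoidAlgebra ℤ H) •
      Pull.mk κ (Pi.single j (MonoidAlgebra.single r (1 : ℤ)) : Fin b → MonoidAlgebra ℤ Γ) =
      Pull.mk κ (Pi.single j (MonoidAlgebra.single (κ h * r) n)) := by
  rw [single_smul]
  have h1 : act h (Pull.mk κ (Pi.single j (MonoidAlgebra.single r (1 : ℤ)) :
      Fin b → MonoidAlgebra ℤ Γ)) = Pull.mk κ (Pi.single j (MonoidAlgebra.single (κ h * r) 1)) := by
    change (act h (Pull.mk κ (Pi.single j (MonoidAlgebra.single r (1 : ℤ)) :
      Fin b → MonoidAlgebra ℤ Γ))).un = Pi.single j (MonoidAlgebra.single (κ h * r) 1)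
    rw [Pull.act_apply, Pull.un_mk]
    funext j'
    change (MonoidAlgebra.of ℤ Γ (κ h)) * (Pi.single j (MonoidAlgebra.single r (1 : ℤ)) :
      Fin b → MonoidAlgebra ℤ Γ) j' = _
    by_cases hj : j' = j
    · subst hj
      rw [Pi.single_eq_same, Pi.single_eq_same, MonoidAlgebra.of_apply,
        MonoidAlgebra.single_mul_single, one_mul]
    · rw [Pi.single_eq_of_ne hj, Pi.single_eq_of_ne hj, mul_zero]
  rw [h1]
  change n • (Pi.single j (MonoidAlgebra.single (κ h * r) 1) : Fin b → MonoidAlgebra ℤ Γ) =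
    Pi.single j (MonoidAlgebra.single (κ h * r) n)
  rw [← Pi.single_smul, MonoidAlgebra.smul_single, smul_eq_mul, mul_one]

theorem InjF.psi_single (b : ℕ) (Y : Set Γ) (p : Fin b × InjF.R κ Y) (h : H) (n : ℤ) :
    InjF.psi κ b Y (Finsupp.single p (MonoidAlgebra.single h n)) =
      Pull.mk κ (Pi.single p.1 (MonoidAlgebra.single (κ h * (p.2 : Γ)) n)) := by
  unfold InjF.psi
  rw [Finsupp.linearCombination_single, InjF.smul_mk]

theorem InjF.psi_coeff (hκ : Function.Injective κ) (b : ℕ) (Y : Set Γ)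
    (c : (Fin b × InjF.R κ Y) →₀ MonoidAlgebra ℤ H) (j : Fin b) (r : InjF.R κ Y) (h : H) :
    ((InjF.psi κ b Y c).un j).coeff (κ h * r) = (c (j, r)).coeff h := by
  classical
  induction c using Finsupp.induction_linear with
  | zero =>
    rw [map_zero]
    rfl
  | add c d hc hd =>
    rw [map_add]
    change ((InjF.psi κ b Y c).un j).coeff (κ h * r) + ((InjF.psi κ b Y d).un j).coeff (κ h * r) =
      (c (j, r)).coeff h + (d (j, r)).coeff h
    rw [hc, hd]
  | single p a =>
    induction a using MonoidAlgebra.induction_linear with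
    | zero =>
      rw [Finsupp.single_zero, map_zero]
      rfl
    | add a a' ha ha' =>
      rw [Finsupp.single_add, map_add]
      change ((InjF.psi κ b Y (Finsupp.single p a)).un j).coeff (κ h * r) +
        ((InjF.psi κ b Y (Finsupp.single p a')).un j).coeff (κ h * r) =
        (Finsupp.single p a (j, r)).coeff h + (Finsupp.single p a' (j, r)).coeff h
      rw [ha, ha']
    | single h' n =>
      rw [InjF.psi_single, Pull.un_mk]
      by_cases hp : p = (j, r)
      · subst hp
        rw [Finsupp.single_eq_same, Pi.single_eq_same, MonoidAlgebra.coeff_single,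
          MonoidAlgebra.coeff_single, Finsupp.single_apply, Finsupp.single_apply]
        congr 1
        rw [eq_iff_iff]
        constructor
        · intro e
          exact hκ (mul_right_cancel e)
        · rintro rfl
          rfl
      · rw [Finsupp.single_eq_of_ne (Ne.symm hp)]
        change _ = (0 : ℤ)
        obtain ⟨j', r'⟩ := p
        by_cases hj : j = j'
        · subst hj
          rw [Pi.single_eq_same, MonoidAlgebra.coeff_single, Finsupp.single_apply, if_neg]
          intro e
          apply hp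
          have h1 : InjF.rep κ (κ h' * (r' : Γ)) = InjF.rep κ (κ h * (r : Γ)) := by rw [e]
          rw [InjF.rep_mul, InjF.rep_mul, r'.2.2, r.2.2] at h1
          rw [Subtype.ext h1]
        · rw [Pi.single_eq_of_ne hj]
          rfl

theorem InjF.exists_equiv (hκ : Function.Injective κ) (b : ℕ) (Y : Set Γ)
    (hY : ∀ (h : H), ∀ y ∈ Y, κ h * y ∈ Y) :
    Nonempty (((Fin b × InjF.R κ Y) →₀ MonoidAlgebra ℤ H) ≃ₗ[MonoidAlgebra ℤ H]
      (Pull κ (Fin b → MonoidAlgebra ℤ Γ) ⧸ suppSub κ b Y hY)) := by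
  classical
  set f := (suppSub κ b Y hY).mkQ ∘ₗ InjF.psi κ b Y with hf
  have hnot : ∀ (h : H) (r : InjF.R κ Y), κ h * (r : Γ) ∉ Y := by
    intro h r hh
    apply r.2.1
    have := hY h⁻¹ _ hh
    rwa [map_inv, inv_mul_cancel_left] at this
  have hinj : Function.Injective f := by
    rw [← LinearMap.ker_eq_bot, LinearMap.ker_eq_bot']
    intro c hc
    have h1 : InjF.psi κ b Y c ∈ suppSub κ b Y hY := by
      rw [hf, LinearMap.comp_apply, Submodule.mkQ_apply, Submodule.Quotient.mk_eq_zero] at hc
      exact hc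
    rw [mem_suppSub] at h1
    ext p : 1
    obtain ⟨j, r⟩ := p
    apply MonoidAlgebra.coeff_injective
    ext h
    have h2 := h1 j _ (hnot h r)
    rw [InjF.psi_coeff κ hκ] at h2
    rw [h2]
    rfl
  have hsurj : Function.Surjective f := by
    rw [← LinearMap.range_eq_top]
    set S := (LinearMap.range f).comap (suppSub κ b Y hY).mkQ with hS
    have hmem : ∀ (j : Fin b) (g : Γ) (n : ℤ),
        Pull.mk κ (Pi.single j (MonoidAlgebra.single g n) : Fin b → MonoidAlgebra ℤ Γ) ∈ S := by
      intro j g n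
      rw [hS, Submodule.mem_comap]
      by_cases hg : g ∈ Y
      · have h1 : Pull.mk κ (Pi.single j (MonoidAlgebra.single g n) : Fin b → MonoidAlgebra ℤ Γ) ∈
            suppSub κ b Y hY := by
          rw [mem_suppSub]
          intro j' g' hg'
          rw [Pull.un_mk]
          by_cases hj : j' = j
          · subst hj
            rw [Pi.single_eq_same, MonoidAlgebra.coeff_single, Finsupp.single_apply, if_neg]
            rintro rfl
            exact hg' hg
          · rw [Pi.single_eq_of_ne hj]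
            rfl
        rw [Submodule.mkQ_apply, (Submodule.Quotient.mk_eq_zero _).2 h1]
        exact zero_mem _
      · obtain ⟨h, hh⟩ := InjF.rep_spec κ g
        have hr : InjF.rep κ g ∉ Y := by
          intro h1
          apply hg
          rw [hh]
          exact hY h _ h1
        refine ⟨Finsupp.single (j, ⟨InjF.rep κ g, hr, InjF.rep_rep κ g⟩)
          (MonoidAlgebra.single h n), ?_⟩
        rw [hf, LinearMap.comp_apply, InjF.psi_single]
        change (suppSub κ b Y hY).mkQ (Pull.mk κ (Pi.single j (MonoidAlgebra.single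
          (κ h * InjF.rep κ g) n))) = _
        rw [← hh]
    have htop : S = ⊤ := by
      rw [eq_top_iff]
      intro x _
      have h1 : ∀ (j : Fin b) (a : MonoidAlgebra ℤ Γ),
          Pull.mk κ (Pi.single j a : Fin b → MonoidAlgebra ℤ Γ) ∈ S := by
        intro j a
        induction a using MonoidAlgebra.induction_linear with
        | zero =>
          rw [Pi.single_zero]
          exact zero_mem S
        | add a a' ha ha' =>
          rw [Pi.single_add]
          exact add_mem ha ha'
        | single g n => exact hmem j g n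
      have h2 : x = ∑ j, Pull.mk κ (Pi.single j (x.un j) : Fin b → MonoidAlgebra ℤ Γ) :=
        (Finset.univ_sum_single (x.un)).symm
      rw [h2]
      exact sum_mem fun j _ => h1 j _
    rw [eq_top_iff]
    intro q _
    obtain ⟨x, rfl⟩ := Submodule.mkQ_surjective _ q
    have hx : x ∈ S := by rw [htop]; exact Submodule.mem_top
    exact hx
  exact ⟨LinearEquiv.ofBijective f ⟨hinj, hsurj⟩⟩

theorem supp_quot_proj (hκ : Function.Injective κ) (b : ℕ) (Y : Set Γ)
    (hY : ∀ (h : H), ∀ y ∈ Y, κ h * y ∈ Y) :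
    Module.Projective (MonoidAlgebra ℤ H)
      (Pull κ (Fin b → MonoidAlgebra ℤ Γ) ⧸ suppSub κ b Y hY) := by
  obtain ⟨e⟩ := InjF.exists_equiv κ hκ b Y hY
  exact Module.Projective.of_equiv e

theorem supp_quot_ff (hκ : Function.Injective κ) (b : ℕ) (Y : Set Γ)
    (hY : ∀ (h : H), ∀ y ∈ Y, κ h * y ∈ Y) (X : Finset Γ)
    (hX : ∀ g : Γ, g ∉ Y → ∃ x ∈ X, ∃ h : H, g = κ h * x) :
    FF (MonoidAlgebra ℤ H) (Pull κ (Fin b → MonoidAlgebra ℤ Γ) ⧸ suppSub κ b Y hY) := by
  obtain ⟨e⟩ := InjF.exists_equiv κ hκ b Y hY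
  have hfin : (InjF.R κ Y).Finite := by
    refine (X.finite_toSet.image (InjF.rep κ)).subset ?_
    rintro r ⟨hr, hr2⟩
    obtain ⟨x, hx, h, hh⟩ := hX r hr
    refine ⟨x, hx, ?_⟩
    rw [← hr2, hh, InjF.rep_mul]
  have := hfin.to_subtype
  have e2 := Finsupp.linearEquivFunOnFinite (MonoidAlgebra ℤ H) (MonoidAlgebra ℤ H)
    (Fin b × InjF.R κ Y)
  obtain ⟨k, ⟨e3⟩⟩ := Finite.exists_equiv_fin (Fin b × InjF.R κ Y)
  have e4 : ((Fin b × InjF.R κ Y) → MonoidAlgebra ℤ H) ≃ₗ[MonoidAlgebra ℤ H]
      (Fin k → MonoidAlgebra ℤ H) := LinearEquiv.funCongrLeft _ _ e3.symm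
  exact ff_iso ((e4.symm.trans e2.symm).trans e) (ff_pow k)

end

end Pool.Agent.Hhelper49.Srf
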