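import Pool.Agent.Hhelper49.Srf.Base

/-!
# Module Push: existence of amalgams

`Γ = Monoid.PushoutI φ`, `φ : ∀ i : Bool, C →* G i`, `G false = A`, `G true = B`, `φ false = κ`, `φ true = ι` (Mathlib:
`Mathlib/GroupTheory/PushoutI.lean`: `of_injective`, `NormalWord`, `Reduced`, `Reduced.eq_empty_of_mem_range`,
`Reduced.exists_normalWord_prod_eq`).  `α = of false`, `β = of true`.

`S` is the set of all `g` of the form `ofCoprodI w.prod` with `w` a word (`CoprodI.Word G`) which is reduced
(`Reduced φ w`: no letter is in the image of `C`) and whose first letter has index `true` (so `w` is not empty).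
KEY FACT: a nonempty reduced word has a product which is not in the image of `C`.
* `notA`: if `α a = w.prod`, `w ∈ S`-word: if `a ∈ κ(C)` contradiction to the key fact.  Otherwise `a⁻¹ w` is a reduced
  word with product `1`.
* `smulC`: multiply the first letter by `ι c` (it stays outside `ι(C)`).
* `ppA`: if `α a s = s'` with `s, s' ∈ S`, `a ∉ κ(C)`, then `s'⁻¹ a s = 1`; the inverse word of `s'` ends with a letter of
  index `true`, followed by `a` and by the word of `s`: a reduced nonempty word with product `1`.
* `ppB`: `b ∉ ι(C)`, `g ∉ S`.  `g` is in `C` (then `b g ∈ B ∖ C`: one letter word), or has a reduced nonempty expression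
  (every element of `Γ` is in `C` or is the product of a reduced nonempty word: take the normal word and multiply
  the first letter by the head), which cannot start with index `true`, so it starts with index `false`, and
  `b w` is reduced.
* `mulA`: `s = w.prod`, `a ∈ A`.  If the last letter has index `true`: append `a` if `a ∉ κ(C)`, otherwise multiply the last
  letter by `a ∈ C`.  If the last letter `x` has index `false` then `w` has at least two letters; `x a ∉ κ(C)`: replace
  `x` by `x a`; `x a ∈ κ(C)`: drop it and multiply the previous letter (index `true`, maybe the first one) by the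
  corresponding element of `ι(C)`.
* `mulB`: similarly; the only new case is `w = [y]`, `y b ∈ ι(C)`, where `s b ∈ C`.
* `cover`: `g ∈ C ≤ A`, or reduced expression of `g` starting with index `true` (`a = 1`), or starting with `a`, index
  `false`: the rest is empty (`g ∈ A`) or in `S`.
(It may be convenient to work with lists of letters and `List.IsChain`, or to prove everything for the
predicate `red i g`: `g` has a reduced expression starting with index `i`.)
-/

namespace Pool.Agent.Hhelper49.Srf

open Pool.Agent.Hhelper49.Srr

section push

open Monoid Monoid.PushoutI Monoid.PushoutI.NormalWord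

variable {I : Type} {G : I → Type} {H : Type} [∀ i, Group (G i)] [Group H] {φ : ∀ i, H →* G i}
variable [DecidableEq I] [∀ i, DecidableEq (G i)] (d : Transversal φ)

/-- the index of the first letter of the normal form -/
noncomputable def ty (g : PushoutI φ) : Option I := (g • (empty : NormalWord d)).fstIdx

theorem ty_base_mul (h : H) (g : PushoutI φ) : ty d (base φ h * g) = ty d g := by
  rw [ty, mul_smul, base_smul_def]
  rfl

theorem ty_one : ty d (1 : PushoutI φ) = none := by
  rw [ty, one_smul]
  rfl

theorem ty_base (h : H) : ty d (base φ h) = none := by
  rw [← mul_one (base φ h), ty_base_mul, ty_one]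

theorem ty_of_mul {i : I} (x : G i) (hx : x ∉ (φ i).range) (g : PushoutI φ)
    (hg : ty d g ≠ some i) : ty d (of i x * g) = some i := by
  have h1 := cons_eq_smul (φ := φ) (d := d) x (g • empty) hg hx
  rw [ty, mul_smul, ← h1]
  rfl

theorem ty_none {g : PushoutI φ} (hg : ty d g = none) : ∃ h, g = base φ h := by
  have h1 : (g • (empty : NormalWord d)).prod = g := by
    rw [prod_smul, prod_empty, mul_one]
  have h2 : (g • (empty : NormalWord d)).toList = [] := by
    rw [ty, CoprodI.Word.fstIdx, Option.map_eq_none_iff, List.head?_eq_none_iff] at hg
    exact hg
  refine ⟨(g • (empty : NormalWord d)).head, ?_⟩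
  have h3 : (g • (empty : NormalWord d)).toWord = CoprodI.Word.empty := by
    apply CoprodI.Word.ext
    exact h2
  conv_lhs => rw [← h1, NormalWord.prod, h3]
  simp

theorem push_ind (motive : PushoutI φ → Prop) (g : PushoutI φ) (hone : motive 1)
    (hcons : ∀ (i : I) (x : G i) (g : PushoutI φ), x ∉ (φ i).range → ty d g ≠ some i →
      motive g → motive (of i x * g))
    (hbase : ∀ (h : H) (g : PushoutI φ), motive g → motive (base φ h * g)) : motive g := by
  have key : ∀ w : NormalWord d, motive w.prod := by
    intro w
    induction w using consRecOn with
    | empty => rw [prod_empty]; exact hone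
    | cons i x w hmw _ hgr _ ih =>
      rw [prod_cons]
      refine hcons i x _ hgr ?_ ih
      rw [ty, prod_smul_empty]
      exact hmw
    | base h w _ ih =>
      rw [prod_smul]
      exact hbase h _ ih
  have h1 : (g • (empty : NormalWord d)).prod = g := by
    rw [prod_smul, prod_empty, mul_one]
  rw [← h1]
  exact key _

theorem ty_of (i : I) (x : G i) : ty d (of i x : PushoutI φ) = none ∨
    ty d (of i x : PushoutI φ) = some i := by
  by_cases hx : x ∈ (φ i).range
  · obtain ⟨h, rfl⟩ := hx
    left
    rw [of_apply_eq_base]
    exact ty_base d h
  · right
    rw [← mul_one (of i x)]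
    exact ty_of_mul d x hx 1 (by rw [ty_one]; simp)

/-- right multiplication by a letter -/
theorem ty_mul_of (g : PushoutI φ) : ∀ (i : I), ty d g = some i → ∀ (j : I) (x : G j),
    ty d (g * of j x) = some i ∨ ∃ h, g * of j x = base φ h := by
  induction g using push_ind d with
  | hone =>
    intro i hi
    rw [ty_one] at hi
    exact absurd hi (by simp)
  | hbase h g ih =>
    intro i hi j x
    rw [ty_base_mul] at hi
    rw [mul_assoc, ty_base_mul]
    rcases ih i hi j x with h1 | ⟨h', h1⟩
    · exact Or.inl h1
    · right
      refine ⟨h * h', ?_⟩
      rw [h1, map_mul]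
  | hcons i y g hy hg ih =>
    intro i' hi' j x
    rw [ty_of_mul d y hy g hg] at hi'
    obtain rfl : i = i' := Option.some.inj hi'
    rw [mul_assoc]
    by_cases h1 : ty d (g * of j x) = some i
    · rcases hk : ty d g with _ | k
      · obtain ⟨h, rfl⟩ := ty_none d hk
        rw [ty_base_mul] at h1
        have h2 : j = i := by
          rcases ty_of d j x with h3 | h3
          · rw [h3] at h1
            exact absurd h1 (by simp)
          · rw [h3] at h1
            exact Option.some.inj h1
        subst h2
        have h3 : (of j y * (base φ h * of j x) : PushoutI φ) = of j (y * (φ j h * x)) := by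
          rw [map_mul, map_mul, of_apply_eq_base]
        rw [h3]
        rcases hT : ty d (of j (y * (φ j h * x)) : PushoutI φ) with _ | l
        · right
          exact ty_none d hT
        · left
          rcases ty_of d j (y * (φ j h * x)) with h4 | h4
          · rw [h4] at hT
            exact absurd hT (by simp)
          · rw [← hT, h4]
      · exfalso
        rcases ih k hk j x with h2 | ⟨h, h2⟩
        · rw [h1] at h2
          rw [hk] at hg
          exact hg h2.symm
        · rw [h2, ty_base] at h1
          exact absurd h1 (by simp)
    · left
      exact ty_of_mul d y hy _ h1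

theorem ty_decomp (g : PushoutI φ) : ∀ (i : I), ty d g = some i →
    ∃ (x : G i) (g' : PushoutI φ), ty d g' ≠ some i ∧ g = of i x * g' := by
  induction g using push_ind d with
  | hone =>
    intro i hi
    rw [ty_one] at hi
    exact absurd hi (by simp)
  | hbase h g ih =>
    intro i hi
    rw [ty_base_mul] at hi
    obtain ⟨x, g', h1, h2⟩ := ih i hi
    refine ⟨φ i h * x, g', h1, ?_⟩
    rw [h2, map_mul, of_apply_eq_base, mul_assoc]
  | hcons i y g hy hg ih =>
    intro i' hi'
    rw [ty_of_mul d y hy g hg] at hi'
    obtain rfl : i = i' := Option.some.inj hi'
    exact ⟨y, g, hg, rfl⟩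

end push

/-- the two groups -/
def Fam (A B : Type) : Bool → Type
  | false => A
  | true => B

instance Fam.group (A B : Type) [Group A] [Group B] : ∀ i, Group (Fam A B i)
  | false => inferInstanceAs (Group A)
  | true => inferInstanceAs (Group B)

/-- the two homomorphisms -/
def famHom {A B C : Type} [Group A] [Group B] [Group C] (κ : C →* A) (ι : C →* B) :
    ∀ i, C →* Fam A B i
  | false => κ
  | true => ι

theorem push_amal (A B C : Type) [Group A] [Group B] [Group C] (κ : C →* A) (ι : C →* B)
    (hκ : Function.Injective κ) (hι : Function.Injective ι) :
    ∃ (Γ : Type) (_ : Group Γ) (α : A →* Γ) (β : B →* Γ) (S : Set Γ), Amal α β κ ι S := by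
  classical
  let φ : ∀ i, C →* Fam A B i := famHom κ ι
  have hφ : ∀ i, Function.Injective (φ i) := by
    intro i
    cases i
    · exact hκ
    · exact hι
  obtain ⟨d⟩ := Monoid.PushoutI.NormalWord.transversal_nonempty φ hφ
  let α : A →* Monoid.PushoutI φ := Monoid.PushoutI.of (φ := φ) false
  let β : B →* Monoid.PushoutI φ := Monoid.PushoutI.of (φ := φ) true
  have hα : ∀ c, α (κ c) = Monoid.PushoutI.base φ c := fun c =>
    Monoid.PushoutI.of_apply_eq_base φ false c
  have hβ : ∀ c, β (ι c) = Monoid.PushoutI.base φ c := fun c =>
    Monoid.PushoutI.of_apply_eq_base φ true c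
  have tyA : ∀ a, ty d (α a) = none ∨ ty d (α a) = some false := fun a => ty_of d false a
  refine ⟨Monoid.PushoutI φ, inferInstance, α, β, {g | ty d g = some true}, ?_⟩
  exact
    { injA := Monoid.PushoutI.of_injective hφ false
      injB := Monoid.PushoutI.of_injective hφ true
      injκ := hκ
      injι := hι
      comm := fun c => by rw [hα, hβ]
      gen := by
        rw [eq_top_iff]
        intro g _
        induction g using Monoid.PushoutI.induction_on with
        | of i x =>
          cases i
          · exact (le_sup_left : α.range ≤ _) ⟨x, rfl⟩
          · exact (le_sup_right : β.range ≤ _) ⟨x, rfl⟩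
        | base h =>
          rw [← hα]
          exact (le_sup_left : α.range ≤ _) ⟨_, rfl⟩
        | mul x y hx hy => exact mul_mem (hx trivial) (hy trivial)
      notA := by
        intro a ha
        rw [Set.mem_ofPred_eq] at ha
        rcases tyA a with h | h
        · rw [h] at ha
          exact absurd ha (by simp)
        · rw [h] at ha
          exact absurd ha (by simp)
      smulC := by
        intro c s hs
        rw [Set.mem_ofPred_eq] at hs ⊢
        rw [hα, ty_base_mul]
        exact hs
      mulA := by
        intro s hs a
        rw [Set.mem_ofPred_eq] at hs ⊢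
        rcases ty_mul_of d s true hs false a with h | ⟨c, h⟩
        · exact h
        · exfalso
          have h1 : s = α (κ c * a⁻¹) := by
            rw [map_mul, map_inv, hα, ← h]
            exact (mul_inv_cancel_right s (α a)).symm
          rw [h1] at hs
          rcases tyA (κ c * a⁻¹) with h2 | h2
          · rw [h2] at hs
            exact absurd hs (by simp)
          · rw [h2] at hs
            exact absurd hs (by simp)
      mulB := by
        intro s hs b
        rw [Set.mem_ofPred_eq] at hs
        rcases ty_mul_of d s true hs true b with h | ⟨c, h⟩
        · exact Or.inl h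
        · right
          refine ⟨c, ?_⟩
          rw [hα]
          exact h
      ppA := by
        intro a ha s hs h
        rw [Set.mem_ofPred_eq] at hs h
        have h1 : ty d (α a * s) = some false := ty_of_mul d (i := false) a ha s (by
          rw [hs]
          simp)
        rw [h1] at h
        exact absurd h (by simp)
      ppB := by
        intro b hb g hg
        exact ty_of_mul d (i := true) b hb g hg
      cover := by
        intro g
        rcases hT : ty d g with _ | i
        · left
          obtain ⟨c, rfl⟩ := ty_none d hT
          rw [← hα]
          exact ⟨_, rfl⟩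
        · cases i
          · obtain ⟨x, g', h1, h2⟩ := ty_decomp d g false hT
            rcases hT' : ty d g' with _ | j
            · left
              obtain ⟨c, rfl⟩ := ty_none d hT'
              rw [h2, ← hα]
              let x' : A := x
              exact ⟨x' * κ c, map_mul α x' (κ c)⟩
            · cases j
              · exact absurd hT' h1
              · right
                exact ⟨x, g', hT', h2⟩
          · right
            refine ⟨1, g, hT, ?_⟩
            rw [map_one, one_mul] }

end Pool.Agent.Hhelper49.Srf
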