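import Pool.Agent.Hhelper49.Srf.BS
import Pool.Agent.Hhelper49.Srf.Push
import Pool.Agent.Hhelper49.Srf.AmalF

/-!
# Module Kone: the group `⟨a, b, c | a b a⁻¹ = b², b c b⁻¹ = c²⟩`

Let `E, a, b` be as in `exists_bs`, and `κ, ι : Multiplicative ℤ →* E`, `κ n = b^n`, `ι n = a^n` (injective), `Γ` the
amalgam (`push_amal`) of two copies of `E` with `α (b^n) = β (a^n)`.  `K = Γ`, with the elements `α a`, `α b = β a`, `β b`.
* relations and generation: clear (`gen`).  (FF): `amal_ff` (`typeFF_of_cyclic` for `Multiplicative ℤ`).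
* the homomorphism `FreeGroup (Fin 2) → K`, `0 ↦ α a`, `1 ↦ β b` is injective: ping-pong with `Γ` acting on itself by left
multiplication.  For `m ≠ 0`: `a^m ∉ κ.range`, so `α (a^m) S ⊆ Sᶜ` (`ppA`); for `n ≠ 0`: `b^n ∉ ι.range`, so
`β (b^n) Sᶜ ⊆ S` (`ppB`).  `1 ∈ Sᶜ` (`notA`), `β b ∈ S`.  Use `Monoid.CoprodI.lift_injective_of_ping_pong` (with the groups
`Multiplicative ℤ` or `FreeGroup Unit`) and `freeGroupEquivCoprodI`, or prove directly that an alternating product of
nontrivial powers is not `1`.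
-/

namespace Pool.Agent.Hhelper49.Srf

open Pool.Agent.Hhelper49.Srr

section pp

open Cardinal Monoid Monoid.CoprodI
open scoped Function
open scoped Pointwise

theorem kone_torfree : TorFree (Multiplicative ℤ) := by
  intro g n hn hg
  have h1 : (n : ℤ) * Multiplicative.toAdd g = 0 := by
    have h2 := congrArg Multiplicative.toAdd hg
    rwa [toAdd_pow, toAdd_one, nsmul_eq_mul] at h2
  rcases mul_eq_zero.1 h1 with h2 | h2
  · omega
  · exact h2

set_option backward.isDefEq.respectTransparency false in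
/-- ping-pong of a group with itself -/
theorem kone_pp {G : Type} [Group G] (a c : G) (S : Set G) (h1 : (1 : G) ∉ S)
    (hA : ∀ m : ℤ, m ≠ 0 → ∀ s ∈ S, a ^ m * s ∉ S)
    (hC : ∀ n : ℤ, n ≠ 0 → ∀ s ∉ S, c ^ n * s ∈ S) :
    Function.Injective (FreeGroup.lift ![a, c] : FreeGroup (Fin 2) →* G) := by
  have : FreeGroup.lift ![a, c] =
      (CoprodI.lift fun i => FreeGroup.lift fun _ => ![a, c] i).comp
        (@freeGroupEquivCoprodI (Fin 2)).toMonoidHom := by
    ext i
    simp
  rw [this, MonoidHom.coe_comp]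
  clear this
  refine Function.Injective.comp ?_ (MulEquiv.injective freeGroupEquivCoprodI)
  change Function.Injective (lift fun i : Fin 2 => FreeGroup.lift fun _ => ![a, c] i)
  let H : Fin 2 → Type _ := fun _i => FreeGroup Unit
  let f : ∀ i, H i →* G := fun i => FreeGroup.lift fun _ => ![a, c] i
  let X' : Fin 2 → Set G := ![Sᶜ, S]
  apply lift_injective_of_ping_pong f _ X'
  · intro i
    fin_cases i
    · exact ⟨1, h1⟩
    · refine ⟨c ^ (1 : ℤ) * 1, hC 1 one_ne_zero 1 h1⟩
  · intro i j hij
    fin_cases i <;> fin_cases j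
    · exact absurd rfl hij
    · exact disjoint_compl_left
    · exact disjoint_compl_right
    · exact absurd rfl hij
  · change Pairwise fun i j => ∀ h : H i, h ≠ 1 → f i h • X' j ⊆ X' i
    rintro i j hij
    refine FreeGroup.freeGroupUnitEquivInt.forall_congr_left.mpr ?_
    intro n hne1
    change FreeGroup.lift (fun _ => ![a, c] i) (FreeGroup.of () ^ n) • X' j ⊆ X' i
    simp only [map_zpow, FreeGroup.lift_apply_of]
    have hnne0 : n ≠ 0 := by
      rintro rfl
      apply hne1
      simp [H, FreeGroup.freeGroupUnitEquivInt]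
    clear hne1
    rintro _ ⟨x, hx, rfl⟩
    fin_cases i <;> fin_cases j
    · exact absurd rfl hij
    · exact hA n hnne0 x hx
    · exact hC n hnne0 x hx
    · exact absurd rfl hij
  · show _ ∨ ∃ i, 3 ≤ #(H i)
    right
    use 0
    simp only [H]
    rw [FreeGroup.freeGroupUnitEquivInt.cardinal_eq, Cardinal.mk_denumerable]
    exact natCast_le_aleph0

end pp

theorem exists_kone : ∃ (K : Type) (_ : Group K) (a b c : K), TypeFF K ∧ a * b * a⁻¹ = b ^ 2 ∧
    b * c * b⁻¹ = c ^ 2 ∧ Subgroup.closure {a, b, c} = ⊤ ∧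
    Function.Injective (FreeGroup.lift ![a, c] : FreeGroup (Fin 2) →* K) := by
  obtain ⟨E, hE, a, b, hFF, hrel, hgen, hab⟩ := exists_bs
  let κ : Multiplicative ℤ →* E := zpowersHom E b
  let ι : Multiplicative ℤ →* E := zpowersHom E a
  have hκa : ∀ c : Multiplicative ℤ, κ c = b ^ c.toAdd := fun c => zpowersHom_apply E b c
  have hιa : ∀ c : Multiplicative ℤ, ι c = a ^ c.toAdd := fun c => zpowersHom_apply E a c
  have hκ : Function.Injective κ := by
    rw [injective_iff_map_eq_one]
    intro c hc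
    rw [hκa] at hc
    have := (hab 0 c.toAdd (by rw [zpow_zero, hc])).2
    exact this
  have hι : Function.Injective ι := by
    rw [injective_iff_map_eq_one]
    intro c hc
    rw [hιa] at hc
    have := (hab c.toAdd 0 (by rw [zpow_zero, hc])).1
    exact this
  obtain ⟨Γ, hΓ, α, β, S, h⟩ := push_amal E E (Multiplicative ℤ) κ ι hκ hι
  have hc : α b = β a := by
    have := h.comm (Multiplicative.ofAdd 1)
    rw [hκa, hιa] at this
    simpa using this
  have hZ : TypeFF (Multiplicative ℤ) := by
    refine typeFF_of_cyclic _ inferInstance ?_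
    exact kone_torfree
  refine ⟨Γ, hΓ, α a, α b, β b, amal_ff h hFF hFF hZ, ?_, ?_, ?_, ?_⟩
  · rw [← map_inv, ← map_mul, ← map_mul, hrel, map_pow]
  · rw [hc, ← map_inv, ← map_mul, ← map_mul, hrel, map_pow]
  · rw [eq_top_iff, ← h.gen]
    refine sup_le ?_ ?_
    · rw [MonoidHom.range_eq_map, ← hgen, MonoidHom.map_closure, Subgroup.closure_le]
      rintro _ ⟨x, hx, rfl⟩
      rcases hx with rfl | hx
      · exact Subgroup.subset_closure (by simp)
      · rw [Set.mem_singleton_iff] at hx
        rw [hx]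
        exact Subgroup.subset_closure (by simp)
    · rw [MonoidHom.range_eq_map, ← hgen, MonoidHom.map_closure, Subgroup.closure_le]
      rintro _ ⟨x, hx, rfl⟩
      rcases hx with rfl | hx
      · rw [← hc]
        exact Subgroup.subset_closure (by simp)
      · rw [Set.mem_singleton_iff] at hx
        rw [hx]
        exact Subgroup.subset_closure (by simp)
  · have hA : ∀ m : ℤ, m ≠ 0 → ∀ s ∈ S, (α a) ^ m * s ∉ S := by
      intro m hm s hs
      rw [← map_zpow]
      refine h.ppA (a ^ m) ?_ s hs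
      rintro ⟨c, hc⟩
      rw [hκa] at hc
      exact hm (hab m _ hc.symm).1
    have hB : ∀ n : ℤ, n ≠ 0 → ∀ s ∉ S, (β b) ^ n * s ∈ S := by
      intro n hn s hs
      rw [← map_zpow]
      refine h.ppB (b ^ n) ?_ s hs
      rintro ⟨c, hc⟩
      rw [hιa] at hc
      exact hn (hab _ n hc).2
    exact kone_pp (α a) (β b) S (by
      have := h.notA 1
      rwa [map_one] at this) hA hB

end Pool.Agent.Hhelper49.Srf
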