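import Pool.Agent.Hhelper49.Srf.Base

/-!
# Module MV: the exact sequence of an amalgam

`Γ` acts on the tree with vertices `Γ/A ⊔ Γ/B` and edges `Γ/C`.

(1) `amal_exact`: `f (δ_(gC)) = (δ_(gA), - δ_(gB))`, `g (δ_(gA), 0) = 1`, `g (0, δ_(gB)) = 1`.  (`Γ ⧸ (α.comp κ).range` maps to
`Γ ⧸ α.range` because `(α.comp κ).range ≤ α.range`, and to `Γ ⧸ β.range` because `α (κ c) = β (ι c)`.)
* `g` surjective: clear.  `g ∘ f = 0`: clear.
* `ker g ≤ range f`: let `L` be the range of `f`.  Modulo `L`, `δ_(gA) ≡ - (0, - δ_(gB))`, i.e. `(δ_(gA), 0) ≡ (0, δ_(gB))` for all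
  `g`; so `(δ_(gA), 0) ≡ (δ_(g'A), 0)` if `g' = g a` or `g' = g b`, `a ∈ A`, `b ∈ B`; as `A` and `B` generate `Γ`, all
  `(δ_(gA), 0)` and all `(0, δ_(gB))` are congruent to `(δ_(1A), 0)`, so `x ≡ g(x) (δ_(1A), 0)`.
* `f` injective: define additive maps `σ : ℤ[Γ/A] × ℤ[Γ/B] → ℤ`, `σ (δ_(gA), 0) = 1` if `g ∈ S` and `0` otherwise,
  `σ (0, δ_(gB)) = 1` if `g ∈ S ∪ C` and `0` otherwise (`C` the image of `C` in `Γ`).  Well defined: `S A = S` (`mulA`, and
  `A` is a group), `(S ∪ C) B = S ∪ C`: for `s ∈ S` this is `mulB`; for `c ∈ C`, `b ∈ B`: `c b ∈ B`, and an element `b'` of `B` is in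
  `C` or (by `ppB` with `g = 1 ∉ S`) in `S`.  Then `σ (f (δ_(gC))) = 0` for `g ∉ C`: if `g ∈ S` this is `1 - 1`, otherwise
  `g ∉ S ∪ C`, `0 - 0`.  And `σ (f (δ_(1C))) = 0 - 1 = -1` (`1 ∉ S` by `notA`).  So `σ (f x) = -` the coefficient of `x` at `1C`;
  if `f x = 0` then `0 = σ (f (act g⁻¹ x))` gives that the coefficient of `x` at `gC` is zero, for all `g`.
(2) `amal_half`: `ai`: let `γ ∈ Γ`; the set of `γ` for which the statement holds contains `α a` (`X = ∅` by `mulA`) and
`β b` (`X = {(β b)⁻¹}`: if `g ∈ S`, `g β b ∉ S` then `g β b = α (κ c)`, `g = α (κ c) (β b)⁻¹`) and is closed under products: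
if `g γ₁ γ₂ ∉ S`: either `g γ₁ ∉ S`, `g ∈ C X₁`, or `g γ₁ ∈ S` and `(g γ₁) γ₂ ∉ S`, `g γ₁ ∈ C X₂`, `g ∈ C X₂ γ₁⁻¹`.  As the subgroup
generated by `A ∪ B` is everything and `A ∪ B` is closed under inverses, use `Subgroup.closure_induction` (or the
submonoid version `Subgroup.closure_toSubmonoid`).
-/

set_option linter.unusedSectionVars false

namespace Pool.Agent.Hhelper49.Srf

open Pool.Agent.Hhelper49.Srr

/-! ### additive maps between permutation modules -/

section
variable {Γ X Y : Type} [Group Γ]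

/-- the map of permutation modules induced by a map of sets -/
private noncomputable def pm (Γ : Type) {X Y : Type} (φ : X → Y) : PermF Γ X →+ PermF Γ Y :=
  Finsupp.mapDomain.addMonoidHom (M := ℤ) φ

private theorem pm_single (φ : X → Y) (x : X) (n : ℤ) :
    pm Γ φ (PermF.single Γ X x n) = PermF.single Γ Y (φ x) n :=
  Finsupp.mapDomain_single

private theorem pm_act [MulAction Γ X] [MulAction Γ Y] (φ : X → Y)
    (hφ : ∀ (g : Γ) x, φ (g • x) = g • φ x) (g : Γ) (a : PermF Γ X) :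
    pm Γ φ (act g a) = act g (pm Γ φ a) := by
  induction a using PermF.induction with
  | h0 => rw [act, smul_zero, map_zero, act, smul_zero]
  | hadd a b ha hb => rw [act, smul_add, map_add, map_add, act, smul_add]; exact congrArg₂ _ ha hb
  | hs y n => rw [PermF.act_single, pm_single, pm_single, PermF.act_single, hφ]

/-- the weighted sum of the coefficients -/
private noncomputable def ws (Γ : Type) {X : Type} (w : X → ℤ) : PermF Γ X →+ ℤ :=
  Finsupp.liftAddHom (fun x => AddMonoidHom.mulRight (w x))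

private theorem ws_single (w : X → ℤ) (x : X) (n : ℤ) :
    ws Γ w (PermF.single Γ X x n) = n * w x :=
  Finsupp.liftAddHom_apply_single _ _ _

private theorem single_add (x : X) (n m : ℤ) :
    PermF.single Γ X x (n + m) = PermF.single Γ X x n + PermF.single Γ X x m :=
  Finsupp.single_add x n m

private theorem single_zero (x : X) : PermF.single Γ X x 0 = 0 := Finsupp.single_zero x

end

section
variable {A B C Γ : Type} [Group A] [Group B] [Group C] [Group Γ]
  {α : A →* Γ} {β : B →* Γ} {κ : C →* A} {ι : C →* B} {S : Set Γ}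

theorem amal_exact (h : Amal α β κ ι S) :
    ∃ (f : PermF Γ (Γ ⧸ (α.comp κ).range) →ₗ[MonoidAlgebra ℤ Γ]
        PermF Γ (Γ ⧸ α.range) × PermF Γ (Γ ⧸ β.range))
      (g : PermF Γ (Γ ⧸ α.range) × PermF Γ (Γ ⧸ β.range) →ₗ[MonoidAlgebra ℤ Γ] Triv Γ),
      Function.Injective f ∧ Function.Surjective g ∧ LinearMap.range f = LinearMap.ker g := by
  classical
  have hCA : (α.comp κ).range ≤ α.range := by
    rintro _ ⟨c, rfl⟩
    exact ⟨κ c, rfl⟩
  have hCB : (α.comp κ).range ≤ β.range := by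
    rintro _ ⟨c, rfl⟩
    exact ⟨ι c, (h.comm c).symm⟩
  obtain ⟨φ, hφ⟩ : ∃ φ : Γ ⧸ (α.comp κ).range → Γ ⧸ α.range, φ = Subgroup.quotientMapOfLE hCA :=
    ⟨_, rfl⟩
  obtain ⟨ψ, hψ⟩ : ∃ ψ : Γ ⧸ (α.comp κ).range → Γ ⧸ β.range, ψ = Subgroup.quotientMapOfLE hCB :=
    ⟨_, rfl⟩
  have hφm : ∀ g : Γ, φ (g : Γ ⧸ (α.comp κ).range) = (g : Γ ⧸ α.range) := by
    intro g
    rw [hφ]
    rfl
  have hψm : ∀ g : Γ, ψ (g : Γ ⧸ (α.comp κ).range) = (g : Γ ⧸ β.range) := by
    intro g
    rw [hψ]
    rfl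
  have hφa : ∀ (g : Γ) x, φ (g • x) = g • φ x := by
    intro g x
    obtain ⟨y, rfl⟩ := QuotientGroup.mk_surjective x
    rw [hφm]
    exact hφm (g * y)
  have hψa : ∀ (g : Γ) x, ψ (g • x) = g • ψ x := by
    intro g x
    obtain ⟨y, rfl⟩ := QuotientGroup.mk_surjective x
    rw [hψm]
    exact hψm (g * y)
  -- the maps
  let f : PermF Γ (Γ ⧸ (α.comp κ).range) →ₗ[MonoidAlgebra ℤ Γ]
        PermF Γ (Γ ⧸ α.range) × PermF Γ (Γ ⧸ β.range) :=
    (mkLin (pm Γ φ) (pm_act φ hφa)).prod (-(mkLin (pm Γ ψ) (pm_act ψ hψa)))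
  have hf : ∀ x, f x = (pm Γ φ x, - pm Γ ψ x) := fun x => rfl
  let g0 : PermF Γ (Γ ⧸ α.range) × PermF Γ (Γ ⧸ β.range) →+ Triv Γ :=
    (AddMonoidHom.coprod (ws Γ (fun _ => 1)) (ws Γ (fun _ => 1)) :
      PermF Γ (Γ ⧸ α.range) × PermF Γ (Γ ⧸ β.range) →+ ℤ)
  have hws : ∀ (K : Subgroup Γ) (g : Γ) (a : PermF Γ (Γ ⧸ K)),
      ws Γ (fun _ => (1 : ℤ)) (act g a) = ws Γ (fun _ => (1 : ℤ)) a := by
    intro K g a
    induction a using PermF.induction with
    | h0 => rw [act, smul_zero]
    | hadd a b ha hb => rw [act, smul_add, map_add, map_add]; exact congrArg₂ _ ha hb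
    | hs y n => rw [PermF.act_single, ws_single, ws_single]
  have hg0 : ∀ x, g0 x = (ws Γ (fun _ => 1) x.1 + ws Γ (fun _ => 1) x.2 : ℤ) := fun x => rfl
  let g : PermF Γ (Γ ⧸ α.range) × PermF Γ (Γ ⧸ β.range) →ₗ[MonoidAlgebra ℤ Γ] Triv Γ :=
    mkLin g0 (by
      intro γ x
      rw [act_triv, hg0, hg0]
      exact congrArg₂ (fun a b : ℤ => a + b) (hws _ γ x.1) (hws _ γ x.2))
  have hg : ∀ x, g x = (ws Γ (fun _ => 1) x.1 + ws Γ (fun _ => 1) x.2 : ℤ) := fun x => rfl
  refine ⟨f, g, ?_, ?_, ?_⟩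
  · -- injectivity
    have h1S : (1 : Γ) ∉ S := by
      have := h.notA 1
      rwa [map_one] at this
    obtain ⟨wA, hwA⟩ : ∃ w : Γ ⧸ α.range → ℤ, ∀ y : Γ, w (y : Γ ⧸ α.range) =
        if y ∈ S then 1 else 0 := by
      refine ⟨fun q => if ∃ y ∈ S, (y : Γ ⧸ α.range) = q then 1 else 0, fun y => ?_⟩
      have : (∃ y' ∈ S, (y' : Γ ⧸ α.range) = (y : Γ ⧸ α.range)) ↔ y ∈ S := by
        constructor
        · rintro ⟨y', hy', he⟩
          rw [QuotientGroup.eq] at he
          obtain ⟨a, ha⟩ := he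
          have h2 := h.mulA y' hy' a
          rwa [ha, mul_inv_cancel_left] at h2
        · intro hy
          exact ⟨y, hy, rfl⟩
      simp only [this]
    obtain ⟨wB, hwB⟩ : ∃ w : Γ ⧸ β.range → ℤ, ∀ y : Γ, w (y : Γ ⧸ β.range) =
        if (y ∈ S ∨ y ∈ (α.comp κ).range) then 1 else 0 := by
      refine ⟨fun q => if ∃ y, (y ∈ S ∨ y ∈ (α.comp κ).range) ∧ (y : Γ ⧸ β.range) = q
        then 1 else 0, fun y => ?_⟩
      have : (∃ y', (y' ∈ S ∨ y' ∈ (α.comp κ).range) ∧ (y' : Γ ⧸ β.range) = (y : Γ ⧸ β.range)) ↔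
          (y ∈ S ∨ y ∈ (α.comp κ).range) := by
        constructor
        · rintro ⟨y', hy', he⟩
          rw [QuotientGroup.eq] at he
          obtain ⟨b, hb⟩ := he
          rcases hy' with hy' | ⟨c, hc⟩
          · rcases h.mulB y' hy' b with h2 | ⟨c, h2⟩
            · left
              rwa [hb, mul_inv_cancel_left] at h2
            · right
              rw [hb, mul_inv_cancel_left] at h2
              exact ⟨c, h2.symm⟩
          · have hy : y = β (ι c * b) := by
              rw [map_mul, ← h.comm, hb]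
              have : α (κ c) = y' := hc
              rw [this, mul_inv_cancel_left]
            by_cases hb' : ι c * b ∈ ι.range
            · obtain ⟨c', hc'⟩ := hb'
              right
              refine ⟨c', ?_⟩
              show α (κ c') = y
              rw [h.comm, hc', hy]
            · left
              have := h.ppB _ hb' 1 h1S
              rwa [mul_one, ← hy] at this
        · intro hy
          exact ⟨y, hy, rfl⟩
      simp only [this]
    have key : ∀ x, ws Γ wA (pm Γ φ x) - ws Γ wB (pm Γ ψ x) =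
        - PermF.coeff ((1 : Γ) : Γ ⧸ (α.comp κ).range) x := by
      intro x
      induction x using PermF.induction with
      | h0 => simp
      | hadd a b ha hb =>
        rw [map_add, map_add, map_add, map_add, map_add]
        linarith
      | hs y n =>
        obtain ⟨y, rfl⟩ := QuotientGroup.mk_surjective y
        rw [pm_single, pm_single, ws_single, ws_single, PermF.coeff_single]
        rw [hφm, hψm, hwA, hwB]
        have hy1 : ((y : Γ ⧸ (α.comp κ).range) = ((1 : Γ) : Γ ⧸ (α.comp κ).range)) ↔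
            y ∈ (α.comp κ).range := by
          rw [QuotientGroup.eq, mul_one, inv_mem_iff]
        rw [if_congr hy1 rfl rfl]
        by_cases hyC : y ∈ (α.comp κ).range
        · have hyS : y ∉ S := by
            obtain ⟨c, rfl⟩ := hyC
            exact h.notA (κ c)
          rw [if_neg hyS, if_pos (Or.inr hyC), if_pos hyC]
          ring
        · rw [if_neg hyC]
          by_cases hyS : y ∈ S
          · rw [if_pos hyS, if_pos (Or.inl hyS)]
            ring
          · rw [if_neg hyS, if_neg (by tauto)]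
            ring
    rw [injective_iff_map_eq_zero]
    intro x hx
    apply PermF.ext
    intro q
    obtain ⟨y, rfl⟩ := QuotientGroup.mk_surjective q
    rw [map_zero]
    have h2 : f (act y⁻¹ x) = 0 := by
      rw [lin_act, hx, act, smul_zero]
    rw [hf] at h2
    have h3 : pm Γ φ (act y⁻¹ x) = 0 := congrArg Prod.fst h2
    have h4 : pm Γ ψ (act y⁻¹ x) = 0 := neg_eq_zero.1 (congrArg Prod.snd h2)
    have h5 := key (act y⁻¹ x)
    rw [h3, h4, map_zero, map_zero, PermF.coeff_act, inv_inv] at h5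
    have h6 : y • (((1 : Γ) : Γ ⧸ (α.comp κ).range)) = (y : Γ ⧸ (α.comp κ).range) := by
      show ((y * 1 : Γ) : Γ ⧸ (α.comp κ).range) = _
      rw [mul_one]
    rw [h6] at h5
    have h7 : PermF.coeff (y : Γ ⧸ (α.comp κ).range) x = 0 := by linarith
    exact h7
  · -- surjectivity
    intro n
    refine ⟨(PermF.single Γ _ ((1 : Γ) : Γ ⧸ α.range) n, 0), ?_⟩
    rw [hg]
    show (ws Γ (fun _ => 1) (PermF.single Γ _ ((1 : Γ) : Γ ⧸ α.range) n) +
      ws Γ (fun _ => 1) 0 : ℤ) = n
    rw [ws_single, map_zero, mul_one, add_zero]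
  · apply le_antisymm
    · rintro _ ⟨x, rfl⟩
      rw [LinearMap.mem_ker, hf, hg]
      show (ws Γ (fun _ => 1) (pm Γ φ x) + ws Γ (fun _ => 1) (- pm Γ ψ x) : ℤ) = 0
      induction x using PermF.induction with
      | h0 => simp
      | hadd a b ha hb =>
        rw [map_add, map_add, map_add, neg_add, map_add]
        linarith
      | hs y n =>
        rw [pm_single, pm_single, map_neg, ws_single, ws_single]
        ring
    · set L := LinearMap.range f with hL
      -- `A`-vertices and `B`-vertices are congruent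
      have c1 : ∀ (y : Γ) (n : ℤ), ((PermF.single Γ _ (y : Γ ⧸ α.range) n,
          - PermF.single Γ _ (y : Γ ⧸ β.range) n) :
            PermF Γ (Γ ⧸ α.range) × PermF Γ (Γ ⧸ β.range)) ∈ L := by
        intro y n
        refine ⟨PermF.single Γ _ (y : Γ ⧸ (α.comp κ).range) n, ?_⟩
        rw [hf, pm_single, pm_single, hφm, hψm]
      let K : Subgroup Γ :=
        { carrier := {γ | ∀ (y : Γ) (n : ℤ), ((PermF.single Γ _ ((y * γ : Γ) : Γ ⧸ α.range) n -
            PermF.single Γ _ (y : Γ ⧸ α.range) n, 0) :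
              PermF Γ (Γ ⧸ α.range) × PermF Γ (Γ ⧸ β.range)) ∈ L}
          mul_mem' := by
            intro γ γ' h1 h2 y n
            have := L.add_mem (h1 y n) (h2 (y * γ) n)
            rw [Prod.mk_add_mk, add_zero] at this
            rw [← mul_assoc]
            rwa [sub_add_sub_cancel'] at this
          one_mem' := by
            intro y n
            rw [mul_one, sub_self]
            exact L.zero_mem
          inv_mem' := by
            intro γ h1 y n
            have := L.neg_mem (h1 (y * γ⁻¹) n)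
            rw [inv_mul_cancel_right, Prod.neg_mk, neg_sub, neg_zero] at this
            exact this }
      have hKA : α.range ≤ K := by
        rintro _ ⟨a, rfl⟩ y n
        have : ((y * α a : Γ) : Γ ⧸ α.range) = (y : Γ ⧸ α.range) := by
          rw [eq_comm, QuotientGroup.eq, inv_mul_cancel_left]
          exact ⟨a, rfl⟩
        rw [this, sub_self]
        exact L.zero_mem
      have hKB : β.range ≤ K := by
        rintro _ ⟨b, rfl⟩ y n
        have h1 : ((y * β b : Γ) : Γ ⧸ β.range) = (y : Γ ⧸ β.range) := by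
          rw [eq_comm, QuotientGroup.eq, inv_mul_cancel_left]
          exact ⟨b, rfl⟩
        have h2 := L.sub_mem (c1 (y * β b) n) (c1 y n)
        rw [h1, Prod.mk_sub_mk, sub_self] at h2
        exact h2
      have hK : ∀ γ : Γ, γ ∈ K := by
        intro γ
        have h1 : (⊤ : Subgroup Γ) ≤ K := by
          rw [← h.gen]
          exact sup_le hKA hKB
        exact h1 (Subgroup.mem_top γ)
      have c2 : ∀ (y : Γ) (n : ℤ), ((PermF.single Γ _ (y : Γ ⧸ α.range) n -
          PermF.single Γ _ ((1 : Γ) : Γ ⧸ α.range) n, 0) :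
            PermF Γ (Γ ⧸ α.range) × PermF Γ (Γ ⧸ β.range)) ∈ L := by
        intro y n
        have := hK y 1 n
        rwa [one_mul] at this
      have c3 : ∀ a : PermF Γ (Γ ⧸ α.range), ((a -
          PermF.single Γ _ ((1 : Γ) : Γ ⧸ α.range) (ws Γ (fun _ => 1) a), 0) :
            PermF Γ (Γ ⧸ α.range) × PermF Γ (Γ ⧸ β.range)) ∈ L := by
        intro a
        induction a using PermF.induction with
        | h0 =>
          rw [map_zero, single_zero, sub_zero]
          exact L.zero_mem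
        | hadd a b ha hb =>
          have := L.add_mem ha hb
          rw [Prod.mk_add_mk, add_zero] at this
          rw [map_add, single_add]
          rwa [show a + b - (PermF.single Γ _ ((1 : Γ) : Γ ⧸ α.range) (ws Γ (fun _ => 1) a) +
            PermF.single Γ _ ((1 : Γ) : Γ ⧸ α.range) (ws Γ (fun _ => 1) b)) =
            a - PermF.single Γ _ ((1 : Γ) : Γ ⧸ α.range) (ws Γ (fun _ => 1) a) +
            (b - PermF.single Γ _ ((1 : Γ) : Γ ⧸ α.range) (ws Γ (fun _ => 1) b)) by abel]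
        | hs y n =>
          obtain ⟨y, rfl⟩ := QuotientGroup.mk_surjective y
          rw [ws_single, mul_one]
          exact c2 y n
      have c4 : ∀ b : PermF Γ (Γ ⧸ β.range), ((-
          PermF.single Γ _ ((1 : Γ) : Γ ⧸ α.range) (ws Γ (fun _ => 1) b), b) :
            PermF Γ (Γ ⧸ α.range) × PermF Γ (Γ ⧸ β.range)) ∈ L := by
        intro b
        induction b using PermF.induction with
        | h0 =>
          rw [map_zero, single_zero, neg_zero]
          exact L.zero_mem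
        | hadd a b ha hb =>
          have := L.add_mem ha hb
          rw [Prod.mk_add_mk, ← neg_add] at this
          rw [map_add, single_add]
          exact this
        | hs y n =>
          obtain ⟨y, rfl⟩ := QuotientGroup.mk_surjective y
          rw [ws_single, mul_one]
          have := L.sub_mem (c2 y n) (c1 y n)
          rw [Prod.mk_sub_mk] at this
          rwa [show PermF.single Γ _ (y : Γ ⧸ α.range) n -
            PermF.single Γ _ ((1 : Γ) : Γ ⧸ α.range) n - PermF.single Γ _ (y : Γ ⧸ α.range) n =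
              - PermF.single Γ _ ((1 : Γ) : Γ ⧸ α.range) n by abel,
            show (0 : PermF Γ (Γ ⧸ β.range)) - - PermF.single Γ _ (y : Γ ⧸ β.range) n =
              PermF.single Γ _ (y : Γ ⧸ β.range) n by abel] at this
      rintro ⟨a, b⟩ hx
      rw [LinearMap.mem_ker, hg] at hx
      have hx' : ws Γ (fun _ => 1) a + ws Γ (fun _ => 1) b = (0 : ℤ) := hx
      have := L.add_mem (c3 a) (c4 b)
      rw [Prod.mk_add_mk, zero_add] at this
      have h8 : a - PermF.single Γ _ ((1 : Γ) : Γ ⧸ α.range) (ws Γ (fun _ => 1) a) +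
          - PermF.single Γ _ ((1 : Γ) : Γ ⧸ α.range) (ws Γ (fun _ => 1) b) = a := by
        have h9 : PermF.single Γ _ ((1 : Γ) : Γ ⧸ α.range) (ws Γ (fun _ => 1) a) +
            PermF.single Γ _ ((1 : Γ) : Γ ⧸ α.range) (ws Γ (fun _ => 1) b) = 0 := by
          rw [← single_add, hx', single_zero]
        rw [← sub_eq_add_neg, sub_sub, h9, sub_zero]
      rwa [h8] at this

theorem amal_half (h : Amal α β κ ι S) : HalfSpace α κ S := by
  classical
  refine ⟨h.injA, h.injκ, h.notA, h.smulC, h.mulA, h.ppA, h.cover, ?_⟩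
  have hmul : ∀ γ γ' : Γ, (∃ X : Finset Γ, ∀ g ∈ S, g * γ ∉ S → ∃ x ∈ X, ∃ c : C,
      g = α (κ c) * x) → (∃ X : Finset Γ, ∀ g ∈ S, g * γ' ∉ S → ∃ x ∈ X, ∃ c : C,
      g = α (κ c) * x) → ∃ X : Finset Γ, ∀ g ∈ S, g * (γ * γ') ∉ S → ∃ x ∈ X, ∃ c : C,
      g = α (κ c) * x := by
    rintro γ γ' ⟨X, hX⟩ ⟨X', hX'⟩
    refine ⟨X ∪ X'.image (fun x => x * γ⁻¹), fun g hg hn => ?_⟩
    by_cases h1 : g * γ ∈ S
    · obtain ⟨x, hx, c, hc⟩ := hX' (g * γ) h1 (by rwa [mul_assoc])
      refine ⟨x * γ⁻¹, Finset.mem_union_right _ (Finset.mem_image.2 ⟨x, hx, rfl⟩), c, ?_⟩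
      rw [← mul_assoc, ← hc, mul_inv_cancel_right]
    · obtain ⟨x, hx, c, hc⟩ := hX g hg h1
      exact ⟨x, Finset.mem_union_left _ hx, c, hc⟩
  let K : Subgroup Γ :=
    { carrier := {γ | (∃ X : Finset Γ, ∀ g ∈ S, g * γ ∉ S → ∃ x ∈ X, ∃ c : C,
        g = α (κ c) * x) ∧ (∃ X : Finset Γ, ∀ g ∈ S, g * γ⁻¹ ∉ S → ∃ x ∈ X, ∃ c : C,
        g = α (κ c) * x)}
      mul_mem' := by
        rintro γ γ' ⟨h1, h2⟩ ⟨h3, h4⟩
        refine ⟨hmul _ _ h1 h3, ?_⟩
        rw [mul_inv_rev]
        exact hmul _ _ h4 h2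
      one_mem' := by
        refine ⟨⟨∅, fun g hg hn => ?_⟩, ⟨∅, fun g hg hn => ?_⟩⟩
        · rw [mul_one] at hn
          exact absurd hg hn
        · rw [inv_one, mul_one] at hn
          exact absurd hg hn
      inv_mem' := by
        rintro γ ⟨h1, h2⟩
        refine ⟨h2, ?_⟩
        rwa [inv_inv] }
  have hA : ∀ a : A, ∃ X : Finset Γ, ∀ g ∈ S, g * α a ∉ S → ∃ x ∈ X, ∃ c : C,
      g = α (κ c) * x := fun a => ⟨∅, fun g hg hn => absurd (h.mulA g hg a) hn⟩
  have hB : ∀ b : B, ∃ X : Finset Γ, ∀ g ∈ S, g * β b ∉ S → ∃ x ∈ X, ∃ c : C,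
      g = α (κ c) * x := by
    intro b
    refine ⟨{(β b)⁻¹}, fun g hg hn => ?_⟩
    rcases h.mulB g hg b with h1 | ⟨c, hc⟩
    · exact absurd h1 hn
    · refine ⟨_, Finset.mem_singleton_self _, c, ?_⟩
      rw [← hc, mul_inv_cancel_right]
  have hKA : α.range ≤ K := by
    rintro _ ⟨a, rfl⟩
    refine ⟨hA a, ?_⟩
    rw [← map_inv]
    exact hA _
  have hKB : β.range ≤ K := by
    rintro _ ⟨b, rfl⟩
    refine ⟨hB b, ?_⟩
    rw [← map_inv]
    exact hB _
  intro γ
  have h1 : (⊤ : Subgroup Γ) ≤ K := by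
    rw [← h.gen]
    exact sup_le hKA hKB
  exact (h1 (Subgroup.mem_top γ)).1

end

end Pool.Agent.Hhelper49.Srf
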