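import Pool.Agent.Hhelper49.Srf.IndB
import Pool.Agent.Hhelper49.Srf.IndC
import Pool.Agent.Hhelper49.Srf.Stab

/-!
# Module Ret: descent of freeness to a retract

`κ : H →* Γ`, `r : Γ →* H`, `r ∘ κ = id`.  For a `ℤ[Γ]`-module `Q` let `J Q ≤ Pull κ Q` be the `ℤ[H]`-submodule generated by
the `act k x - x`, `r k = 1`, `x ∈ Q`.
(1) `J Q` is also the additive subgroup generated by these elements (`act (κ h) (act k x - x) =
act (κ h * k * (κ h)⁻¹) (act (κ h) x) - act (κ h) x`), and it is preserved by `ℤ[Γ]`-isomorphisms of `Q`.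
(2) If `IsInd κ i π` then `P ≃ Pull κ Q ⧸ J Q`.  The map `P → Q → Q / J Q` is `ℤ[H]`-linear.  It is surjective:
`act g (i m) ≡ act (κ (r g)) (i m) = i (act (r g) m)` because `κ (r g) = k g` with `r k = 1`.  Its inverse: define
`ρ : Q →+ P`, `ρ x = ∑_c act (r (out c)) (π (act (out c)⁻¹ x))` (finitely many nonzero terms; e.g. build it with `finsum` or as
in `isInd_expand`); `ρ (act g (i m)) = act (r g) m` for all `g`, `m`, so `ρ (i m) = m` and `ρ` vanishes on the generators of `J Q`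
(check `ρ (act k x) = ρ x` for `x = act g (i m)`: `r (k g) = r g`).  So the map is injective.
(3) `desc_ret`: `P` finitely generated projective, `Q` induced from `P` and (FF).  Then `Q` is projective, and
`Q × ℤ[Γ]^a ≃ ℤ[Γ]^b` (`stablyFree_of_ff`).  The left hand side is induced from `P × ℤ[H]^a` and the right hand side from
`ℤ[H]^b` (`isInd_free`; `κ` is injective), so by (2) and (1) `P × ℤ[H]^a ≃ ℤ[H]^b`, and `P` is (FF) by `ff_left`.
-/

namespace Pool.Agent.Hhelper49.Srf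

open Pool.Agent.Hhelper49.Srr

section
variable {H Γ : Type} [Group H] [Group Γ] {κ : H →* Γ}
variable {M N M' N' : Type} [AddCommGroup M] [Module (MonoidAlgebra ℤ H) M] [AddCommGroup N]
  [Module (MonoidAlgebra ℤ Γ) N] [AddCommGroup M'] [Module (MonoidAlgebra ℤ H) M']
  [AddCommGroup N'] [Module (MonoidAlgebra ℤ Γ) N']
variable {i : M →+ N} {π : N →+ M} {i' : M' →+ N'} {π' : N' →+ M'}

/-- the retraction `act g (i m) ↦ act (r g) m` -/
theorem ret_exists (h : IsInd κ i π) (r : Γ →* H) (hr : ∀ h, r (κ h) = h) :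
    ∃ ρ : N →+ M, ∀ (g : Γ) (m : M), ρ (act g (i m)) = act (r g) m := by
  classical
  have hsupp : ∀ x : N, (Function.support fun c : Γ ⧸ κ.range =>
      act (r (Quotient.out c)) (π (act (Quotient.out c)⁻¹ x))).Finite := by
    intro x
    obtain ⟨T, hT, -⟩ := isInd_expand h x
    refine T.finite_toSet.subset fun c hc => ?_
    by_contra hcon
    apply hc
    change act (r (Quotient.out c)) (π (act (Quotient.out c)⁻¹ x)) = 0
    rw [hT c hcon, act, smul_zero]
  refine ⟨{ toFun := fun x => ∑ᶠ c : Γ ⧸ κ.range,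
              act (r (Quotient.out c)) (π (act (Quotient.out c)⁻¹ x))
            map_zero' := ?_
            map_add' := ?_ }, ?_⟩
  · have e : (fun c : Γ ⧸ κ.range =>
        act (r (Quotient.out c)) (π (act (Quotient.out c)⁻¹ (0 : N)))) = fun _ => 0 := by
      funext c
      rw [act, act, smul_zero, map_zero, smul_zero]
    rw [e]
    exact finsum_zero
  · intro x y
    rw [← finsum_add_distrib (hsupp x) (hsupp y)]
    congr 1
    funext c
    rw [act, act, smul_add, map_add, smul_add]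
  · intro g m
    change ∑ᶠ c : Γ ⧸ κ.range,
      act (r (Quotient.out c)) (π (act (Quotient.out c)⁻¹ (act g (i m)))) = act (r g) m
    obtain ⟨⟨_, ⟨k, rfl⟩⟩, hk⟩ := QuotientGroup.mk_out_eq_mul κ.range g
    have hk' : Quotient.out (g : Γ ⧸ κ.range) = g * κ k := hk
    rw [finsum_eq_single _ (g : Γ ⧸ κ.range)]
    · rw [hk', ← act_mul]
      have e : (g * κ k)⁻¹ * g = κ k⁻¹ := by
        rw [mul_inv_rev, map_inv, mul_assoc, inv_mul_cancel, mul_one]
      rw [e, h.proj, map_mul, hr, ← act_mul, mul_inv_cancel_right]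
    · intro c hc
      rw [← act_mul, h.projz, act, smul_zero]
      intro h2
      apply hc
      have h3 : ((Quotient.out c : Γ) : Γ ⧸ κ.range) = (g : Γ ⧸ κ.range) :=
        QuotientGroup.eq.2 h2
      rw [← h3]
      exact (QuotientGroup.out_eq' c).symm

theorem ret_act (h : IsInd κ i π) (r : Γ →* H) {ρ : N →+ M}
    (hρ : ∀ (g : Γ) (m : M), ρ (act g (i m)) = act (r g) m) (g : Γ) (n : N) :
    ρ (act g n) = act (r g) (ρ n) := by
  refine isInd_hom_eq h (ρ.comp (actHom N g)) ((actHom M (r g)).comp ρ) ?_ n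
  intro g' m
  rw [AddMonoidHom.comp_apply, AddMonoidHom.comp_apply, actHom_apply, actHom_apply, ← act_mul,
    hρ, hρ, map_mul, act_mul]

theorem ret_i (r : Γ →* H) {ρ : N →+ M}
    (hρ : ∀ (g : Γ) (m : M), ρ (act g (i m)) = act (r g) m) (m : M) : ρ (i m) = m := by
  have h1 := hρ 1 m
  rwa [act_one, map_one, act_one] at h1

/-- half of the isomorphism -/
theorem ret_half (h : IsInd κ i π) (h' : IsInd κ i' π') (r : Γ →* H) (hr : ∀ h, r (κ h) = h)
    {ρ : N →+ M} (hρ : ∀ (g : Γ) (m : M), ρ (act g (i m)) = act (r g) m)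
    {ρ' : N' →+ M'} (hρ' : ∀ (g : Γ) (m : M'), ρ' (act g (i' m)) = act (r g) m)
    (E : N ≃ₗ[MonoidAlgebra ℤ Γ] N') (m : M) : ρ (E.symm (i' (ρ' (E (i m))))) = m := by
  have key : ∀ n' : N', ρ (E.symm (i' (ρ' n'))) = ρ (E.symm n') := by
    intro n'
    refine isInd_hom_eq h' (((ρ.comp E.symm.toLinearMap.toAddMonoidHom).comp i').comp ρ')
      (ρ.comp E.symm.toLinearMap.toAddMonoidHom) ?_ n'
    intro g m'
    change ρ (E.symm (i' (ρ' (act g (i' m'))))) = ρ (E.symm (act g (i' m')))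
    have e1 : E.symm (act g (i' m')) = act g (E.symm (i' m')) :=
      lin_act (E.symm : N' →ₗ[MonoidAlgebra ℤ Γ] N) g (i' m')
    have e2 : E.symm (act (κ (r g)) (i' m')) = act (κ (r g)) (E.symm (i' m')) :=
      lin_act (E.symm : N' →ₗ[MonoidAlgebra ℤ Γ] N) (κ (r g)) (i' m')
    rw [hρ', h'.equi, e1, e2, ret_act h r hρ, ret_act h r hρ, hr]
  rw [key, LinearEquiv.symm_apply_apply, ret_i r hρ]

/-- isomorphic modules induced from `M`, `M'`: `M ≃ M'` if there is a retraction -/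
theorem ret_iso (h : Induced κ M N) (h' : Induced κ M' N') (r : Γ →* H) (hr : ∀ h, r (κ h) = h)
    (E : N ≃ₗ[MonoidAlgebra ℤ Γ] N') : Nonempty (M ≃ₗ[MonoidAlgebra ℤ H] M') := by
  obtain ⟨i, π, h⟩ := h
  obtain ⟨i', π', h'⟩ := h'
  obtain ⟨ρ, hρ⟩ := ret_exists h r hr
  obtain ⟨ρ', hρ'⟩ := ret_exists h' r hr
  have h1 := fun m => ret_half h h' r hr hρ hρ' E m
  have h2 := fun m => ret_half h' h r hr hρ' hρ E.symm m
  refine ⟨mkEquiv
    { toFun := fun m => ρ' (E (i m))
      invFun := fun m => ρ (E.symm (i' m))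
      left_inv := fun m => h1 m
      right_inv := fun m => h2 m
      map_add' := fun m m' => by rw [map_add, map_add, map_add] } ?_⟩
  intro g m
  change ρ' (E (i (act g m))) = act g (ρ' (E (i m)))
  have e1 : E (act (κ g) (i m)) = act (κ g) (E (i m)) :=
    lin_act (E : N →ₗ[MonoidAlgebra ℤ Γ] N') (κ g) (i m)
  rw [h.equi, e1, ret_act h' r hρ', hr]

end

theorem desc_ret {H Γ : Type} [Group H] [Group Γ] (κ : H →* Γ) (r : Γ →* H)
    (hr : ∀ h, r (κ h) = h) : DescProj κ := by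
  intro P Q _ _ _ _ hfin hproj hind hff
  have hκ : Function.Injective κ := fun a b hab => by rw [← hr a, ← hr b, hab]
  obtain ⟨-, hQp⟩ := ind_proj hκ P Q hind hfin hproj
  obtain ⟨a, b, ⟨E⟩⟩ := stablyFree_of_ff Q hQp hff
  have hfree : ∀ k : ℕ, Induced κ (Fin k → MonoidAlgebra ℤ H) (Fin k → MonoidAlgebra ℤ Γ) :=
    fun k => by
      obtain ⟨π, hπ⟩ := isInd_free (κ := κ) hκ k
      exact ⟨_, π, hπ⟩
  obtain ⟨e⟩ := ret_iso (ind_prod P Q _ _ hind (hfree a)) (hfree b) r hr E
  exact ff_left (ff_iso e.symm (ff_pow b)) (ff_pow a)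

end Pool.Agent.Hhelper49.Srf
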